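import Pool.Agent.H9.JH.Defs

set_option autoImplicit false
set_option linter.unusedSectionVars false

/-!
# JN L221 (helper13): trilinear maps `B(v;p,q)` with `B(v;v²,q) = 0`

`L221`: `B : V × D 2 × D 2 → F` trilinear, symmetric in the last two arguments, `B(v;v²,q) = 0`; if `B ≠ 0` then
`5 ≤ dim D 2`. `D3_ne`: `c ≥ 5`, `dim D 2 ≤ 4` imply `D 3 ≠ 0`.
-/

namespace JD

universe u

open Module

variable {F : Type u} [Field F] {A : Type u} [NonUnitalNonAssocCommRing A] [Module F A]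
  [IsScalarTower F A A] [SMulCommClass F A A] {c : ℕ} {D : ℕ → Submodule F A}

/-- five vectors with dual functionals -/
private theorem L221_li {T : Submodule F A} [Module.Finite F A] (x1 x2 x3 x4 x5 : A)
    (m1 : x1 ∈ T) (m2 : x2 ∈ T) (m3 : x3 ∈ T) (m4 : x4 ∈ T) (m5 : x5 ∈ T)
    (h : ∀ a b c d e : F, a • x1 + b • x2 + c • x3 + d • x4 + e • x5 = 0 →
      a = 0 ∧ b = 0 ∧ c = 0 ∧ d = 0 ∧ e = 0) : 5 ≤ finrank F T := by
  have li : LinearIndependent F (![⟨x1, m1⟩, ⟨x2, m2⟩, ⟨x3, m3⟩, ⟨x4, m4⟩, ⟨x5, m5⟩] : Fin 5 → T) := by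
    rw [Fintype.linearIndependent_iff]
    intro f hf
    have e := congrArg Subtype.val hf
    rw [Fin.sum_univ_five] at e
    simp only [Submodule.coe_add, Submodule.coe_smul, Submodule.coe_zero, Matrix.cons_val] at e
    obtain ⟨a1, a2, a3, a4, a5⟩ := h (f 0) (f 1) (f 2) (f 3) (f 4) e
    intro i
    fin_cases i
    · exact a1
    · exact a2
    · exact a3
    · exact a4
    · exact a5
  have := li.fintype_card_le_finrank
  simpa using this

theorem L221 (hG : GJ F A c D) (B : A →ₗ[F] A →ₗ[F] A →ₗ[F] F)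
    (hs : ∀ v ∈ D 1, ∀ p ∈ D 2, ∀ q ∈ D 2, B v p q = B v q p)
    (hv : ∀ v ∈ D 1, ∀ q ∈ D 2, B v (v * v) q = 0)
    (hne : ∃ v ∈ D 1, ∃ p ∈ D 2, ∃ q ∈ D 2, B v p q ≠ 0) : 5 ≤ finrank F (D 2) := by
  have hfin := hG.fin
  have h2 := hG.two
  have m11 : ∀ {v w : A}, v ∈ D 1 → w ∈ D 1 → v * w ∈ D 2 := fun hv hw =>
    hG.mul_mem 1 1 le_rfl le_rfl _ hv _ hw
  have hv' : ∀ v ∈ D 1, ∀ q ∈ D 2, B v q (v * v) = 0 := by
    intro v hv1 q hq
    rw [hs v hv1 q hq _ (m11 hv1 hv1), hv v hv1 q hq]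
  -- (1)
  have e1 : ∀ v ∈ D 1, ∀ w ∈ D 1, ∀ q ∈ D 2, 2 * B v (v * w) q + B w (v * v) q = 0 := by
    intro v hv1 w hw q hq
    have a1 := hv _ ((D 1).add_mem hv1 hw) q hq
    have a2 := hv _ ((D 1).sub_mem hv1 hw) q hq
    have b1 := hv v hv1 q hq
    have b2 := hv w hw q hq
    simp only [add_mul, mul_add, sub_mul, mul_sub, map_add, map_sub, LinearMap.add_apply,
      LinearMap.sub_apply, mul_comm w v] at a1 a2
    apply mul_left_cancel₀ h2
    linear_combination a1 - a2 - 2 * b2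
  -- (2)
  have e2 : ∀ u ∈ D 1, ∀ v ∈ D 1, ∀ w ∈ D 1, ∀ q ∈ D 2,
      B u (v * w) q + B v (u * w) q + B w (u * v) q = 0 := by
    intro u hu v hv1 w hw q hq
    have a1 := e1 _ ((D 1).add_mem hu hv1) w hw q hq
    have a2 := e1 u hu w hw q hq
    have a3 := e1 v hv1 w hw q hq
    simp only [add_mul, mul_add, map_add, LinearMap.add_apply, mul_comm v u] at a1
    apply mul_left_cancel₀ h2
    linear_combination a1 - a2 - a3
  -- (b)
  have eb : ∀ w ∈ D 1, ∀ v ∈ D 1, ∀ w' ∈ D 1, B w (v * v) (v * w') = 0 := by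
    have k1 : ∀ v ∈ D 1, ∀ w ∈ D 1, ∀ w' ∈ D 1, B w (v * v) (v * w') = B w' (v * v) (v * w) := by
      intro v hv1 w hw w' hw'
      have a1 := e1 v hv1 w hw _ (m11 hv1 hw')
      have a2 := e1 v hv1 w' hw' _ (m11 hv1 hw)
      rw [hs v hv1 _ (m11 hv1 hw') _ (m11 hv1 hw)] at a2
      linear_combination a1 - a2
    intro w hw v hv1 w' hw'
    have a1 := k1 v hv1 w hw w' hw'
    have a2 := e2 w hw v hv1 w' hw' _ (m11 hv1 hv1)
    rw [hv' v hv1 _ (m11 hw hw'), hs w hw _ (m11 hv1 hw') _ (m11 hv1 hv1),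
      mul_comm w v, hs w' hw' _ (m11 hv1 hw) _ (m11 hv1 hv1)] at a2
    apply mul_left_cancel₀ h2
    linear_combination a1 + a2
  have eb' : ∀ w ∈ D 1, ∀ v ∈ D 1, ∀ w' ∈ D 1, B w (v * w') (v * v) = 0 := by
    intro w hw v hv1 w' hw'
    rw [hs w hw _ (m11 hv1 hw') _ (m11 hv1 hv1), eb w hw v hv1 w' hw']
  -- some `B(w;x²,y²) ≠ 0`
  obtain ⟨w, hw, x, hx, y, hy, hK⟩ : ∃ w ∈ D 1, ∃ x ∈ D 1, ∃ y ∈ D 1,
      B w (x * x) (y * y) ≠ 0 := by
    by_contra hcon
    push Not at hcon
    obtain ⟨v, hv1, p, hp, q, hq, hpq⟩ := hne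
    apply hpq
    have k1 : ∀ y ∈ D 1, B v p (y * y) = 0 := by
      intro y hy
      have hT : D 2 ≤ LinearMap.ker ((B v).flip (y * y)) := by
        apply hG.sq
        intro x hx
        rw [LinearMap.mem_ker]
        exact hcon v hv1 x hx y hy
      exact LinearMap.mem_ker.mp (hT hp)
    have hT : D 2 ≤ LinearMap.ker (B v p) := by
      apply hG.sq
      intro y hy
      rw [LinearMap.mem_ker]
      exact k1 y hy
    exact LinearMap.mem_ker.mp (hT hq)
  have hxy := m11 hx hy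
  have hxx := m11 hx hx
  have hyy := m11 hy hy
  have hxw := m11 hx hw
  have hyw := m11 hy hw
  have K1 : 2 * B x (x * w) (y * y) + B w (x * x) (y * y) = 0 := e1 x hx w hw _ hyy
  have K2 : 2 * B y (y * w) (x * x) + B w (x * x) (y * y) = 0 := by
    have := e1 y hy w hw _ hxx
    rwa [hs w hw _ hyy _ hxx] at this
  have K3 : 2 * B w (x * y) (x * y) + B w (x * x) (y * y) = 0 := by
    have a1 := eb w hw _ ((D 1).add_mem hx hy) y hy
    have a2 := eb w hw _ ((D 1).sub_mem hx hy) y hy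
    have a4 := eb w hw y hy y hy
    simp only [add_mul, mul_add, sub_mul, mul_sub, map_add, map_sub, LinearMap.add_apply,
      LinearMap.sub_apply, mul_comm y x] at a1 a2
    apply mul_left_cancel₀ h2
    linear_combination a1 - a2 - 2 * a4
  refine L221_li (x * x) (x * y) (y * y) (x * w) (y * w) hxx hxy hyy hxw hyw ?_
  intro a b c d e he
  have E : ∀ (u : A) (q : A), a * B u (x * x) q + b * B u (x * y) q + c * B u (y * y) q +
      d * B u (x * w) q + e * B u (y * w) q = 0 := by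
    intro u q
    have := congrArg (fun z => B u z q) he
    simpa only [map_add, map_smul, LinearMap.add_apply, LinearMap.smul_apply, smul_eq_mul,
      map_zero, LinearMap.zero_apply] using this
  have z1 : B x (x * y) (y * y) = 0 := by
    rw [mul_comm x y]; exact eb' x hx y hy x hx
  have z2 : B x (y * y) (y * y) = 0 := eb x hx y hy y hy
  have z3 : B x (y * w) (y * y) = 0 := eb' x hx y hy w hw
  have z4 : B y (x * y) (x * x) = 0 := eb' y hy x hx y hy
  have z5 : B y (x * x) (x * x) = 0 := eb y hy x hx x hx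
  have z6 : B y (x * w) (x * x) = 0 := eb' y hy x hx w hw
  have z7 : B x (x * x) (y * y) = 0 := hv x hx _ hyy
  have z8 : B y (y * y) (x * x) = 0 := hv y hy _ hxx
  have z9 : B w (x * y) (y * y) = 0 := by
    rw [mul_comm x y]; exact eb' w hw y hy x hx
  have z10 : B w (y * y) (y * y) = 0 := eb w hw y hy y hy
  have z11 : B w (x * x) (x * y) = 0 := eb w hw x hx y hy
  have z12 : B w (y * y) (x * y) = 0 := by
    rw [mul_comm x y]; exact eb w hw y hy x hx
  have z13 : B w (x * y) (x * x) = 0 := eb' w hw x hx y hy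
  have z14 : B w (x * x) (x * x) = 0 := eb w hw x hx x hx
  have hd : d = 0 := by
    have k := E x (y * y)
    rw [z7, z1, z2, z3] at k
    have : d * B w (x * x) (y * y) = 0 := by linear_combination d * K1 - 2 * k
    exact (mul_eq_zero.mp this).resolve_right hK
  have he0 : e = 0 := by
    have k := E y (x * x)
    rw [z8, z4, z5, z6] at k
    have : e * B w (x * x) (y * y) = 0 := by linear_combination e * K2 - 2 * k
    exact (mul_eq_zero.mp this).resolve_right hK
  subst hd he0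
  have ha : a = 0 := by
    have k := E w (y * y)
    rw [z9, z10] at k
    have : a * B w (x * x) (y * y) = 0 := by linear_combination k
    exact (mul_eq_zero.mp this).resolve_right hK
  subst ha
  have hb : b = 0 := by
    have k := E w (x * y)
    rw [z12] at k
    have : b * B w (x * x) (y * y) = 0 := by linear_combination b * K3 - 2 * k
    exact (mul_eq_zero.mp this).resolve_right hK
  subst hb
  have hc : c = 0 := by
    have k := E w (x * x)
    rw [hs w hw _ hyy _ hxx] at k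
    have : c * B w (x * x) (y * y) = 0 := by linear_combination k
    exact (mul_eq_zero.mp this).resolve_right hK
  exact ⟨rfl, rfl, hc, rfl, rfl⟩

/-- vector valued form -/
theorem L221' (hG : GJ F A c D) (B : A →ₗ[F] A →ₗ[F] A →ₗ[F] A)
    (hs : ∀ v ∈ D 1, ∀ p ∈ D 2, ∀ q ∈ D 2, B v p q = B v q p)
    (hv : ∀ v ∈ D 1, ∀ q ∈ D 2, B v (v * v) q = 0) (h : finrank F (D 2) ≤ 4) :
    ∀ v ∈ D 1, ∀ p ∈ D 2, ∀ q ∈ D 2, B v p q = 0 := by
  intro v hv1 p hp q hq
  rw [← Module.forall_dual_apply_eq_zero_iff F]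
  intro φ
  by_contra hne
  let B' : A →ₗ[F] A →ₗ[F] A →ₗ[F] F :=
    { toFun := fun v => (B v).compr₂ φ
      map_add' := by intro x y; ext p q; simp
      map_smul' := by intro r x; ext p q; simp }
  have := L221 hG B' (fun v hv1 p hp q hq => by
    show φ (B v p q) = φ (B v q p)
    rw [hs v hv1 p hp q hq]) (fun v hv1 q hq => by
    show φ (B v (v * v) q) = 0
    rw [hv v hv1 q hq, map_zero]) ⟨v, hv1, p, hp, q, hq, hne⟩
  omega

/-- `D 3 ≠ 0` -/
theorem D3_ne (hG : GJ F A c D) (hc : 5 ≤ c) (h : finrank F (D 2) ≤ 4) : D 3 ≠ ⊥ := by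
  intro h3
  have z3 : ∀ a ∈ D 3, a = 0 := by
    intro a ha
    rw [h3] at ha
    exact (Submodule.mem_bot F).mp ha
  have h2 := hG.two
  have hJ := hG.jordan
  have hvq : ∀ v ∈ D 1, ∀ q ∈ D 2, v * q = 0 := fun v hv q hq =>
    z3 _ (hG.mul_mem 1 2 le_rfl (by norm_num) v hv q hq)
  have hqv : ∀ v ∈ D 1, ∀ q ∈ D 2, q * v = 0 := fun v hv q hq => by
    rw [mul_comm]; exact hvq v hv q hq
  let B : A →ₗ[F] A →ₗ[F] A →ₗ[F] A :=
    { toFun := fun v => (LinearMap.mul F A).compr₂ (LinearMap.mulLeft F v)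
      map_add' := by intro x y; ext p q; simp [add_mul]
      map_smul' := by intro r x; ext p q; simp [smul_mul_assoc] }
  have hB : ∀ v p q, B v p q = v * (p * q) := fun _ _ _ => rfl
  have key := L221' hG B (fun v _ p _ q _ => by rw [hB, hB, mul_comm p q]) (fun v hv1 q hq => by
    rw [hB, ← gJ1 hJ, hvq v hv1 q hq, mul_zero]) h
  have k1 : ∀ v ∈ D 1, ∀ p ∈ D 2, ∀ q ∈ D 2, v * (p * q) = 0 := key
  have k2 : ∀ p ∈ D 2, ∀ q ∈ D 2, ∀ q' ∈ D 2, p * (q * q') = 0 := by
    intro p hp q hq q' hq'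
    have hT : D 2 ≤ LinearMap.ker (LinearMap.mulRight F (q * q')) := by
      apply hG.gen2
      intro v hv w hw
      rw [LinearMap.mem_ker, LinearMap.mulRight_apply]
      have e := gJ3 F h2 hJ v q q' w
      rw [hvq v hv q hq, hqv v hv q' hq'] at e
      simp only [zero_mul, mul_zero, add_zero, zero_add] at e
      rw [mul_comm (v * w), e, mul_comm (q * q') w, k1 w hw q hq q' hq', mul_zero]
    exact LinearMap.mem_ker.mp (hT hp)
  have h4 : D 4 ≤ ⊥ := by
    have sp : ∀ T : Submodule F A, (∀ p ∈ D 2, ∀ q ∈ D 2, p * q ∈ T) → D 4 ≤ T := by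
      intro T hT
      refine hG.gen 4 (by norm_num) T ?_ (fun p hp q hq => hT p hp q hq)
      intro v _ a ha
      have ha' : a ∈ D 3 := ha
      rw [z3 a ha', mul_zero]
      exact T.zero_mem
    intro g hg
    rw [Submodule.mem_bot]
    refine hG.nd 4 (by norm_num) (by omega) g hg ?_ ?_
    · intro v hv
      have hT : D 4 ≤ LinearMap.ker (LinearMap.mulLeft F v) := sp _ fun p hp q hq => by
        rw [LinearMap.mem_ker, LinearMap.mulLeft_apply]
        exact k1 v hv p hp q hq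
      exact LinearMap.mem_ker.mp (hT hg)
    · intro r hr
      have hT : D 4 ≤ LinearMap.ker (LinearMap.mulLeft F r) := sp _ fun p hp q hq => by
        rw [LinearMap.mem_ker, LinearMap.mulLeft_apply]
        exact k2 r hr p hp q hq
      exact LinearMap.mem_ker.mp (hT hg)
  have mn : ∀ n, 3 ≤ n → D n ≤ ⊥ ∧ D (n + 1) ≤ ⊥ := by
    intro n hn
    induction n, hn using Nat.le_induction with
    | base => exact ⟨h3.le, h4⟩
    | succ n hn ih =>
      refine ⟨ih.2, ?_⟩
      refine hG.gen (n + 1 + 1) (by omega) ⊥ ?_ ?_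
      · intro v _ h hh
        have hh' : h = 0 := (Submodule.mem_bot F).mp (ih.2 hh)
        rw [hh', mul_zero]
        exact Submodule.zero_mem _
      · intro v _ h hh
        have hh' : h = 0 := (Submodule.mem_bot F).mp (ih.1 hh)
        rw [hh', mul_zero]
        exact Submodule.zero_mem _
  have ht := hG.top
  rw [le_bot_iff.mp (mn c (by omega)).1, finrank_bot] at ht
  exact zero_ne_one ht

end JD
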