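import Pool.Agent.H9.JH.H3A
import Pool.Agent.H9.JH.H3C
import Pool.Agent.H9.JN.L221

set_option autoImplicit false
set_option linter.unusedSectionVars false

/-!
# JN CurvX: `dim D 3 = 1`, class at least 5: normal form

`ne_V`: `V a ≠ 0` (`c ≥ 4`). `curvX`: `v q = η(v) ε(q) a`, `ε(xy) = η(x)η(y)`, `v a = η(v) g`, `q a = ε(q) x5`, `v g = η(v) x5`.
`curv5`: class 5.
-/

namespace JD

universe u

open Module

variable {F : Type u} [Field F] {A : Type u} [NonUnitalNonAssocCommRing A] [Module F A]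
  [IsScalarTower F A A] [SMulCommClass F A A] {c : ℕ} {D : ℕ → Submodule F A}

theorem ne_V (hG : GJ F A c D) (hc : 4 ≤ c) (a : A) (κ : A →ₗ[F] F) (ha : a ∈ D 3)
    (hκ : κ a = 1) (h3 : ∀ h ∈ D 3, h = κ h • a) (hV : ∀ v ∈ D 1, v * a = 0) : False := by
  have hinf := hG.inf
  have h2 := hG.two
  have hJ := hG.jordan
  have m11 : ∀ {v w : A}, v ∈ D 1 → w ∈ D 1 → v * w ∈ D 2 := fun hv hw =>
    hG.mul_mem 1 1 le_rfl le_rfl _ hv _ hw
  have m12 : ∀ {v q : A}, v ∈ D 1 → q ∈ D 2 → v * q = κ (v * q) • a := fun hv hq =>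
    h3 _ (hG.mul_mem 1 2 le_rfl (by norm_num) _ hv _ hq)
  have hV3 : ∀ v ∈ D 1, ∀ h ∈ D 3, v * h = 0 := by
    intro v hv h hh
    rw [h3 h hh, mul_smul_comm, hV v hv, smul_zero]
  have s1 : ∀ v ∈ D 1, ∀ h ∈ D 1, (v * v) * (v * h) = 0 := by
    intro v hv h hh
    rw [gJ1 hJ]
    exact hV3 v hv _ (hG.mul_mem 2 1 (by norm_num) le_rfl _ (m11 hv hv) _ hh)
  have ha0 : a ≠ 0 := by
    rintro rfl
    rw [map_zero] at hκ
    exact zero_ne_one hκ
  -- some `v0² a ≠ 0`
  obtain ⟨v0, hv0, hv0a⟩ : ∃ v ∈ D 1, (v * v) * a ≠ 0 := by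
    by_contra hne
    push Not at hne
    apply ha0
    refine hG.nd 3 (by norm_num) (by omega) a ha hV ?_
    intro q hq
    have hT : D 2 ≤ LinearMap.ker (LinearMap.mulRight F a) := by
      apply hG.sq
      intro v hv
      rw [LinearMap.mem_ker]
      exact hne v hv
    exact LinearMap.mem_ker.mp (hT hq)
  obtain ⟨φ, hφ⟩ : ∃ φ : A →ₗ[F] F, φ ((v0 * v0) * a) ≠ 0 := by
    by_contra hcon'
    push Not at hcon'
    exact hv0a ((Module.forall_dual_apply_eq_zero_iff F _).mp hcon')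
  -- (3), (4)
  have k1 : ∀ v ∈ D 1, (v * v) * a ≠ 0 → ∀ h ∈ D 1, κ (h * (v * v)) = 0 := by
    intro v hv hne h hh
    have hvv := m11 hv hv
    have hvh := m11 hv hh
    have e4 := gJ3 F h2 hJ v v (v * v) v
    have e3 := gJ3 F h2 hJ v v h (v * v)
    have t1 : (v * v) * (v * v) = 0 := s1 v hv v hv
    have t2 : κ (v * (v * v)) = 0 := by
      rw [mul_comm (v * v) v, m12 hv hvv] at e4
      simp only [smul_mul_assoc, mul_smul_comm] at e4
      rw [mul_comm a v, hV v hv] at e4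
      simp only [mul_zero, smul_zero, add_zero] at e4
      have e5 : (2 * κ (v * (v * v))) • ((v * v) * a) = 0 := by
        rw [mul_comm a (v * v)] at e4
        rw [mul_smul, two_smul]
        rw [← sub_eq_zero] at e4
        rw [← e4]
        module
      exact (mul_eq_zero.mp ((smul_eq_zero.1 e5).resolve_right hne)).resolve_left h2
    have t3 : v * (v * v) = 0 := by
      rw [m12 hv hvv, t2, zero_smul]
    rw [mul_comm h v, t3, t1, mul_comm (v * h) (v * v), s1 v hv h hh, m12 hh hvv,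
      mul_smul_comm] at e3
    simp only [mul_zero, add_zero] at e3
    exact (smul_eq_zero.1 e3).resolve_right hne
  have k2 : ∀ h ∈ D 1, ∀ v ∈ D 1, κ (h * (v * v)) = 0 := by
    intro h hh v hv
    let P : Polynomial F := Polynomial.C (φ ((v * v) * a)) +
      Polynomial.C (2 * φ ((v * v0) * a)) * Polynomial.X +
      Polynomial.C (φ ((v0 * v0) * a)) * Polynomial.X ^ 2
    have hP : P ≠ 0 := by
      intro h0
      have := congrArg (fun R => Polynomial.coeff R 2) h0
      simp [P] at this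
      exact hφ (by tauto)
    have hexp : ∀ t : F, (v + t • v0) * (v + t • v0) =
        v * v + t • ((2 : F) • (v * v0)) + t ^ 2 • (v0 * v0) := by
      intro t
      rw [add_mul, mul_add, mul_add, smul_mul_smul_comm, mul_smul_comm, smul_mul_assoc,
        mul_comm v0 v]
      module
    let f : ℕ → F := fun i => if i = 0 then κ (h * (v * v)) else if i = 1 then
      2 * κ (h * (v * v0)) else κ (h * (v0 * v0))
    have key := pvan P hP 3 f (by
      intro t ht
      have e := k1 (v + t • v0) ((D 1).add_mem hv ((D 1).smul_mem t hv0)) (by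
        intro h0
        apply ht
        have h0' := congrArg φ h0
        rw [hexp] at h0'
        simp only [add_mul, smul_mul_assoc, map_add, map_smul, map_zero, smul_eq_mul] at h0'
        simp only [P, Polynomial.eval_add, Polynomial.eval_mul, Polynomial.eval_C,
          Polynomial.eval_X, Polynomial.eval_pow]
        rw [← h0']
        ring) h hh
      rw [hexp] at e
      simp only [mul_add, mul_smul_comm, map_add, map_smul, smul_eq_mul] at e
      rw [Finset.sum_range_succ, Finset.sum_range_succ, Finset.sum_range_one, pow_zero, one_smul,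
        pow_one]
      have e2 : κ (h * (v * v)) + t * (2 * κ (h * (v * v0))) + t ^ 2 * κ (h * (v0 * v0)) = 0 := by
        rw [← e]
      exact e2) 0 (by norm_num)
    exact key
  have k3 : ∀ h ∈ D 1, ∀ q ∈ D 2, κ (h * q) = 0 := by
    intro h hh q hq
    have hT : D 2 ≤ LinearMap.ker (κ ∘ₗ LinearMap.mulLeft F h) := by
      apply hG.sq
      intro v hv
      rw [LinearMap.mem_ker]
      exact k2 h hh v hv
    exact LinearMap.mem_ker.mp (hT hq)
  have h30 : D 3 ≤ ⊥ := by
    refine hG.gen 3 le_rfl ⊥ ?_ ?_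
    · intro v hv q hq
      have hq' : q ∈ D 2 := hq
      rw [m12 hv hq', k3 v hv q hq', zero_smul]
      exact Submodule.zero_mem _
    · intro q hq v hv
      have hv' : v ∈ D 1 := hv
      rw [mul_comm q v, m12 hv' hq, k3 v hv' q hq, zero_smul]
      exact Submodule.zero_mem _
  exact ha0 ((Submodule.mem_bot F).mp (h30 ha))

private theorem CurvX_two {V : Type u} [AddCommGroup V] [Module F V] (h2 : (2 : F) ≠ 0) {x y : V}
    (h : (2 : F) • x = (2 : F) • y) : x = y := by
  have := congrArg (fun t => (2 : F)⁻¹ • t) h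
  simpa [smul_smul, inv_mul_cancel₀ h2] using this

/-- normal form if `dim D 3 = 1` -/
theorem curvX (hG : GJ F A c D) (hc : 5 ≤ c) (h : finrank F (D 3) = 1) :
    ∃ a ∈ D 3, ∃ g ∈ D 4, g ≠ 0 ∧ ∃ η ε : A →ₗ[F] F, ∃ e ∈ D 1, η e = 1 ∧
      (∀ b ∈ D 3, ∃ r : F, b = r • a) ∧
      (∀ x ∈ D 1, ∀ y ∈ D 1, ε (x * y) = η x * η y) ∧
      (∀ v ∈ D 1, ∀ q ∈ D 2, v * q = (η v * ε q) • a) ∧
      (∀ v ∈ D 1, v * a = η v • g) ∧
      (∀ q ∈ D 2, q * a = ε q • (e * g)) ∧
      (∀ v ∈ D 1, v * g = η v • (e * g)) ∧ e * g ≠ 0 := by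
  have hfin := hG.fin
  have h2 := hG.two
  have hJ := hG.jordan
  obtain ⟨a0, ha0, -, κ0, hκ0, h30⟩ := exists_coord h
  rcases H3A_rank hG a0 κ0 ha0 hκ0 h30 with h4 | ⟨g0, hg0, hg00, η, hη0, e, he, hηe⟩
  · exact (ne_V hG (by omega) a0 κ0 ha0 hκ0 h30 h4).elim
  obtain ⟨c0, hc0, hc0'⟩ := H3C hG hc a0 κ0 ha0 hκ0 h30 g0 hg0 hg00 η hη0 e he hηe
  obtain ⟨a, haa⟩ : ∃ a, a = c0 • a0 := ⟨_, rfl⟩
  obtain ⟨κ, hκκ⟩ : ∃ κ : A →ₗ[F] F, κ = c0⁻¹ • κ0 := ⟨_, rfl⟩
  obtain ⟨g, hgg⟩ : ∃ g, g = c0 • g0 := ⟨_, rfl⟩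
  have ha : a ∈ D 3 := by rw [haa]; exact Submodule.smul_mem _ _ ha0
  have hg : g ∈ D 4 := by rw [hgg]; exact Submodule.smul_mem _ _ hg0
  have hgne : g ≠ 0 := by
    rw [hgg]
    intro h0
    exact hg00 ((smul_eq_zero.1 h0).resolve_left hc0)
  have h3 : ∀ h ∈ D 3, h = κ h • a := by
    intro h5 hh
    rw [hκκ, haa, LinearMap.smul_apply, smul_eq_mul, smul_smul, mul_comm (c0⁻¹), mul_assoc,
      inv_mul_cancel₀ hc0, mul_one]
    exact h30 h5 hh
  have hη : ∀ v ∈ D 1, v * a = η v • g := by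
    intro v hv
    rw [haa, hgg, mul_smul_comm, hη0 v hv, smul_smul, smul_smul, mul_comm]
  have hcc : ∀ h ∈ D 1, ∀ x ∈ D 1, ∀ y ∈ D 1, κ (h * (x * y)) = η h * η x * η y := by
    intro h5 hh x hx y hy
    rw [hκκ, LinearMap.smul_apply, smul_eq_mul, hc0' h5 hh x hx y hy]
    field_simp
  obtain ⟨ε, hε⟩ : ∃ ε : A →ₗ[F] F, ∀ q, ε q = κ (e * q) :=
    ⟨κ ∘ₗ (LinearMap.mul F A e), fun q => rfl⟩
  have f1 : ∀ x ∈ D 1, ∀ y ∈ D 1, ε (x * y) = η x * η y := by
    intro x hx y hy
    rw [hε, hcc e he x hx y hy, hηe, one_mul]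
  have f2 : ∀ v ∈ D 1, ∀ q ∈ D 2, v * q = (η v * ε q) • a := by
    intro v hv q hq
    have h := h3 (v * q) (hG.mul_mem 1 2 le_rfl (by norm_num) v hv q hq)
    have hT : D 2 ≤ LinearMap.ker (κ ∘ₗ (LinearMap.mul F A v) - η v • ε) := by
      apply hG.gen2
      intro x hx y hy
      rw [LinearMap.mem_ker]
      show κ (v * (x * y)) - η v * ε (x * y) = 0
      rw [hcc v hv x hx y hy, f1 x hx y hy]
      ring
    have h4 := hT hq
    rw [LinearMap.mem_ker] at h4
    have h5 : κ (v * q) = η v * ε q := sub_eq_zero.mp h4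
    rw [h5] at h
    exact h
  have f2' : ∀ v ∈ D 1, ∀ q ∈ D 2, q * v = (η v * ε q) • a := by
    intro v hv q hq
    rw [mul_comm]; exact f2 v hv q hq
  have hη' : ∀ v ∈ D 1, a * v = η v • g := by
    intro v hv
    rw [mul_comm]; exact hη v hv
  have hee : e * e ∈ D 2 := hG.mul_mem 1 1 le_rfl le_rfl e he e he
  have hεee : ε (e * e) = 1 := by rw [f1 e he e he, hηe, one_mul]
  have f5a : ∀ x ∈ D 1, ∀ y ∈ D 1, ∀ h ∈ D 1, ∀ q ∈ D 2,
      (η h * ε q) • ((x * y) * a) + (η y * ε q) • ((x * h) * a) + (η x * ε q) • ((y * h) * a) =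
      (η h * η x * η y) • (q * a) + (η y * ε q * η h) • (x * g) + (η x * ε q * η h) • (y * g) := by
    intro x hx y hy h hh q hq
    have k := gJ3 F h2 hJ x y q h
    have hxy : x * y ∈ D 2 := hG.mul_mem 1 1 le_rfl le_rfl x hx y hy
    rw [f2' h hh q hq, f2 y hy q hq, f2' x hx q hq, f2' h hh (x * y) hxy, f1 x hx y hy] at k
    simp only [smul_mul_assoc, mul_smul_comm] at k
    rw [hη' h hh, mul_comm a (x * h), mul_comm a (y * h)] at k
    simp only [mul_smul_comm, smul_smul] at k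
    linear_combination (norm := module) k
  have f40 : (e * e) * a = e * g := by
    have k := f5a e he e he e he (e * e) hee
    rw [hηe, hεee] at k
    apply CurvX_two h2
    linear_combination (norm := module) k
  have f4 : ∀ q ∈ D 2, q * a = ε q • (e * g) := by
    intro q hq
    have k := f5a e he e he e he q hq
    rw [hηe, f40] at k
    linear_combination (norm := module) -k
  have f5 : ∀ v ∈ D 1, v * g = η v • (e * g) := by
    intro v hv
    have k := f5a v hv e he e he (e * e) hee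
    rw [f4 _ (hG.mul_mem 1 1 le_rfl le_rfl v hv e he), f1 v hv e he, f40, hηe, hεee] at k
    linear_combination (norm := module) -k
  refine ⟨a, ha, g, hg, hgne, η, ε, e, he, hηe, fun b hb => ⟨κ b, h3 b hb⟩, f1, f2, hη, f4, f5, ?_⟩
  intro h0
  -- FACT P
  apply hgne
  refine hG.nd 4 (by norm_num) (by omega) g hg (fun v hv => by rw [f5 v hv, h0, smul_zero]) ?_
  -- `x² g = 0` if `η(x) ≠ 0`
  have k1 : ∀ x ∈ D 1, η x ≠ 0 → (x * x) * g = 0 := by
    intro x hx hx0
    have k := gJ1 hJ x a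
    rw [hη x hx, f4 _ (hG.mul_mem 1 1 le_rfl le_rfl x hx x hx), h0, smul_zero, mul_zero,
      mul_smul_comm] at k
    exact (smul_eq_zero.1 k).resolve_left hx0
  have k2 : ∀ x ∈ D 1, (x * x) * g = 0 := by
    intro x hx
    by_cases hx0 : η x = 0
    · have a1 := k1 (e + x) ((D 1).add_mem he hx) (by
        rw [map_add, hηe, hx0, add_zero]; exact one_ne_zero)
      have a2 := k1 (e - x) ((D 1).sub_mem he hx) (by
        rw [map_sub, hηe, hx0, sub_zero]; exact one_ne_zero)
      have a3 := k1 e he (by rw [hηe]; exact one_ne_zero)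
      simp only [add_mul, mul_add, sub_mul, mul_sub, mul_comm x e] at a1 a2
      rw [a3] at a1 a2
      have : (2 : F) • ((x * x) * g) = 0 := by
        rw [two_smul]
        linear_combination (norm := abel) a1 + a2
      exact (smul_eq_zero.1 this).resolve_left h2
    · exact k1 x hx hx0
  intro q hq
  have hT : D 2 ≤ LinearMap.ker (LinearMap.mulRight F g) := by
    apply hG.sq
    intro x hx
    rw [LinearMap.mem_ker]
    exact k2 x hx
  exact LinearMap.mem_ker.mp (hT hq)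

/-- class 5, `dim D 3 = 1`: one letter, or `dim D 2 ≥ 5` -/
theorem curv5 (hG : GJ F A 5 D) (h : finrank F (D 3) = 1) :
    finrank F (D 1) ≤ 1 ∨ 5 ≤ finrank F (D 2) := by
  have hfin := hG.fin
  have h2 := hG.two
  have hJ := hG.jordan
  by_cases h5 : 5 ≤ finrank F (D 2)
  · exact Or.inr h5
  left
  obtain ⟨a, ha, g, hg, hg0, η, ε, e, he, hηe, h3, f1, f2, hη, f4, f5, hx5⟩ := curvX hG le_rfl h
  have m11 : ∀ {v w : A}, v ∈ D 1 → w ∈ D 1 → v * w ∈ D 2 := fun hv hw =>
    hG.mul_mem 1 1 le_rfl le_rfl _ hv _ hw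
  let Γ : A →ₗ[F] A →ₗ[F] A := LinearMap.mk₂ F (fun q q' => q * q' - (ε q * ε q') • g)
    (by intro x y z; rw [add_mul, map_add]; module)
    (by intro r x y; rw [smul_mul_assoc, map_smul, smul_eq_mul]; module)
    (by intro x y z; rw [mul_add, map_add]; module)
    (by intro r x y; rw [mul_smul_comm, map_smul, smul_eq_mul]; module)
  have hΓ : ∀ q q', Γ q q' = q * q' - (ε q * ε q') • g := fun _ _ => rfl
  let B : A →ₗ[F] A →ₗ[F] A →ₗ[F] A :=
    { toFun := fun v => Γ.compr₂ (LinearMap.mulLeft F v)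
      map_add' := by intro x y; ext p q; simp [add_mul]
      map_smul' := by intro r x; ext p q; simp [smul_mul_assoc] }
  have hB : ∀ v p q, B v p q = v * Γ p q := fun _ _ _ => rfl
  have key := L221' hG B (fun v _ p _ q _ => by
    rw [hB, hB, hΓ, hΓ, mul_comm p q, mul_comm (ε p)]) (fun v hv q hq => by
    have hvv := m11 hv hv
    rw [hB, hΓ, mul_sub, ← gJ1 hJ v q, f2 v hv q hq, mul_smul_comm, mul_smul_comm, f4 _ hvv,
      f5 v hv, f1 v hv v hv]
    module) (by omega)
  have hΓ0 : ∀ p ∈ D 2, ∀ q ∈ D 2, Γ p q = 0 := by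
    intro p hp q hq
    have m4 : Γ p q ∈ D 4 := by
      rw [hΓ]
      exact Submodule.sub_mem _ (hG.mul_mem 2 2 (by norm_num) (by norm_num) p hp q hq)
        (Submodule.smul_mem _ _ hg)
    refine hG.nd 4 (by norm_num) (by norm_num) _ m4 (fun v hv => key v hv p hp q hq) ?_
    intro r hr
    exact hG.above 6 (by norm_num) _ (hG.mul_mem 2 4 (by norm_num) (by norm_num) r hr _ m4)
  have w0 : ∀ w ∈ D 1, η w = 0 → w = 0 := by
    intro w hw hw0
    refine hG.nd 1 le_rfl (by norm_num) w hw ?_ ?_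
    · intro v hv
      have hwv := m11 hv hw
      have hε0 : ε (v * w) = 0 := by rw [f1 v hv w hw, hw0, mul_zero]
      apply hG.nd 2 (by norm_num) (by norm_num) _ hwv
      · intro z hz
        rw [f2 z hz _ hwv, hε0, mul_zero, zero_smul]
      · intro q hq
        have h := hΓ0 q hq _ hwv
        rw [hΓ, hε0, mul_zero, zero_smul, sub_zero] at h
        exact h
    · intro q hq
      rw [mul_comm, f2 w hw q hq, hw0, zero_mul, zero_smul]
  let ψ : D 1 →ₗ[F] F := η.domRestrict (D 1)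
  have hψ : Function.Injective ψ := by
    rw [injective_iff_map_eq_zero]
    rintro ⟨w, hw⟩ h0
    exact Subtype.ext (w0 w hw h0)
  have := LinearMap.finrank_le_finrank_of_injective hψ
  rwa [finrank_self] at this

end JD
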