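import Pool.Agent.H9.JH.Rad

set_option autoImplicit false
set_option linter.unusedSectionVars false

/-!
# JN PowX: powers of one element, density

`xp x k = x (x (... x))` (`k` factors, `xp x 0 = 0`). `xp_mul`: `x^i x^j = x^(i+j)`. `dense_xp`, `dense_sq`: arguments with a
generic element.
-/

namespace JD

universe u v

/-- `xp x k = x ^ k` for `k ≥ 1` -/
def xp {J : Type u} [NonUnitalNonAssocCommRing J] (x : J) : ℕ → J
  | 0 => 0
  | 1 => x
  | (k + 2) => x * xp x (k + 1)

section basic

variable {J : Type u} [NonUnitalNonAssocCommRing J]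

@[simp] theorem xp_one (x : J) : xp x 1 = x := rfl

theorem xp_succ (x : J) {k : ℕ} (hk : 1 ≤ k) : xp x (k + 1) = x * xp x k := by
  obtain ⟨k, rfl⟩ : ∃ k', k = k' + 1 := ⟨k - 1, by omega⟩
  rfl

variable {F : Type u} [Field F] [Module F J] [IsScalarTower F J J] [SMulCommClass F J J]

theorem xp_mem (x : J) {k : ℕ} : 1 ≤ k → xp x k ∈ jpow F J k := by
  intro hk
  induction k, hk using Nat.le_induction with
  | base => rw [jpow_one]; exact Submodule.mem_top
  | succ k hk ih =>
    rw [xp_succ x hk, add_comm k 1]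
    exact mul_mem_jpow (by rw [jpow_one]; exact Submodule.mem_top) ih

theorem xp_map {J' : Type v} [NonUnitalNonAssocCommRing J'] [Module F J'] (g : J →ₗ[F] J')
    (hg : ∀ a b, g (a * b) = g a * g b) (x : J) (k : ℕ) : g (xp x k) = xp (g x) k := by
  rcases Nat.eq_zero_or_pos k with rfl | hk
  · exact map_zero g
  induction k, hk using Nat.le_induction with
  | base => rfl
  | succ k hk ih => rw [xp_succ x hk, xp_succ _ hk, hg, ih]

omit [Module F J] [IsScalarTower F J J] [SMulCommClass F J J] in
theorem xp_sq_mul (hJ : IsJordan J) (x : J) {k : ℕ} (hk : 1 ≤ k) :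
    (x * x) * xp x k = xp x (k + 2) := by
  induction k, hk using Nat.le_induction with
  | base => rw [xp_one, mul_comm]; rfl
  | succ k hk ih =>
    rw [xp_succ x hk, gJ1 hJ, ih, ← xp_succ x (by omega)]

variable (F) in
/-- power associativity -/
theorem xp_mul (h2 : (2 : F) ≠ 0) (hJ : IsJordan J) (x : J) {i : ℕ} (hi : 1 ≤ i) :
    ∀ {j : ℕ}, 1 ≤ j → xp x i * xp x j = xp x (i + j) := by
  induction i using Nat.strong_induction_on with
  | _ i ih =>
    intro j hj
    rcases Nat.lt_or_ge i 3 with h | h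
    · obtain rfl | rfl : i = 1 ∨ i = 2 := by omega
      · rw [add_comm, xp_succ x hj, xp_one]
      · rw [add_comm]
        exact xp_sq_mul hJ x hj
    · obtain ⟨i, rfl⟩ : ∃ i', i = i' + 2 := ⟨i - 2, by omega⟩
      have hi1 : 1 ≤ i := by omega
      have e := gJ4 F h2 hJ x (xp x i) x (xp x j)
      rw [← xp_succ x hi1, mul_comm (xp x (i + 1)) x, ← xp_succ x (by omega : 1 ≤ i + 1),
        ← xp_succ x hj, mul_comm (xp x i) x, ← xp_succ x hi1, ih i (by omega) hi1 hj,
        ih (i + 1) (by omega) (by omega) (by omega : 1 ≤ j + 1), ← xp_succ x (by omega : 1 ≤ i + j),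
        ← xp_succ x (by omega : 1 ≤ i + j + 1), ← xp_succ x (by omega : 1 ≤ j + 1),
        ih i (by omega) hi1 (by omega : 1 ≤ j + 1 + 1),
        xp_sq_mul hJ x (by omega : 1 ≤ i + j)] at e
      rw [show i + 1 + 1 = i + 2 from rfl, show i + 1 + (j + 1) = i + j + 2 by omega,
        show i + j + 1 + 1 = i + j + 2 from rfl, show i + (j + 1 + 1) = i + j + 2 by omega] at e
      rw [e, show i + 2 + j = i + j + 2 by omega]
      abel

end basic

section dens

variable {J : Type u} [NonUnitalNonAssocCommRing J] {F : Type u} [Field F] [Module F J]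
  [IsScalarTower F J J] [SMulCommClass F J J]

theorem xp_expand (x v : J) {k : ℕ} (hk : 1 ≤ k) : ∃ c : ℕ → J, c k = xp v k ∧
    ∀ t : F, xp (x + t • v) k = ∑ i ∈ Finset.range (k + 1), t ^ i • c i := by
  induction k, hk using Nat.le_induction with
  | base =>
    refine ⟨fun i => if i = 0 then x else v, by simp, fun t => ?_⟩
    rw [Finset.sum_range_succ, Finset.sum_range_one]
    simp
  | succ k hk ih =>
    obtain ⟨c, hc, h⟩ := ih
    refine ⟨fun i => (if i = k + 1 then 0 else x * c i) + (if i = 0 then 0 else v * c (i - 1)),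
      ?_, fun t => ?_⟩
    · simp [hc, xp_succ v hk]
    · rw [xp_succ _ hk, h t, add_mul, smul_mul_assoc]
      simp only [smul_add, Finset.sum_add_distrib]
      congr 1
      · rw [Finset.mul_sum, Finset.sum_range_succ _ (k + 1), if_pos rfl, smul_zero, add_zero]
        refine Finset.sum_congr rfl fun i hi => ?_
        rw [Finset.mem_range] at hi
        rw [if_neg (by omega), mul_smul_comm]
      · rw [Finset.mul_sum, Finset.smul_sum, Finset.sum_range_succ' _ (k + 1), if_pos rfl,
          smul_zero, add_zero]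
        refine Finset.sum_congr rfl fun i hi => ?_
        rw [if_neg (by omega), mul_smul_comm, smul_smul, Nat.add_sub_cancel, pow_succ']

/-- the polynomial `t ↦ φ ((x + t v)^k)` -/
theorem xp_poly (φ : J →ₗ[F] F) (x v : J) {k : ℕ} (hk : 1 ≤ k) (hv : φ (xp v k) ≠ 0) :
    ∃ P : Polynomial F, P ≠ 0 ∧ ∀ t : F, P.eval t = φ (xp (x + t • v) k) := by
  obtain ⟨c, hc, h⟩ := xp_expand (F := F) x v hk
  refine ⟨∑ i ∈ Finset.range (k + 1), Polynomial.monomial i (φ (c i)), ?_, fun t => ?_⟩
  · intro h0
    have := congrArg (fun R => Polynomial.coeff R k) h0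
    simp only [Polynomial.finsetSum_coeff, Polynomial.coeff_monomial, Polynomial.coeff_zero] at this
    rw [Finset.sum_ite_eq' (Finset.range (k + 1)) k (fun j => φ (c j))] at this
    simp [hc] at this
    exact hv this
  · rw [h t, map_sum, Polynomial.eval_finsetSum]
    refine Finset.sum_congr rfl fun i _ => ?_
    rw [Polynomial.eval_monomial, map_smul, smul_eq_mul, mul_comm]

/-- if `T` contains all `x` with `φ (x^k) ≠ 0` then it contains everything -/
theorem dense_xp [Infinite F] (φ : J →ₗ[F] F) (x0 : J) {k : ℕ} (hk : 1 ≤ k)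
    (h0 : φ (xp x0 k) ≠ 0) (T : Submodule F J) (h : ∀ x, φ (xp x k) ≠ 0 → x ∈ T) (x : J) :
    x ∈ T := by
  obtain ⟨P, hP, hPe⟩ := xp_poly φ x x0 hk h0
  refine mem_of_dense T x0 x (h x0 h0) P hP fun t ht => h _ ?_
  rwa [← hPe]

/-- if `T` contains all squares `x²` with `φ (x^k) ≠ 0` then it contains all squares -/
theorem dense_sq [Infinite F] (φ : J →ₗ[F] F) (x0 : J) {k : ℕ} (hk : 1 ≤ k)
    (h0 : φ (xp x0 k) ≠ 0) (T : Submodule F J) (h : ∀ x, φ (xp x k) ≠ 0 → x * x ∈ T) (x : J) :
    x * x ∈ T := by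
  obtain ⟨P, hP, hPe⟩ := xp_poly φ x x0 hk h0
  let c : ℕ → J := fun i => if i = 0 then x * x else if i = 1 then (2 : F) • (x * x0) else x0 * x0
  have key := pvan P hP 3 (fun i => T.mkQ (c i)) (by
    intro t ht
    rw [hPe] at ht
    have e := h _ ht
    have e3 : (x + t • x0) * (x + t • x0) = x * x + t • ((2 : F) • (x * x0)) + t ^ 2 • (x0 * x0) := by
      rw [add_mul, mul_add, mul_add, smul_mul_smul_comm, mul_smul_comm, smul_mul_assoc,
        mul_comm x0 x]
      module
    rw [e3, ← Submodule.Quotient.mk_eq_zero, ← Submodule.mkQ_apply, map_add, map_add, map_smul,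
      map_smul] at e
    rw [Finset.sum_range_succ, Finset.sum_range_succ, Finset.sum_range_one, pow_zero, one_smul,
      pow_one]
    exact e) 0 (by norm_num)
  have key' : T.mkQ (x * x) = 0 := key
  rwa [Submodule.mkQ_apply, Submodule.Quotient.mk_eq_zero] at key'

end dens

end JD
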