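import Pool.Agent.H9.JH.Defs

set_option autoImplicit false

/-!
# JN Curv: LEMMA CURV (helper33, JD-11 (1))

`curv`: `GJ F A c D`, `c ≥ 5`, `dim D 3 = dim D 4 = 1`: at most one letter.

Notation: `D 3 = F a`, `D 4 = F g`, `v q = X(v,q) a`, `v a = η(v) g`, `q q' = T(q,q') g`.
(a1) `T(v²,vv') = X(v',v²) η(v)`; (a2) `X(v,q) v²a = T(v²,q) v g`;
(b1) `R(a,b,c;d) = η(a)X(d,bc) + η(b)X(d,ca) + η(c)X(d,ab)` is symmetric in `a, b, c, d`.
-/

namespace JD

universe u

open Module

variable {F : Type u} [Field F] {A : Type u} [NonUnitalNonAssocCommRing A] [Module F A]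
  [IsScalarTower F A A] [SMulCommClass F A A] {c : ℕ} {D : ℕ → Submodule F A}

/-- the rules -/
private structure CV (F : Type u) [Field F] {A : Type u} [NonUnitalNonAssocCommRing A] [Module F A]
    [IsScalarTower F A A] [SMulCommClass F A A] (c : ℕ) (D : ℕ → Submodule F A) (a g : A)
    (κ κ4 : A →ₗ[F] F) : Prop where
  hG : GJ F A c D
  hc : 5 ≤ c
  ha : a ∈ D 3
  hg : g ∈ D 4
  a0 : κ a = 1
  g0 : κ4 g = 1
  h3 : ∀ h ∈ D 3, h = κ h • a
  h4 : ∀ h ∈ D 4, h = κ4 h • g

variable {a g : A} {κ κ4 : A →ₗ[F] F}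

private theorem CV.m11 (h : CV F c D a g κ κ4) {v w : A} (hv : v ∈ D 1) (hw : w ∈ D 1) :
    v * w ∈ D 2 := h.hG.mul_mem 1 1 le_rfl le_rfl v hv w hw

private theorem CV.X (h : CV F c D a g κ κ4) {v q : A} (hv : v ∈ D 1) (hq : q ∈ D 2) :
    v * q = κ (v * q) • a := h.h3 _ (h.hG.mul_mem 1 2 le_rfl (by norm_num) v hv q hq)

private theorem CV.E (h : CV F c D a g κ κ4) {v : A} (hv : v ∈ D 1) :
    v * a = κ4 (v * a) • g := h.h4 _ (h.hG.mul_mem 1 3 le_rfl (by norm_num) v hv a h.ha)

private theorem CV.T (h : CV F c D a g κ κ4) {p q : A} (hp : p ∈ D 2) (hq : q ∈ D 2) :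
    p * q = κ4 (p * q) • g := h.h4 _ (h.hG.mul_mem 2 2 (by norm_num) (by norm_num) p hp q hq)

/-- (a1) -/
private theorem CV.a1 (h : CV F c D a g κ κ4) {v w : A} (hv : v ∈ D 1) (hw : w ∈ D 1) :
    κ4 ((v * v) * (v * w)) = κ (w * (v * v)) * κ4 (v * a) := by
  have e := gJ1 h.hG.jordan v w
  rw [mul_comm (v * v) w, h.X hw (h.m11 hv hv), mul_smul_comm] at e
  rw [e, map_smul, smul_eq_mul]

/-- (a2) -/
private theorem CV.a2 (h : CV F c D a g κ κ4) {v q : A} (hv : v ∈ D 1) (hq : q ∈ D 2) :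
    κ (v * q) • ((v * v) * a) = κ4 ((v * v) * q) • (v * g) := by
  have e := gJ1 h.hG.jordan v q
  rw [h.X hv hq, h.T (h.m11 hv hv) hq, mul_smul_comm, mul_smul_comm] at e
  exact e

/-- the left hand side of (b1) -/
private theorem CV.b1 (h : CV F c D a g κ κ4) {x y z w : A} (hx : x ∈ D 1) (hy : y ∈ D 1)
    (hz : z ∈ D 1) (hw : w ∈ D 1) :
    κ4 (x * a) * κ (w * (y * z)) + κ4 (y * a) * κ (w * (z * x)) + κ4 (z * a) * κ (w * (x * y)) =
    κ4 ((x * y) * (z * w)) + κ4 ((y * z) * (x * w)) + κ4 ((z * x) * (y * w)) := by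
  have e := congrArg κ4 (gJ3 F h.hG.two h.hG.jordan x y z w)
  rw [mul_comm (x * y) w, mul_comm (y * z) w, mul_comm (z * x) w, h.X hw (h.m11 hx hy),
    h.X hw (h.m11 hy hz), h.X hw (h.m11 hz hx)] at e
  simp only [map_add, mul_smul_comm, map_smul, smul_eq_mul] at e
  rw [e]
  ring

/-- (b1), exchange of the last two letters -/
private theorem CV.b2 (h : CV F c D a g κ κ4) {x y z w : A} (hx : x ∈ D 1) (hy : y ∈ D 1)
    (hz : z ∈ D 1) (hw : w ∈ D 1) :
    κ4 (x * a) * κ (w * (y * z)) + κ4 (y * a) * κ (w * (z * x)) + κ4 (z * a) * κ (w * (x * y)) =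
    κ4 (x * a) * κ (z * (y * w)) + κ4 (y * a) * κ (z * (w * x)) + κ4 (w * a) * κ (z * (x * y)) := by
  rw [h.b1 hx hy hz hw, h.b1 hx hy hw hz, mul_comm w z, mul_comm (y * w) (x * z),
    mul_comm (w * x) (y * z), mul_comm z x, mul_comm x w, mul_comm y w]
  ring

/-- `D 3 ≠ 0` -/
private theorem CV.X_ne (h : CV F c D a g κ κ4)
    (hX : ∀ v ∈ D 1, ∀ q ∈ D 2, κ (v * q) = 0) : False := by
  have h3 : D 3 ≤ ⊥ := by
    refine h.hG.gen 3 le_rfl ⊥ ?_ ?_
    · intro v hv q hq
      have hq' : q ∈ D 2 := hq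
      rw [h.X hv hq', hX v hv q hq', zero_smul]
      exact Submodule.zero_mem _
    · intro q hq v hv
      have hv' : v ∈ D 1 := hv
      rw [mul_comm q v, h.X hv' hq, hX v hv' q hq, zero_smul]
      exact Submodule.zero_mem _
  have e := (Submodule.mem_bot F).mp (h3 h.ha)
  have := h.a0
  rw [e, map_zero] at this
  exact zero_ne_one this

private theorem CV.a_ne (h : CV F c D a g κ κ4) : a ≠ 0 := by
  intro e
  have := h.a0
  rw [e, map_zero] at this
  exact zero_ne_one this

private theorem CV.g_ne (h : CV F c D a g κ κ4) : g ≠ 0 := by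
  intro e
  have := h.g0
  rw [e, map_zero] at this
  exact zero_ne_one this

private theorem Curv_two {V : Type u} [AddCommGroup V] [Module F V] (h2 : (2 : F) ≠ 0) {x : V}
    (h : (2 : F) • x = 0) : x = 0 := (smul_eq_zero.1 h).resolve_left h2

/-- quadratic density: if `P ≠ 0` and `f0 + t f1 + t² f2 = 0` for all `t` with `P(t) ≠ 0` then
`f0 = 0` -/
private theorem Curv_quad [Infinite F] {W : Type u} [AddCommGroup W] [Module F W]
    (P : Polynomial F) (hP : P ≠ 0) (f0 f1 f2 : W)
    (h : ∀ t : F, P.eval t ≠ 0 → f0 + t • f1 + t ^ 2 • f2 = 0) : f0 = 0 := by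
  let f : ℕ → W := fun i => if i = 0 then f0 else if i = 1 then f1 else f2
  have := pvan P hP 3 f (by
    intro t ht
    rw [Finset.sum_range_succ, Finset.sum_range_succ, Finset.sum_range_one, pow_zero, one_smul,
      pow_one]
    exact h t ht) 0 (by norm_num)
  exact this

private theorem Curv_exp (x v : A) (t : F) :
    (x + t • v) * (x + t • v) = x * x + t • ((2 : F) • (x * v)) + t ^ 2 • (v * v) := by
  rw [add_mul, mul_add, mul_add, smul_mul_smul_comm, mul_smul_comm, smul_mul_assoc, mul_comm v x]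
  module

/-- `η ≠ 0` -/
private theorem CV.eta (h : CV F c D a g κ κ4) : ∃ x ∈ D 1, κ4 (x * a) = 1 := by
  by_contra hcon
  have hinf := h.hG.inf
  have h2 := h.hG.two
  have η0 : ∀ v ∈ D 1, κ4 (v * a) = 0 := by
    intro v hv
    by_contra hne
    apply hcon
    refine ⟨(κ4 (v * a))⁻¹ • v, (D 1).smul_mem _ hv, ?_⟩
    rw [smul_mul_assoc, map_smul, smul_eq_mul, inv_mul_cancel₀ hne]
  have hva : ∀ v ∈ D 1, v * a = 0 := by
    intro v hv
    rw [h.E hv, η0 v hv, zero_smul]
  -- some `v0² a ≠ 0`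
  obtain ⟨v0, hv0, hv0a⟩ : ∃ v ∈ D 1, (v * v) * a ≠ 0 := by
    by_contra hne
    push Not at hne
    apply h.a_ne
    have hc := h.hc
    refine h.hG.nd 3 (by norm_num) (by omega) a h.ha hva ?_
    intro q hq
    have hT : D 2 ≤ LinearMap.ker (LinearMap.mulRight F a) := by
      apply h.hG.sq
      intro v hv
      rw [LinearMap.mem_ker]
      exact hne v hv
    exact LinearMap.mem_ker.mp (hT hq)
  obtain ⟨φ, hφ⟩ : ∃ φ : A →ₗ[F] F, φ ((v0 * v0) * a) ≠ 0 := by
    by_contra hcon'
    push Not at hcon'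
    exact hv0a ((Module.forall_dual_apply_eq_zero_iff F _).mp hcon')
  have k1 : ∀ v ∈ D 1, φ ((v * v) * a) ≠ 0 → ∀ w ∈ D 1, κ (v * (v * w)) = 0 := by
    intro v hv hne w hw
    have e := h.a2 hv (h.m11 hv hw)
    rw [h.a1 hv hw, η0 v hv, mul_zero, zero_smul] at e
    refine (smul_eq_zero.1 e).resolve_right fun h0 => hne ?_
    rw [h0, map_zero]
  have k2 : ∀ v ∈ D 1, ∀ w ∈ D 1, κ (v * (v * w)) = 0 := by
    intro v hv w hw
    let P : Polynomial F := Polynomial.C (φ ((v * v) * a)) +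
      Polynomial.C (2 * φ ((v * v0) * a)) * Polynomial.X +
      Polynomial.C (φ ((v0 * v0) * a)) * Polynomial.X ^ 2
    have hP : P ≠ 0 := by
      intro h0
      have := congrArg (fun R => Polynomial.coeff R 2) h0
      simp [P] at this
      exact hφ (by tauto)
    refine Curv_quad P hP _ (κ (v * (v0 * w)) + κ (v0 * (v * w))) (κ (v0 * (v0 * w))) ?_
    intro t ht
    have e := k1 (v + t • v0) ((D 1).add_mem hv ((D 1).smul_mem t hv0)) (by
      intro h0
      apply ht
      rw [Curv_exp] at h0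
      simp only [add_mul, smul_mul_assoc, map_add, map_smul, smul_eq_mul] at h0
      simp only [P, Polynomial.eval_add, Polynomial.eval_mul, Polynomial.eval_C,
        Polynomial.eval_X, Polynomial.eval_pow]
      rw [← h0]
      ring) w hw
    simp only [add_mul, mul_add, smul_mul_assoc, mul_smul_comm, map_add, map_smul,
      smul_eq_mul] at e
    simp only [smul_eq_mul]
    rw [← e]
    ring
  apply h.X_ne
  intro v hv q hq
  have hT : D 2 ≤ LinearMap.ker (κ ∘ₗ LinearMap.mulLeft F v) := by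
    apply h.hG.gen2
    intro y hy z hz
    rw [LinearMap.mem_ker]
    show κ (v * (y * z)) = 0
    have an : ∀ x ∈ D 1, ∀ y ∈ D 1, ∀ z ∈ D 1, κ (x * (y * z)) = - κ (y * (x * z)) := by
      intro x hx y hy z hz
      have e1 := k2 _ ((D 1).add_mem hx hy) z hz
      have e2 := k2 x hx z hz
      have e3 := k2 y hy z hz
      simp only [add_mul, mul_add, map_add] at e1
      rw [e2, e3] at e1
      linear_combination e1
    have e1 := an v hv y hy z hz
    have e2 := an y hy z hz v hv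
    have e3 := an z hz v hv y hy
    rw [mul_comm v z] at e1
    rw [mul_comm y v] at e2
    rw [mul_comm z y] at e3
    have : (2 : F) • κ (v * (y * z)) = 0 := by
      rw [smul_eq_mul]
      linear_combination e1 - e2 + e3
    exact Curv_two h2 this
  exact LinearMap.mem_ker.mp (hT hq)

/-- all three coefficients -/
private theorem Curv_quad3 [Infinite F] {W : Type u} [AddCommGroup W] [Module F W]
    (P : Polynomial F) (hP : P ≠ 0) (f0 f1 f2 : W)
    (h : ∀ t : F, P.eval t ≠ 0 → f0 + t • f1 + t ^ 2 • f2 = 0) : f0 = 0 ∧ f1 = 0 ∧ f2 = 0 := by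
  let f : ℕ → W := fun i => if i = 0 then f0 else if i = 1 then f1 else f2
  have key := pvan P hP 3 f (by
    intro t ht
    rw [Finset.sum_range_succ, Finset.sum_range_succ, Finset.sum_range_one, pow_zero, one_smul,
      pow_one]
    exact h t ht)
  exact ⟨key 0 (by norm_num), key 1 (by norm_num), key 2 (by norm_num)⟩

/-- `x` with `η(x) = 1`, `w, w' ∈ ker η` -/
private theorem CV.f3 (h : CV F c D a g κ κ4) {x w : A} (hx : x ∈ D 1) (hx1 : κ4 (x * a) = 1)
    (hw : w ∈ D 1) (hw0 : κ4 (w * a) = 0) : 2 * κ (x * (x * w)) = 3 * κ (w * (x * x)) := by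
  have e := h.b2 hx hx hw hx
  rw [hx1, hw0, mul_comm w x] at e
  linear_combination e

private theorem CV.f2 (h : CV F c D a g κ κ4) {x w w' : A} (hx : x ∈ D 1) (hx1 : κ4 (x * a) = 1)
    (hw : w ∈ D 1) (hw0 : κ4 (w * a) = 0) (hw' : w' ∈ D 1) (hw0' : κ4 (w' * a) = 0) :
    κ (x * (w * w')) = 2 * κ (w' * (x * w)) := by
  have e := h.b2 hx hw hw' hx
  rw [hx1, hw0, hw0', mul_comm w x] at e
  linear_combination e

/-- `3 X(w,v²) v²a = 2 X(w,v²) v g` for `η(v) = 1`, `η(w) = 0` -/
private theorem CV.g1 (h : CV F c D a g κ κ4) {v w : A} (hv : v ∈ D 1) (hv1 : κ4 (v * a) = 1)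
    (hw : w ∈ D 1) (hw0 : κ4 (w * a) = 0) (hne : κ (w * (v * v)) ≠ 0) :
    (3 : F) • ((v * v) * a) - (2 : F) • (v * g) = 0 := by
  have e := h.a2 hv (h.m11 hv hw)
  rw [h.a1 hv hw, hv1, mul_one] at e
  have e3 := h.f3 hv hv1 hw hw0
  have e4 : κ (w * (v * v)) • ((3 : F) • ((v * v) * a) - (2 : F) • (v * g)) = 0 := by
    rw [smul_sub, smul_smul, smul_smul, mul_comm _ (3 : F), mul_comm _ (2 : F), ← e3, mul_smul,
      mul_smul, e, sub_self]
  exact (smul_eq_zero.1 e4).resolve_left hne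

private theorem CV.g2 (h : CV F c D a g κ κ4) {v : A} (hv : v ∈ D 1) (hv1 : κ4 (v * a) = 1)
    (hne : κ (v * (v * v)) ≠ 0) : (v * v) * a - v * g = 0 := by
  have e := h.a2 hv (h.m11 hv hv)
  rw [h.a1 hv hv, hv1, mul_one] at e
  have e4 : κ (v * (v * v)) • ((v * v) * a - v * g) = 0 := by
    rw [smul_sub, e, sub_self]
  exact (smul_eq_zero.1 e4).resolve_left hne

/-- a linear map vanishing on `q = v²`, `η(v) = 1`, vanishes on `D 2` -/
private theorem CV.sqS (h : CV F c D a g κ κ4) {W : Type u} [AddCommGroup W] [Module F W]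
    (f : A →ₗ[F] W) (hf : ∀ v ∈ D 1, κ4 (v * a) = 1 → f (v * v) = 0) : ∀ q ∈ D 2, f q = 0 := by
  have hinf := h.hG.inf
  obtain ⟨x, hx, hx1⟩ := h.eta
  have key : ∀ v ∈ D 1, f (v * v) = 0 := by
    intro v hv
    let P : Polynomial F := Polynomial.C (κ4 (v * a)) + Polynomial.X
    have hP : P ≠ 0 := by
      intro h0
      have := congrArg (fun R => Polynomial.coeff R 1) h0
      simp [P, Polynomial.coeff_X] at this
    refine Curv_quad P hP _ (f ((2 : F) • (v * x))) (f (x * x)) ?_
    intro t ht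
    have hη : κ4 ((v + t • x) * a) ≠ 0 := by
      rw [add_mul, smul_mul_assoc, map_add, map_smul, hx1, smul_eq_mul, mul_one]
      rwa [Polynomial.eval_add, Polynomial.eval_C, Polynomial.eval_X] at ht
    have hm : v + t • x ∈ D 1 := (D 1).add_mem hv ((D 1).smul_mem t hx)
    have e := hf ((κ4 ((v + t • x) * a))⁻¹ • (v + t • x)) ((D 1).smul_mem _ hm) (by
      rw [smul_mul_assoc, map_smul, smul_eq_mul, inv_mul_cancel₀ hη])
    rw [smul_mul_smul_comm, map_smul] at e
    have e2 := (smul_eq_zero.1 e).resolve_left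
      (mul_ne_zero (inv_ne_zero hη) (inv_ne_zero hη))
    rw [Curv_exp, map_add, map_add, map_smul f t, map_smul f (t ^ 2)] at e2
    exact e2
  intro q hq
  have hT : D 2 ≤ LinearMap.ker f := by
    apply h.hG.sq
    intro v hv
    rw [LinearMap.mem_ker]
    exact key v hv
  exact LinearMap.mem_ker.mp (hT hq)

/-- the same for linear conditions on `D 1` -/
private theorem CV.linS (h : CV F c D a g κ κ4) {W : Type u} [AddCommGroup W] [Module F W]
    (f : A →ₗ[F] W) (hf : ∀ v ∈ D 1, κ4 (v * a) = 1 → f v = 0) : ∀ v ∈ D 1, f v = 0 := by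
  obtain ⟨x, hx, hx1⟩ := h.eta
  intro v hv
  have e1 := hf x hx hx1
  have e2 := hf (x + (v - κ4 (v * a) • x)) ((D 1).add_mem hx ((D 1).sub_mem hv
    ((D 1).smul_mem _ hx))) (by
      rw [add_mul, sub_mul, smul_mul_assoc, map_add, map_sub, map_smul, hx1, smul_eq_mul, mul_one,
        sub_self, add_zero])
  rw [map_add, map_sub, map_smul, e1, smul_zero, sub_zero, zero_add] at e2
  exact e2

/-- `v²a = 0 = v g` for all `v` with `η(v) = 1` is impossible -/
private theorem CV.contra (h : CV F c D a g κ κ4)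
    (h1 : ∀ v ∈ D 1, κ4 (v * a) = 1 → (v * v) * a = 0)
    (h2 : ∀ v ∈ D 1, κ4 (v * a) = 1 → v * g = 0) : False := by
  have hc := h.hc
  apply h.g_ne
  refine h.hG.nd 4 (by norm_num) (by omega) g h.hg ?_ ?_
  · exact h.linS (LinearMap.mulRight F g) h2
  · refine h.sqS (LinearMap.mulRight F g) fun v hv hv1 => ?_
    have e := gJ1 h.hG.jordan v a
    rw [h.E hv, hv1, one_smul, h1 v hv hv1, mul_zero] at e
    exact e

/-- `X(w,q) = 0` for `η(w) = 0` -/
private theorem CV.Xw (h : CV F c D a g κ κ4) {w : A} (hw : w ∈ D 1) (hw0 : κ4 (w * a) = 0) :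
    ∀ q ∈ D 2, κ (w * q) = 0 := by
  have hinf := h.hG.inf
  have h2 := h.hG.two
  refine h.sqS (κ ∘ₗ LinearMap.mulLeft F w) fun v0 hv0 hv01 => ?_
  show κ (w * (v0 * v0)) = 0
  by_contra hne
  -- `3 v²a = 2 v g`
  have A1 : ∀ v ∈ D 1, κ4 (v * a) = 1 → (3 : F) • ((v * v) * a) - (2 : F) • (v * g) = 0 := by
    intro v hv hv1
    let d := v - v0
    have hd : d ∈ D 1 := (D 1).sub_mem hv hv0
    have hd0 : κ4 (d * a) = 0 := by
      rw [sub_mul, map_sub, hv1, hv01, sub_self]
    let P : Polynomial F := Polynomial.C (κ (w * (v0 * v0))) +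
      Polynomial.C (2 * κ (w * (v0 * d))) * Polynomial.X +
      Polynomial.C (κ (w * (d * d))) * Polynomial.X ^ 2
    have hP : P ≠ 0 := by
      intro h0
      have := congrArg (fun R => Polynomial.coeff R 0) h0
      simp [P] at this
      exact hne this
    obtain ⟨k0, k1, k2⟩ := Curv_quad3 P hP
      ((3 : F) • ((v0 * v0) * a) - (2 : F) • (v0 * g))
      ((6 : F) • ((v0 * d) * a) - (2 : F) • (d * g)) ((3 : F) • ((d * d) * a)) (by
        intro t ht
        have e := h.g1 (v := v0 + t • d) ((D 1).add_mem hv0 ((D 1).smul_mem t hd)) (by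
          rw [add_mul, smul_mul_assoc, map_add, map_smul, hv01, hd0, smul_zero, add_zero]) hw hw0
          (by
            intro h0
            apply ht
            rw [Curv_exp] at h0
            simp only [mul_add, mul_smul_comm, map_add, map_smul, smul_eq_mul] at h0
            simp only [P, Polynomial.eval_add, Polynomial.eval_mul, Polynomial.eval_C,
              Polynomial.eval_X, Polynomial.eval_pow]
            rw [← h0]
            ring)
        rw [Curv_exp, add_mul, add_mul, add_mul] at e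
        simp only [smul_mul_assoc] at e
        rw [← e]
        module)
    have e : v = v0 + (1 : F) • d := by
      rw [one_smul]
      simp [d]
    rw [e, Curv_exp, add_mul, add_mul, add_mul]
    simp only [smul_mul_assoc]
    have e6 : (6 : F) • ((v0 * d) * a) = (2 : F) • (d * g) := sub_eq_zero.mp k1
    rw [← sub_eq_zero] at e6
    linear_combination (norm := module) k0 + e6 + k2
  -- some `X(v1, v1²) ≠ 0`
  obtain ⟨v1, hv1, hv11, hv1ne⟩ : ∃ v ∈ D 1, κ4 (v * a) = 1 ∧ κ (v * (v * v)) ≠ 0 := by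
    by_contra hcon
    push Not at hcon
    have e1 := fun t : F => hcon (v0 + t • w) ((D 1).add_mem hv0 ((D 1).smul_mem t hw)) (by
      rw [add_mul, smul_mul_assoc, map_add, map_smul, hv01, hw0, smul_zero, add_zero])
    let f : ℕ → F := fun i => if i = 0 then κ (v0 * (v0 * v0)) else if i = 1 then
      κ (w * (v0 * v0)) + 2 * κ (v0 * (v0 * w)) else if i = 2 then
      2 * κ (w * (v0 * w)) + κ (v0 * (w * w)) else κ (w * (w * w))
    have key := pvan' (∅ : Finset F) 4 f (by
      intro t _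
      have e := e1 t
      rw [Curv_exp] at e
      simp only [add_mul, mul_add, smul_mul_assoc, mul_smul_comm, map_add, map_smul,
        smul_eq_mul] at e
      simp only [Finset.sum_range_succ, Finset.sum_range_zero, f, smul_eq_mul]
      simp
      rw [← e]
      ring) 1 (by norm_num)
    have key' : κ (w * (v0 * v0)) + 2 * κ (v0 * (v0 * w)) = 0 := key
    rw [h.f3 hv0 hv01 hw hw0] at key'
    apply hne
    have e4 : (4 : F) * κ (w * (v0 * v0)) = 0 := by linear_combination key'
    refine (mul_eq_zero.mp e4).resolve_left ?_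
    rw [show (4 : F) = 2 * 2 by norm_num]
    exact mul_ne_zero h2 h2
  have A2 : ∀ v ∈ D 1, κ4 (v * a) = 1 → (v * v) * a - v * g = 0 := by
    intro v hv hv1'
    let d := v - v1
    have hd : d ∈ D 1 := (D 1).sub_mem hv hv1
    have hd0 : κ4 (d * a) = 0 := by
      rw [sub_mul, map_sub, hv1', hv11, sub_self]
    let P : Polynomial F := Polynomial.C (κ (v1 * (v1 * v1))) +
      Polynomial.C (κ (d * (v1 * v1)) + 2 * κ (v1 * (v1 * d))) * Polynomial.X +
      Polynomial.C (2 * κ (d * (v1 * d)) + κ (v1 * (d * d))) * Polynomial.X ^ 2 +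
      Polynomial.C (κ (d * (d * d))) * Polynomial.X ^ 3
    have hP : P ≠ 0 := by
      intro h0
      have := congrArg (fun R => Polynomial.coeff R 0) h0
      simp [P] at this
      exact hv1ne this
    obtain ⟨k0, k1, k2⟩ := Curv_quad3 P hP
      ((v1 * v1) * a - v1 * g) ((2 : F) • ((v1 * d) * a) - d * g) ((d * d) * a) (by
        intro t ht
        have e := h.g2 (v := v1 + t • d) ((D 1).add_mem hv1 ((D 1).smul_mem t hd)) (by
          rw [add_mul, smul_mul_assoc, map_add, map_smul, hv11, hd0, smul_zero, add_zero])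
          (by
            intro h0
            apply ht
            rw [Curv_exp] at h0
            simp only [add_mul, smul_mul_assoc, mul_add, mul_smul_comm, map_add, map_smul,
              smul_eq_mul] at h0
            simp only [P, Polynomial.eval_add, Polynomial.eval_mul, Polynomial.eval_C,
              Polynomial.eval_X, Polynomial.eval_pow]
            rw [← h0]
            ring)
        rw [Curv_exp, add_mul, add_mul, add_mul] at e
        simp only [smul_mul_assoc] at e
        rw [← e]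
        module)
    have e : v = v1 + (1 : F) • d := by
      rw [one_smul]
      simp [d]
    rw [e, Curv_exp, add_mul, add_mul, add_mul]
    simp only [smul_mul_assoc]
    linear_combination (norm := module) k0 + k1 + k2
  refine h.contra (fun v hv hv1' => ?_) (fun v hv hv1' => ?_)
  · have e1 := A1 v hv hv1'
    have e2 := A2 v hv hv1'
    linear_combination (norm := module) e1 - (2 : F) • e2
  · have e1 := A1 v hv hv1'
    have e2 := A2 v hv hv1'
    linear_combination (norm := module) e1 - (3 : F) • e2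

/-- the end -/
private theorem CV.fin (h : CV F c D a g κ κ4) : finrank F (D 1) ≤ 1 := by
  have hinf := h.hG.inf
  have hfin := h.hG.fin
  have h2 := h.hG.two
  have hc := h.hc
  obtain ⟨x, hx, hx1⟩ := h.eta
  have dec : ∀ v ∈ D 1, v - κ4 (v * a) • x ∈ D 1 ∧ κ4 ((v - κ4 (v * a) • x) * a) = 0 := by
    intro v hv
    refine ⟨(D 1).sub_mem hv ((D 1).smul_mem _ hx), ?_⟩
    rw [sub_mul, smul_mul_assoc, map_sub, map_smul, hx1, smul_eq_mul, mul_one, sub_self]
  -- `X(v,q) = η(v) X(x,q)`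
  have X1 : ∀ v ∈ D 1, ∀ q ∈ D 2, κ (v * q) = κ4 (v * a) * κ (x * q) := by
    intro v hv q hq
    obtain ⟨hw, hw0⟩ := dec v hv
    have e := h.Xw hw hw0 q hq
    rw [sub_mul, smul_mul_assoc, map_sub, map_smul, smul_eq_mul] at e
    exact sub_eq_zero.mp e
  -- `X(x, w v) = 0`
  have X2 : ∀ w ∈ D 1, κ4 (w * a) = 0 → ∀ v ∈ D 1, κ (x * (w * v)) = 0 := by
    intro w hw hw0 v hv
    obtain ⟨hw', hw0'⟩ := dec v hv
    have e1 : κ (x * (x * w)) = 0 := by
      have e := h.f3 hx hx1 hw hw0
      rw [h.Xw hw hw0 _ (h.m11 hx hx), mul_zero] at e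
      exact (mul_eq_zero.mp e).resolve_left h2
    have e2 : κ (x * (w * (v - κ4 (v * a) • x))) = 0 := by
      rw [h.f2 hx hx1 hw hw0 hw' hw0', h.Xw hw' hw0' _ (h.m11 hx hw), mul_zero]
    rw [mul_sub, mul_smul_comm, mul_sub, mul_smul_comm, map_sub, map_smul, mul_comm w x, e1,
      smul_zero, sub_zero] at e2
    exact e2
  have X3 : ∀ v ∈ D 1, κ4 (v * a) = 1 → κ (v * (v * v)) = κ (x * (x * x)) := by
    intro v hv hv1
    obtain ⟨hw, hw0⟩ := dec v hv
    rw [hv1, one_smul] at hw hw0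
    have e1 := X1 v hv _ (h.m11 hv hv)
    have e2 := X2 _ hw hw0 v hv
    have e3 := X2 _ hw hw0 x hx
    rw [hv1, one_mul] at e1
    rw [e1]
    rw [sub_mul, mul_sub, map_sub] at e2 e3
    have e4 : κ (x * (v * v)) = κ (x * (x * v)) := sub_eq_zero.mp e2
    have e5 : κ (x * (v * x)) = κ (x * (x * x)) := sub_eq_zero.mp e3
    rw [e4, mul_comm x v, e5]
  have hk : κ (x * (x * x)) ≠ 0 := by
    intro h0
    apply h.X_ne
    intro v hv q hq
    have hq0 : κ (x * q) = 0 := by
      refine h.sqS (κ ∘ₗ LinearMap.mulLeft F x) (fun y hy hy1 => ?_) q hq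
      show κ (x * (y * y)) = 0
      have e1 := X1 y hy _ (h.m11 hy hy)
      rw [hy1, one_mul] at e1
      rw [← e1, X3 y hy hy1, h0]
    rw [X1 v hv q hq, hq0, mul_zero]
  have QE : ∀ v ∈ D 1, κ4 (v * a) = 1 → (v * v) * a = v * g := by
    intro v hv hv1
    exact sub_eq_zero.mp (h.g2 hv hv1 (by rw [X3 v hv hv1]; exact hk))
  -- some `v0 g ≠ 0`
  obtain ⟨v0, hv0, hv01, hv0g⟩ : ∃ v ∈ D 1, κ4 (v * a) = 1 ∧ v * g ≠ 0 := by
    by_contra hcon
    push Not at hcon
    exact h.contra (fun v hv hv1 => by rw [QE v hv hv1, hcon v hv hv1]) hcon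
  obtain ⟨φ, hφ⟩ : ∃ φ : A →ₗ[F] F, φ (v0 * g) ≠ 0 := by
    by_contra hcon'
    push Not at hcon'
    exact hv0g ((Module.forall_dual_apply_eq_zero_iff F _).mp hcon')
  -- `T(v²,q) = X(x,q)`
  have T1 : ∀ q ∈ D 2, ∀ v ∈ D 1, κ4 (v * a) = 1 → κ4 ((v * v) * q) = κ (x * q) := by
    intro q hq
    have k1 : ∀ v ∈ D 1, κ4 (v * a) = 1 → v * g ≠ 0 → κ4 ((v * v) * q) - κ (x * q) = 0 := by
      intro v hv hv1 hne
      have e := h.a2 hv hq
      rw [X1 v hv q hq, hv1, one_mul, QE v hv hv1] at e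
      have e2 : (κ4 ((v * v) * q) - κ (x * q)) • (v * g) = 0 := by
        rw [sub_smul, e, sub_self]
      exact (smul_eq_zero.1 e2).resolve_right hne
    intro v hv hv1
    let d := v - v0
    have hd : d ∈ D 1 := (D 1).sub_mem hv hv0
    have hd0 : κ4 (d * a) = 0 := by
      rw [sub_mul, map_sub, hv1, hv01, sub_self]
    let P : Polynomial F := Polynomial.C (φ (v0 * g)) + Polynomial.C (φ (d * g)) * Polynomial.X
    have hP : P ≠ 0 := by
      intro h0
      have := congrArg (fun R => Polynomial.coeff R 0) h0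
      simp [P] at this
      exact hφ this
    obtain ⟨k0, k11, k2⟩ := Curv_quad3 P hP
      (κ4 ((v0 * v0) * q) - κ (x * q)) (2 * κ4 ((v0 * d) * q)) (κ4 ((d * d) * q)) (by
        intro t ht
        have e := k1 (v0 + t • d) ((D 1).add_mem hv0 ((D 1).smul_mem t hd)) (by
          rw [add_mul, smul_mul_assoc, map_add, map_smul, hv01, hd0, smul_zero, add_zero])
          (by
            intro h0
            apply ht
            have h0' := congrArg φ h0
            rw [add_mul, smul_mul_assoc, map_add, map_smul, map_zero, smul_eq_mul] at h0'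
            simp only [P, Polynomial.eval_add, Polynomial.eval_mul, Polynomial.eval_C,
              Polynomial.eval_X]
            rw [← h0']
            ring)
        rw [Curv_exp, add_mul, add_mul] at e
        simp only [smul_mul_assoc, map_add, map_smul, smul_eq_mul] at e
        simp only [smul_eq_mul]
        rw [← e]
        ring)
    have e : v = v0 + (1 : F) • d := by
      rw [one_smul]
      simp [d]
    rw [e, Curv_exp, add_mul, add_mul]
    simp only [smul_mul_assoc, map_add, map_smul, smul_eq_mul]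
    linear_combination k0 + k11 + k2
  -- `X(x,q) = 0` implies `q = 0`
  have z : ∀ q ∈ D 2, κ (x * q) = 0 → q = 0 := by
    intro q hq hq0
    refine h.hG.nd 2 (by norm_num) (by omega) q hq ?_ ?_
    · intro v hv
      rw [h.X hv hq, X1 v hv q hq, hq0, mul_zero, zero_smul]
    · intro p hp
      have e : κ4 (p * q) = 0 := by
        refine h.sqS (κ4 ∘ₗ LinearMap.mulRight F q) (fun v hv hv1 => ?_) p hp
        show κ4 ((v * v) * q) = 0
        rw [T1 q hq v hv hv1, hq0]
      rw [h.T hp hq, e, zero_smul]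
  -- the kernel of `η` is zero
  have w0 : ∀ w ∈ D 1, κ4 (w * a) = 0 → w = 0 := by
    intro w hw hw0
    refine h.hG.nd 1 le_rfl (by omega) w hw ?_ ?_
    · intro v hv
      rw [mul_comm]
      exact z _ (h.m11 hw hv) (X2 w hw hw0 v hv)
    · intro q hq
      rw [mul_comm, h.X hw hq, h.Xw hw hw0 q hq, zero_smul]
  let ψ : D 1 →ₗ[F] F := (κ4 ∘ₗ LinearMap.mulRight F a).domRestrict (D 1)
  have hψ : Function.Injective ψ := by
    rw [injective_iff_map_eq_zero]
    rintro ⟨w, hw⟩ h0
    exact Subtype.ext (w0 w hw h0)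
  have := LinearMap.finrank_le_finrank_of_injective hψ
  rwa [finrank_self] at this

/-- LEMMA CURV -/
theorem curv (hG : GJ F A c D) (hc : 5 ≤ c) (h3 : finrank F (D 3) = 1) (h4 : finrank F (D 4) = 1) :
    finrank F (D 1) ≤ 1 := by
  have hfin := hG.fin
  obtain ⟨a, ha, -, κ, ha0, h3'⟩ := exists_coord h3
  obtain ⟨g, hg, -, κ4, hg0, h4'⟩ := exists_coord h4
  exact CV.fin ⟨hG, hc, ha, hg, ha0, hg0, h3', h4'⟩

end JD
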