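import Pool.Agent.H9.JN.C89
import Pool.Agent.H9.JN.Curv

set_option autoImplicit false
set_option linter.unusedSectionVars false

/-!
# JN One: `n' = 1` for classes 6, 7, 8 with small layers

`d2one`: `dim D 2 = 1`, `c ≥ 6`: `[L_V, L_(D 2)] = 0`, `dim D 1 ≤ dim D 3`, `dim D 1 ≤ dim D 5`.
`gj6_curv`, `gj7_curv`, `gj8_curv`; `exists_GJ_curv`: the algebra `J`.
-/

namespace JD

universe u

open Module

section GJ

variable {F : Type u} [Field F] {A : Type u} [NonUnitalNonAssocCommRing A] [Module F A]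
  [IsScalarTower F A A] [SMulCommClass F A A] {c : ℕ} {D : ℕ → Submodule F A}

theorem d2one (hG : GJ F A c D) (hc : 6 ≤ c) (h : finrank F (D 2) = 1) :
    (∀ v ∈ D 1, ∀ q ∈ D 2, ∀ b : A, v * (q * b) = q * (v * b)) ∧
    finrank F (D 1) ≤ finrank F (D 3) ∧ finrank F (D 1) ≤ finrank F (D 5) := by
  have hfin := hG.fin
  obtain ⟨s, hs, hs0, φ, hφs, hφ⟩ := exists_coord h
  have hD2 : D 2 ≠ ⊥ := by
    intro h0
    rw [h0, Submodule.mem_bot] at hs
    exact hs0 hs
  obtain ⟨v0, hv0, hv0s⟩ := hG.exists_sq_ne hD2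
  have m11 : ∀ {v w : A}, v ∈ D 1 → w ∈ D 1 → v * w ∈ D 2 := fun hv hw =>
    hG.mul_mem 1 1 le_rfl le_rfl _ hv _ hw
  have hφv0 : φ (v0 * v0) ≠ 0 := by
    intro h0
    apply hv0s
    rw [hφ _ (m11 hv0 hv0), h0, zero_smul]
  let T : Submodule F A :=
    { carrier := {v | ∀ b : A, v * (s * b) = s * (v * b)}
      add_mem' := by
        intro v w hv hw b
        rw [add_mul, add_mul, mul_add, hv b, hw b]
      zero_mem' := by
        intro b
        rw [zero_mul, zero_mul, mul_zero]
      smul_mem' := by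
        intro r v hv b
        rw [smul_mul_assoc, smul_mul_assoc, mul_smul_comm, hv b] }
  have hT : D 1 ≤ T := by
    refine hG.dense φ v0 hv0 hφv0 T ?_
    intro v hv hv1 b
    have h1 := gJ1 hG.jordan v b
    rw [hφ _ (m11 hv hv), smul_mul_assoc, smul_mul_assoc, mul_smul_comm] at h1
    exact (smul_right_injective A hv1 h1).symm
  have hvs : ∀ v ∈ D 1, ∀ b : A, v * (s * b) = s * (v * b) := fun v hv => hT hv
  have hcomm : ∀ v ∈ D 1, ∀ q ∈ D 2, ∀ b : A, v * (q * b) = q * (v * b) := by
    intro v hv q hq b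
    rw [hφ q hq, smul_mul_assoc, smul_mul_assoc, mul_smul_comm, hvs v hv b]
  have mm : ∀ {v w : A}, v ∈ D 1 → w ∈ D 1 → v * w = φ (v * w) • s := fun hv hw =>
    hφ _ (m11 hv hw)
  -- the rules
  have r3 : ∀ {v w : A}, v ∈ D 1 → w ∈ D 1 → v * (s * w) = φ (v * w) • (s * s) := by
    intro v w hv hw
    rw [hvs v hv w, mm hv hw, mul_smul_comm]
    simp [hφs]
  have r5 : ∀ {v w : A}, v ∈ D 1 → w ∈ D 1 →
      v * (s * (s * w)) = φ (v * w) • (s * (s * s)) := by
    intro v w hv hw
    rw [hvs v hv, r3 hv hw, mul_smul_comm]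
  -- the layers
  have m3 : ∀ T : Submodule F A, (∀ v ∈ D 1, s * v ∈ T) → D 3 ≤ T := by
    intro T hT
    refine hG.gen 3 le_rfl T ?_ ?_
    · intro v hv q hq
      have hq' : q ∈ D 2 := hq
      rw [hφ q hq', mul_smul_comm, mul_comm v s]
      exact T.smul_mem _ (hT v hv)
    · intro q hq v hv
      have hv' : v ∈ D 1 := hv
      rw [hφ q hq, smul_mul_assoc]
      exact T.smul_mem _ (hT v hv')
  have m4 : D 4 ≤ Submodule.span F {s * s} := by
    refine hG.gen 4 (by norm_num) _ ?_ ?_
    · intro v hv h hh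
      have hT : D 3 ≤ (Submodule.span F {s * s}).comap (LinearMap.mulLeft F v) := by
        apply m3
        intro w hw
        rw [Submodule.mem_comap, LinearMap.mulLeft_apply, r3 hv hw]
        exact Submodule.smul_mem _ _ (Submodule.mem_span_singleton_self _)
      exact hT hh
    · intro q hq h hh
      have hh' : h ∈ D 2 := hh
      rw [hφ q hq, hφ h hh', smul_mul_smul_comm]
      exact Submodule.smul_mem _ _ (Submodule.mem_span_singleton_self _)
  have m4' : ∀ g ∈ D 4, ∃ r : F, g = r • (s * s) := by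
    intro g hg
    obtain ⟨r, hr⟩ := Submodule.mem_span_singleton.mp (m4 hg)
    exact ⟨r, hr.symm⟩
  have m5 : ∀ T : Submodule F A, (∀ v ∈ D 1, s * (s * v) ∈ T) → D 5 ≤ T := by
    intro T hT
    refine hG.gen 5 (by norm_num) T ?_ ?_
    · intro v hv g hg
      obtain ⟨r, rfl⟩ := m4' g hg
      rw [mul_smul_comm, hvs v hv, mul_comm v s]
      exact T.smul_mem _ (hT v hv)
    · intro q hq h hh
      have hTT : D 3 ≤ T.comap (LinearMap.mulLeft F q) := by
        apply m3
        intro w hw
        rw [Submodule.mem_comap, LinearMap.mulLeft_apply, hφ q hq, smul_mul_assoc]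
        exact T.smul_mem _ (hT w hw)
      exact hTT hh
  -- `s³ ≠ 0`
  have hs3 : s * (s * s) ≠ 0 := by
    intro h0
    have m6 : D 6 ≤ ⊥ := by
      refine hG.gen 6 (by norm_num) ⊥ ?_ ?_
      · intro v hv h hh
        have hT : D 5 ≤ (⊥ : Submodule F A).comap (LinearMap.mulLeft F v) := by
          apply m5
          intro w hw
          rw [Submodule.mem_comap, LinearMap.mulLeft_apply, r5 hv hw, h0, smul_zero]
          exact Submodule.zero_mem _
        exact hT hh
      · intro q hq g hg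
        obtain ⟨r, rfl⟩ := m4' g hg
        rw [hφ q hq, smul_mul_smul_comm, h0, smul_zero]
        exact Submodule.zero_mem _
    have m7 : D 7 ≤ ⊥ := by
      refine hG.gen 7 (by norm_num) ⊥ ?_ ?_
      · intro v hv h hh
        have hh' : h = 0 := (Submodule.mem_bot F).mp (m6 hh)
        rw [hh', mul_zero]
        exact Submodule.zero_mem _
      · intro q hq h hh
        have hT : D 5 ≤ (⊥ : Submodule F A).comap (LinearMap.mulLeft F q) := by
          apply m5
          intro w hw
          rw [Submodule.mem_comap, LinearMap.mulLeft_apply, hφ q hq, smul_mul_assoc, mul_comm s w,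
            ← hvs w hw, ← hvs w hw, h0, mul_zero, smul_zero]
          exact Submodule.zero_mem _
        exact hT hh
    have mn : ∀ n, 6 ≤ n → D n ≤ ⊥ ∧ D (n + 1) ≤ ⊥ := by
      intro n hn
      induction n, hn using Nat.le_induction with
      | base => exact ⟨m6, m7⟩
      | succ n hn ih =>
        refine ⟨ih.2, ?_⟩
        refine hG.gen (n + 1 + 1) (by omega) ⊥ ?_ ?_
        · intro v _ h hh
          have hh' : h = 0 := (Submodule.mem_bot F).mp (ih.2 hh)
          rw [hh', mul_zero]
          exact Submodule.zero_mem _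
        · intro v _ h hh
          have hh' : h = 0 := (Submodule.mem_bot F).mp (ih.1 hh)
          rw [hh', mul_zero]
          exact Submodule.zero_mem _
    have ht := hG.top
    rw [le_bot_iff.mp (mn c hc).1, finrank_bot] at ht
    exact zero_ne_one ht
  have hs2 : s * s ≠ 0 := by
    intro h0
    apply hs3
    rw [h0, mul_zero]
  have i1 : ∀ w ∈ D 1, s * w = 0 → w = 0 := by
    intro w hw h0
    refine hG.nd 1 le_rfl (by omega) w hw ?_ ?_
    · intro v hv
      have e := r3 hv hw
      rw [h0, mul_zero] at e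
      rw [mm hv hw, (smul_eq_zero.1 e.symm).resolve_right hs2, zero_smul]
    · intro q hq
      rw [hφ q hq, smul_mul_assoc, h0, smul_zero]
  have i2 : ∀ w ∈ D 1, s * (s * w) = 0 → w = 0 := by
    intro w hw h0
    apply i1 w hw
    refine hG.nd 3 (by norm_num) (by omega) _
      (hG.mul_mem 2 1 (by norm_num) le_rfl s hs w hw) ?_ ?_
    · intro v hv
      have e := r5 hv hw
      rw [h0, mul_zero] at e
      rw [r3 hv hw, (smul_eq_zero.1 e.symm).resolve_right hs3, zero_smul]
    · intro q hq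
      rw [hφ q hq, smul_mul_assoc, h0, smul_zero]
  refine ⟨hcomm, ?_, ?_⟩
  · let f : D 1 →ₗ[F] D 3 := (LinearMap.mulLeft F s).restrict (fun v hv => by
      rw [LinearMap.mulLeft_apply]
      exact hG.mul_mem 2 1 (by norm_num) le_rfl s hs v hv)
    refine LinearMap.finrank_le_finrank_of_injective (f := f) ?_
    rw [injective_iff_map_eq_zero]
    rintro ⟨w, hw⟩ h0
    exact Subtype.ext (i1 w hw (congrArg Subtype.val h0))
  · let f : D 1 →ₗ[F] D 5 := (LinearMap.mulLeft F s ∘ₗ LinearMap.mulLeft F s).restrict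
      (fun v hv => by
        rw [LinearMap.comp_apply, LinearMap.mulLeft_apply, LinearMap.mulLeft_apply]
        exact hG.mul_mem 2 3 (by norm_num) (by norm_num) s hs _
          (hG.mul_mem 2 1 (by norm_num) le_rfl s hs v hv))
    refine LinearMap.finrank_le_finrank_of_injective (f := f) ?_
    rw [injective_iff_map_eq_zero]
    rintro ⟨w, hw⟩ h0
    exact Subtype.ext (i2 w hw (congrArg Subtype.val h0))

/-- `D 1 ≠ 0` -/
theorem GJ.d1_pos (hG : GJ F A c D) (hc : 2 ≤ c) : 1 ≤ finrank F (D 1) := by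
  have hfin := hG.fin
  by_contra hlt
  have h1 : D 1 = ⊥ := Submodule.finrank_eq_zero.mp (by omega)
  have z1 : ∀ v ∈ D 1, v = 0 := by
    intro v hv
    rw [h1] at hv
    exact (Submodule.mem_bot F).mp hv
  have h2 : D 2 ≤ ⊥ := by
    apply hG.gen2
    intro v hv w _
    rw [z1 v hv, zero_mul]
    exact Submodule.zero_mem _
  have mn : ∀ n, 2 ≤ n → D n ≤ ⊥ := by
    intro n hn
    induction n, hn using Nat.le_induction with
    | base => exact h2
    | succ n hn ih =>
      refine hG.gen (n + 1) (by omega) ⊥ ?_ ?_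
      · intro v hv h _
        rw [z1 v hv, zero_mul]
        exact Submodule.zero_mem _
      · intro q hq h _
        rw [(Submodule.mem_bot F).mp (h2 hq), zero_mul]
        exact Submodule.zero_mem _
  have ht := hG.top
  rw [le_bot_iff.mp (mn c hc), finrank_bot] at ht
  exact zero_ne_one ht

/-- if `x^c ≠ 0` then all the layers up to `c` are nonzero -/
theorem GJ.layer_pos (hG : GJ F A c D) {x : A} (hx : x ∈ D 1) (hxc : xp x c ≠ 0) {i : ℕ}
    (hi : 1 ≤ i) (hic : i ≤ c) : 1 ≤ finrank F (D i) := by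
  have hfin := hG.fin
  have hm : ∀ n, 1 ≤ n → xp x n ∈ D n := by
    intro n hn
    induction n, hn using Nat.le_induction with
    | base => exact hx
    | succ n hn ih =>
      rw [xp_succ x hn, add_comm n 1]
      exact hG.mul_mem 1 n le_rfl hn x hx _ ih
  by_contra hlt
  have h0 : D i = ⊥ := Submodule.finrank_eq_zero.mp (by omega)
  have h1 : xp x i = 0 := by
    have := hm i hi
    rw [h0] at this
    exact (Submodule.mem_bot F).mp this
  apply hxc
  rcases Nat.eq_or_lt_of_le hic with rfl | hlt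
  · exact h1
  · have e := xp_mul F hG.two hG.jordan x hi (by omega : 1 ≤ c - i)
    rw [show i + (c - i) = c by omega, h1, zero_mul] at e
    exact e.symm

/-- class 6 -/
theorem gj6_curv (hG : GJ F A 6 D)
    (hs : finrank F (D 2) + finrank F (D 3) + finrank F (D 4) + finrank F (D 5) ≤ 6) :
    finrank F (D 1) = 1 ∨
    (finrank F (D 1) = 2 ∧ finrank F (D 2) = 1 ∧ finrank F (D 3) = 2 ∧ finrank F (D 4) = 1 ∧
      finrank F (D 5) = 2 ∧
      (∀ v ∈ D 1, ∀ q ∈ D 2, ∀ b : A, v * (q * b) = q * (v * b)) ∧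
      (∀ v ∈ D 1, (∀ w ∈ D 1, v * w = 0) → v = 0)) := by
  have hfin := hG.fin
  have h1 := hG.d1_pos (by norm_num)
  by_cases h12 : 2 ≤ finrank F (D 1)
  · right
    by_cases h2 : finrank F (D 2) = 1
    · obtain ⟨k1, k2, k3, k4, k5⟩ := H1 hG h2
      exact ⟨by omega, h2, by omega, by omega, by omega, k1, k2⟩
    exfalso
    have h4 : finrank F (D 4) ≠ 0 := by
      intro h
      exact D4_ne hG (Submodule.finrank_eq_zero.mp h)
    have h3 : 2 ≤ finrank F (D 3) := by
      by_contra hlt
      obtain ⟨h5, h6⟩ := H3g hG h12 (by omega)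
      omega
    have h5 : finrank F (D 5) ≠ 0 := by
      intro h
      obtain ⟨h6, h7⟩ := H2b hG (Submodule.finrank_eq_zero.mp h)
      omega
    have h2' : finrank F (D 2) ≠ 0 := by
      intro h
      have hb := Submodule.finrank_eq_zero.mp h
      have h6 : D 3 ≤ ⊥ := by
        refine hG.gen 3 le_rfl ⊥ ?_ ?_
        · intro v _ q hq
          have hq' : q ∈ D 2 := hq
          rw [hb, Submodule.mem_bot] at hq'
          rw [hq', mul_zero]
          exact Submodule.zero_mem _
        · intro q hq v _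
          rw [hb, Submodule.mem_bot] at hq
          rw [hq, zero_mul]
          exact Submodule.zero_mem _
      have h7 : finrank F (D 3) = 0 := by
        rw [le_bot_iff.mp h6]
        exact finrank_bot F A
      omega
    have := LT hG (by omega) (by omega)
    omega
  · left
    omega

/-- class 7 -/
theorem gj7_curv (hG : GJ F A 7 D) {x : A} (hx : x ∈ D 1) (hx7 : xp x 7 ≠ 0)
    (hs : finrank F (D 2) + finrank F (D 3) + finrank F (D 4) + finrank F (D 5) +
      finrank F (D 6) ≤ 6) : finrank F (D 1) = 1 := by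
  have hfin := hG.fin
  have h1 := hG.layer_pos hx hx7 (i := 1) (by norm_num) (by norm_num)
  have h2 := hG.layer_pos hx hx7 (i := 2) (by norm_num) (by norm_num)
  have h3 := hG.layer_pos hx hx7 (i := 3) (by norm_num) (by norm_num)
  have h4 := hG.layer_pos hx hx7 (i := 4) (by norm_num) (by norm_num)
  have h5 := hG.layer_pos hx hx7 (i := 5) (by norm_num) (by norm_num)
  have h6 := hG.layer_pos hx hx7 (i := 6) (by norm_num) (by norm_num)
  by_cases h : finrank F (D 3) = 1 ∧ finrank F (D 4) = 1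
  · have := curv hG (by norm_num) h.1 h.2
    omega
  · have h21 : finrank F (D 2) = 1 := by omega
    obtain ⟨-, k1, k2⟩ := d2one hG (by norm_num) h21
    omega

/-- class 8 -/
theorem gj8_curv (hG : GJ F A 8 D) {x : A} (hx : x ∈ D 1) (hx8 : xp x 8 ≠ 0)
    (hs : finrank F (D 2) + finrank F (D 3) + finrank F (D 4) + finrank F (D 5) +
      finrank F (D 6) + finrank F (D 7) ≤ 6) : finrank F (D 1) = 1 := by
  have h1 := hG.layer_pos hx hx8 (i := 1) (by norm_num) (by norm_num)
  have h2 := hG.layer_pos hx hx8 (i := 2) (by norm_num) (by norm_num)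
  have h3 := hG.layer_pos hx hx8 (i := 3) (by norm_num) (by norm_num)
  have h4 := hG.layer_pos hx hx8 (i := 4) (by norm_num) (by norm_num)
  have h5 := hG.layer_pos hx hx8 (i := 5) (by norm_num) (by norm_num)
  have h6 := hG.layer_pos hx hx8 (i := 6) (by norm_num) (by norm_num)
  have h7 := hG.layer_pos hx hx8 (i := 7) (by norm_num) (by norm_num)
  have := curv hG (by norm_num) (by omega) (by omega)
  omega

end GJ

section J

variable {F : Type u} [Field F] {J : Type u} [NonUnitalNonAssocCommRing J] [Module F J]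
  [IsScalarTower F J J] [SMulCommClass F J J] [Module.Finite F J] [Infinite F]

/-- some `x^c` is nonzero -/
theorem exists_xp_ne (h2 : (2 : F) ≠ 0) (hJ : IsJordan J) {c : ℕ} (hc : 6 ≤ c) {e : J} (he : e ≠ 0)
    (htop : jpow F J c = Submodule.span F {e}) (hbot : jpow F J (c + 1) = ⊥)
    (hs : ∑ i ∈ Finset.Ico 2 c, dlay F J i ≤ 6) : c ≤ 8 ∧ ∃ x : J, xp x c ≠ 0 := by
  have hc8 := class_le_eight h2 hJ he htop hbot hs
  refine ⟨hc8, ?_⟩
  have hY : HY F J c ⊥ := ⟨by rw [hbot], bot_le, by
    rw [htop, finrank_span_singleton he, finrank_bot]⟩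
  obtain rfl | rfl | rfl : c = 6 ∨ c = 7 ∨ c = 8 := by omega
  · simp [Finset.sum_Ico_eq_sum_range, Finset.sum_range_succ] at hs
    exact hY.pow6 h2 hJ hs
  · simp [Finset.sum_Ico_eq_sum_range, Finset.sum_range_succ] at hs
    exact pow7 h2 hJ hY hs
  · simp [Finset.sum_Ico_eq_sum_range, Finset.sum_range_succ] at hs
    exact pow8 h2 hJ hY hs

/-- the cocyclic graded algebra of `J` has one letter, except for one type in class 6 -/
theorem gj_curv (h2 : (2 : F) ≠ 0) (hJ : IsJordan J) {c : ℕ} (hc : 6 ≤ c) {e : J} (he : e ≠ 0)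
    (htop : jpow F J c = Submodule.span F {e}) (hbot : jpow F J (c + 1) = ⊥)
    (hs : ∑ i ∈ Finset.Ico 2 c, dlay F J i ≤ 6)
    {A : Type u} [NonUnitalNonAssocCommRing A] [Module F A] [IsScalarTower F A A]
    [SMulCommClass F A A] {D : ℕ → Submodule F A} {π : ℕ → J →ₗ[F] A} (hG : GJ F A c D)
    (hmap : ∀ i, 1 ≤ i → (jpow F J i).map (π i) = D i)
    (hπ : ∀ i j, 1 ≤ i → 1 ≤ j → ∀ a ∈ jpow F J i, ∀ b ∈ jpow F J j,
        π (i + j) (a * b) = π i a * π j b)
    (htk : ∀ a ∈ jpow F J c, π c a = 0 → a = 0)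
    (hdim : ∀ i, 1 ≤ i → finrank F (D i) + finrank F (jpow F J (i + 1)) ≤
        finrank F (jpow F J i)) :
    finrank F (D 1) = 1 ∨
    (c = 6 ∧ finrank F (D 1) = 2 ∧ finrank F (D 2) = 1 ∧ finrank F (D 3) = 2 ∧
      finrank F (D 4) = 1 ∧ finrank F (D 5) = 2 ∧
      (∀ v ∈ D 1, ∀ q ∈ D 2, ∀ b : A, v * (q * b) = q * (v * b)) ∧
      (∀ v ∈ D 1, (∀ w ∈ D 1, v * w = 0) → v = 0)) := by
  obtain ⟨hc8, x, hx⟩ := exists_xp_ne h2 hJ hc he htop hbot hs
  have hle : ∀ i, 1 ≤ i → finrank F (D i) ≤ dlay F J i := by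
    intro i hi
    have := hdim i hi
    unfold dlay
    omega
  have key : ∀ n, 1 ≤ n → xp (π 1 x) n = π n (xp x n) := by
    intro n hn
    induction n, hn using Nat.le_induction with
    | base => rfl
    | succ n hn ih =>
      rw [xp_succ _ hn, xp_succ _ hn, ih, add_comm n 1,
        hπ 1 n le_rfl hn _ (mem_jpow_one x) _ (xp_mem _ hn)]
  have hx1 : π 1 x ∈ D 1 := by
    rw [← hmap 1 le_rfl]
    exact Submodule.mem_map_of_mem (mem_jpow_one x)
  have hxc : xp (π 1 x) c ≠ 0 := by
    rw [key c (by omega)]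
    exact fun h => hx (htk _ (xp_mem x (by omega)) h)
  have l2 := hle 2 (by norm_num)
  have l3 := hle 3 (by norm_num)
  have l4 := hle 4 (by norm_num)
  have l5 := hle 5 (by norm_num)
  have l6 := hle 6 (by norm_num)
  have l7 := hle 7 (by norm_num)
  obtain rfl | rfl | rfl : c = 6 ∨ c = 7 ∨ c = 8 := by omega
  · simp [Finset.sum_Ico_eq_sum_range, Finset.sum_range_succ] at hs
    rcases gj6_curv hG (by omega) with h | h
    · exact Or.inl h
    · exact Or.inr ⟨rfl, h⟩
  · simp [Finset.sum_Ico_eq_sum_range, Finset.sum_range_succ] at hs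
    exact Or.inl (gj7_curv hG hx1 hxc (by omega))
  · simp [Finset.sum_Ico_eq_sum_range, Finset.sum_range_succ] at hs
    exact Or.inl (gj8_curv hG hx1 hxc (by omega))

end J

end JD
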