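import Pool.Agent.H9.JN.QuoP

set_option autoImplicit false
set_option linter.unusedSectionVars false

/-!
# JN C78: classes 7, 8 and at least 9, small layers

`pow7`, `pow8`: some `x^c` is nonzero. `class_le_eight`.
-/

namespace JD

universe u

open Module

variable {F : Type u} [Field F] {J : Type u} [NonUnitalNonAssocCommRing J] [Module F J]
  [IsScalarTower F J J] [SMulCommClass F J J]

theorem mem_jpow_one (a : J) : a ∈ jpow F J 1 := by
  rw [jpow_one]
  exact Submodule.mem_top

theorem mul_mem' {i j : ℕ} (k : ℕ) (h : k ≤ i + j) {a b : J} (ha : a ∈ jpow F J i)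
    (hb : b ∈ jpow F J j) : a * b ∈ jpow F J k := jpow_anti h (mul_mem_jpow ha hb)

/-- `J^2` is spanned by squares -/
theorem jpow_two_le (h2 : (2 : F) ≠ 0) (T : Submodule F J) (h : ∀ x : J, x * x ∈ T) :
    jpow F J 2 ≤ T := by
  refine jpow_le_of le_rfl T fun i j _ _ _ a _ b _ => ?_
  have e : a * b = (2 : F)⁻¹ • ((a + b) * (a + b) - a * a - b * b) := by
    have : (a + b) * (a + b) - a * a - b * b = (2 : F) • (a * b) := by
      rw [add_mul, mul_add, mul_add, mul_comm b a, two_smul]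
      abel
    rw [this, smul_smul, inv_mul_cancel₀ h2, one_smul]
  rw [e]
  exact T.smul_mem _ (T.sub_mem (T.sub_mem (h _) (h _)) (h _))

/-- a one-dimensional layer -/
theorem layer1 [Module.Finite F J] {i : ℕ} (hd : dlay F J i = 1) (a : J) (ha : a ∈ jpow F J i)
    (ha' : a ∉ jpow F J (i + 1)) (b : J) (hb : b ∈ jpow F J i) :
    ∃ r : F, ∃ b' ∈ jpow F J (i + 1), b = r • a + b' := by
  have hlt : jpow F J (i + 1) < jpow F J (i + 1) ⊔ Submodule.span F {a} := by
    refine lt_of_le_of_ne le_sup_left fun h => ha' ?_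
    rw [h]
    exact Submodule.mem_sup_right (Submodule.mem_span_singleton_self a)
  have f1 := Submodule.finrank_lt_finrank_of_lt hlt
  have hle : jpow F J (i + 1) ⊔ Submodule.span F {a} ≤ jpow F J i :=
    sup_le (jpow_succ_le i) (by rwa [Submodule.span_singleton_le_iff_mem])
  have f2 : finrank F (jpow F J i) ≤
      finrank F (jpow F J (i + 1) ⊔ Submodule.span F {a} : Submodule F J) := by
    unfold dlay at hd
    omega
  have heq := Submodule.eq_of_le_of_finrank_le hle f2
  rw [← heq] at hb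
  obtain ⟨b', hb', c, hc, rfl⟩ := Submodule.mem_sup.mp hb
  obtain ⟨r, rfl⟩ := Submodule.mem_span_singleton.mp hc
  exact ⟨r, b', hb', by rw [add_comm]⟩

/-- a zero layer -/
theorem layer0 [Module.Finite F J] {i : ℕ} (hd : dlay F J i = 0) :
    jpow F J i = jpow F J (i + 1) := by
  refine (Submodule.eq_of_le_of_finrank_le (jpow_succ_le i) ?_).symm
  unfold dlay at hd
  omega

theorem xp_notMem (h2 : (2 : F) ≠ 0) (hJ : IsJordan J) {x : J} {m i : ℕ} (hi : 1 ≤ i)
    (him : i ≤ m) (h : xp x m ∉ jpow F J (m + 1)) : xp x i ∉ jpow F J (i + 1) := by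
  intro hx
  apply h
  rcases Nat.eq_or_lt_of_le him with rfl | hlt
  · exact hx
  · have e := xp_mul F h2 hJ x hi (by omega : 1 ≤ m - i)
    rw [show i + (m - i) = m by omega] at e
    rw [← e]
    exact mul_mem' _ (by omega) hx (xp_mem x (by omega))

theorem dlay_pos_of (x : J) [Module.Finite F J] {i : ℕ} (hi : 1 ≤ i)
    (h : xp x i ∉ jpow F J (i + 1)) : 1 ≤ dlay F J i := by
  by_contra hlt
  rw [← layer0 (by omega : dlay F J i = 0)] at h
  exact h (xp_mem x hi)

/-- a functional that is `1` at `a ∉ K` and `0` on `K` -/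
theorem exists_fun (K : Submodule F J) (a : J) (ha : a ∉ K) :
    ∃ φ : J →ₗ[F] F, φ a ≠ 0 ∧ ∀ b ∈ K, φ b = 0 := by
  obtain ⟨f, hf, hf'⟩ := Submodule.exists_le_ker_of_notMem ha
  exact ⟨f, hf, fun b hb => LinearMap.mem_ker.mp (hf' hb)⟩

/-- two consecutive zero layers -/
theorem stable2 (h2 : (2 : F) ≠ 0) (hJ : IsJordan J) (hn : IsNilpotentAlg F J) {n : ℕ}
    (hn1 : 1 ≤ n) (h : jpow F J n = jpow F J (n + 1)) (h' : jpow F J (n + 1) = jpow F J (n + 2)) :
    jpow F J n = ⊥ := by
  have key : ∀ m, n ≤ m → jpow F J m = jpow F J (m + 1) ∧ jpow F J (m + 1) = jpow F J (m + 2) := by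
    intro m hm
    induction m, hm using Nat.le_induction with
    | base => exact ⟨h, h'⟩
    | succ m hm ih =>
      refine ⟨ih.2, le_antisymm ?_ (jpow_succ_le _)⟩
      refine jpow_gen h2 hJ (by omega) _ ?_ ?_
      · intro x b hb
        rw [show m + 1 + 1 - 1 = m + 1 by omega, ih.2] at hb
        exact mul_mem' _ (by omega) (mem_jpow_one x) hb
      · intro q hq b hb
        rw [show m + 1 + 1 - 2 = m by omega, ih.1] at hb
        exact mul_mem' _ (by omega) hq hb
  exact jpow_eq_bot_of_stable hn fun m hm => (key m hm).1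

variable [Module.Finite F J] [Infinite F]

theorem pow7_zero (h2 : (2 : F) ≠ 0) (hJ : IsJordan J) {e : J} (he : e ≠ 0)
    (htop : jpow F J 7 = Submodule.span F {e}) (hbot : jpow F J 8 = ⊥)
    (hs : dlay F J 2 + dlay F J 3 + dlay F J 4 + dlay F J 5 + dlay F J 6 ≤ 6) :
    ∃ x : J, xp x 7 ≠ 0 := by
  by_contra hcon
  push Not at hcon
  have z8 : ∀ {a : J}, a ∈ jpow F J 8 → a = 0 := by
    intro a ha
    rw [hbot] at ha
    exact (Submodule.mem_bot F).1 ha
  have hY : HY F J 7 ⊥ := ⟨by rw [hbot], bot_le, by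
    rw [htop, finrank_span_singleton he, finrank_bot]⟩
  have d6 := hY.d6 h2 hJ (by omega)
  obtain ⟨K, hK⟩ := exists_hyper (F := F) (J := J) 6 d6
  obtain ⟨x0, hx0⟩ := hK.pow6 h2 hJ (by omega)
  obtain ⟨φ, hφ, hφK⟩ := exists_fun K _ hx0
  -- generic elements
  have gen6 : ∀ x : J, φ (xp x 6) ≠ 0 → xp x 6 ∉ jpow F J 7 := fun x hx h =>
    hx (hφK _ (hK.lo h))
  have gen : ∀ x : J, φ (xp x 6) ≠ 0 → ∀ i, 1 ≤ i → i ≤ 6 → xp x i ∉ jpow F J (i + 1) :=
    fun x hx i hi hi' => xp_notMem h2 hJ hi hi' (gen6 x hx)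
  have d5 := dlay_pos_of x0 (by norm_num) (gen x0 hφ 5 (by norm_num) (by norm_num))
  have d4 := dlay_pos_of x0 (by norm_num) (gen x0 hφ 4 (by norm_num) (by norm_num))
  have d3 := dlay_pos_of x0 (by norm_num) (gen x0 hφ 3 (by norm_num) (by norm_num))
  have d2 := dlay_pos_of x0 (by norm_num) (gen x0 hφ 2 (by norm_num) (by norm_num))
  have pm : ∀ (x : J) {i j : ℕ}, 1 ≤ i → 1 ≤ j → xp x i * xp x j = xp x (i + j) :=
    fun x i j hi hj => xp_mul F h2 hJ x hi hj
  have hsq : ∀ x : J, x * x = xp x 2 := fun x => rfl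
  -- `d6 = 1`
  have V6 : dlay F J 6 = 1 → ∀ v : J, ∀ a ∈ jpow F J 6, v * a = 0 := by
    intro hd v a ha
    refine LinearMap.mem_ker.mp (dense_xp φ x0 (by norm_num) hφ
      (LinearMap.ker (LinearMap.mulRight F a)) (fun x hx => ?_) v)
    rw [LinearMap.mem_ker, LinearMap.mulRight_apply]
    obtain ⟨r, b, hb, rfl⟩ := layer1 hd _ (xp_mem x (by norm_num))
      (gen x hx 6 (by norm_num) le_rfl) a ha
    rw [mul_add, mul_smul_comm, ← xp_succ x (by norm_num), hcon, smul_zero, zero_add]
    exact z8 (mul_mem' 8 (by norm_num) (mem_jpow_one x) hb)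
  -- `d5 = 1`
  have Q5 : dlay F J 5 = 1 → ∀ q ∈ jpow F J 2, ∀ a ∈ jpow F J 5, q * a = 0 := by
    intro hd q hq a ha
    have hT : jpow F J 2 ≤ LinearMap.ker (LinearMap.mulRight F a) := by
      apply jpow_two_le h2
      refine dense_sq φ x0 (by norm_num) hφ _ (fun x hx => ?_)
      rw [LinearMap.mem_ker, LinearMap.mulRight_apply]
      obtain ⟨r, b, hb, rfl⟩ := layer1 hd _ (xp_mem x (by norm_num))
        (gen x hx 5 (by norm_num) (by norm_num)) a ha
      rw [mul_add, mul_smul_comm, hsq, pm x (by norm_num) (by norm_num), hcon, smul_zero, zero_add]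
      exact z8 (mul_mem' 8 (by norm_num) (xp_mem x (by norm_num)) hb)
    exact LinearMap.mem_ker.mp (hT hq)
  -- `d3 = d4 = 1`
  have M34 : dlay F J 3 = 1 → dlay F J 4 = 1 → ∀ p ∈ jpow F J 3, ∀ q ∈ jpow F J 4, p * q = 0 := by
    intro h3 h4 p hp q hq
    obtain ⟨r, p', hp', rfl⟩ := layer1 h3 _ (xp_mem x0 (by norm_num))
      (gen x0 hφ 3 (by norm_num) (by norm_num)) p hp
    obtain ⟨s, q', hq', rfl⟩ := layer1 h4 _ (xp_mem x0 (by norm_num))
      (gen x0 hφ 4 (by norm_num) (by norm_num)) q hq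
    rw [add_mul, z8 (mul_mem' 8 (by norm_num) hp' hq), add_zero, mul_add,
      z8 (mul_mem' 8 (by norm_num) (Submodule.smul_mem _ r (xp_mem x0 (by norm_num))) hq'),
      add_zero, smul_mul_smul_comm, pm x0 (by norm_num) (by norm_num), hcon, smul_zero]
  -- the end
  have fin : (∀ v : J, ∀ a ∈ jpow F J 6, v * a = 0) →
      (∀ q ∈ jpow F J 2, ∀ a ∈ jpow F J 5, q * a = 0) → False := by
    intro hV hQ
    have h7 : jpow F J 7 ≤ ⊥ := by
      refine jpow_gen h2 hJ (by norm_num) ⊥ (fun v a ha => ?_) (fun q hq a ha => ?_)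
      · rw [hV v a ha]; exact Submodule.zero_mem _
      · rw [hQ q hq a ha]; exact Submodule.zero_mem _
    rw [htop] at h7
    exact he ((Submodule.mem_bot F).1 (h7 (Submodule.mem_span_singleton_self e)))
  have lay : ∀ i, 1 ≤ i → i ≤ 6 → dlay F J i = 1 → ∀ b ∈ jpow F J i,
      ∃ r : F, ∃ b' ∈ jpow F J (i + 1), b = r • xp x0 i + b' := by
    intro i hi hi' hd b hb
    exact layer1 hd _ (xp_mem x0 hi) (gen x0 hφ i hi hi') b hb
  have m : ∀ i, 1 ≤ i → xp x0 i ∈ jpow F J i := fun i hi => xp_mem x0 hi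
  rcases Nat.lt_or_ge (dlay F J 6) 2 with h6 | h6
  · have h61 : dlay F J 6 = 1 := by omega
    have hV := V6 h61
    rcases Nat.lt_or_ge (dlay F J 5) 2 with h5 | h5
    · exact fin hV (Q5 (by omega))
    · -- `d5 = 2`
      have hM := M34 (by omega) (by omega)
      refine fin hV ?_
      have key : ∀ v : J, xp x0 2 * (v * xp x0 4) = 0 := by
        intro v
        have e := gder F h2 hJ (xp x0 2) v x0 (xp x0 3)
        rw [← xp_succ x0 (by norm_num)] at e
        rw [pm x0 (by norm_num) (by norm_num : 1 ≤ 3 + 1), hV v _ (m 6 (by norm_num)), sub_zero] at e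
        rw [show (3 + 1 : ℕ) = 4 from rfl] at e
        rw [e, mul_comm _ (xp x0 3)]
        have hD : xp x0 2 * (v * x0) - v * (xp x0 2 * x0) ∈ jpow F J 4 :=
          Submodule.sub_mem _
            (mul_mem' 4 (by norm_num) (m 2 (by norm_num)) (mul_mem' 2 (by norm_num) (mem_jpow_one v) (mem_jpow_one x0)))
            (mul_mem' 4 (by norm_num) (mem_jpow_one v) (mul_mem' 3 (by norm_num) (m 2 (by norm_num)) (mem_jpow_one x0)))
        have hD3 : xp x0 2 * (v * xp x0 3) - v * (xp x0 2 * xp x0 3) ∈ jpow F J 6 :=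
          Submodule.sub_mem _
            (mul_mem' 6 (by norm_num) (m 2 (by norm_num)) (mul_mem' 4 (by norm_num) (mem_jpow_one v) (m 3 (by norm_num))))
            (mul_mem' 6 (by norm_num) (mem_jpow_one v) (mul_mem' 5 (by norm_num) (m 2 (by norm_num)) (m 3 (by norm_num))))
        rw [hM _ (m 3 (by norm_num)) _ hD, hV x0 _ hD3, add_zero]
      have key2 : ∀ a ∈ jpow F J 5, xp x0 2 * a = 0 := by
        intro a ha
        have hT : jpow F J 5 ≤ LinearMap.ker (LinearMap.mulLeft F (xp x0 2)) := by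
          refine jpow_gen h2 hJ (by norm_num) _ (fun v b hb => ?_) (fun q hq b hb => ?_)
          · rw [LinearMap.mem_ker, LinearMap.mulLeft_apply]
            obtain ⟨r, b', hb', rfl⟩ := lay 4 (by norm_num) (by norm_num) (by omega) b hb
            rw [mul_add, mul_add, mul_smul_comm, mul_smul_comm, key, smul_zero, zero_add]
            exact z8 (mul_mem' 8 (by norm_num) (m 2 (by norm_num))
              (mul_mem' 6 (by norm_num) (mem_jpow_one v) hb'))
          · rw [LinearMap.mem_ker, LinearMap.mulLeft_apply]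
            obtain ⟨r, b', hb', rfl⟩ := lay 3 (by norm_num) (by norm_num) (by omega) b hb
            obtain ⟨s, q', hq', rfl⟩ := lay 2 (by norm_num) (by norm_num) (by omega) q hq
            rw [add_mul (s • xp x0 2), mul_add (s • xp x0 2), smul_mul_smul_comm,
              pm x0 (by norm_num) (by norm_num), mul_add, mul_add, mul_smul_comm,
              pm x0 (by norm_num) (by norm_num), hcon, smul_zero, zero_add,
              z8 (mul_mem' 8 (by norm_num) (m 2 (by norm_num))
                (mul_mem' 6 (by norm_num) (Submodule.smul_mem _ s (m 2 (by norm_num))) hb')),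
              zero_add]
            exact z8 (mul_mem' 8 (by norm_num) (m 2 (by norm_num))
              (mul_mem' 6 (by norm_num) hq' hb))
        exact LinearMap.mem_ker.mp (hT ha)
      intro q hq a ha
      obtain ⟨s, q', hq', rfl⟩ := lay 2 (by norm_num) (by norm_num) (by omega) q hq
      rw [add_mul, smul_mul_assoc, key2 a ha, smul_zero, zero_add]
      exact z8 (mul_mem' 8 (by norm_num) hq' ha)
  · -- `d6 = 2`
    have hQ := Q5 (by omega)
    have hM := M34 (by omega) (by omega)
    refine fin ?_ hQ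
    have sy : ∀ v w : J, v * (w * xp x0 5) = w * (v * xp x0 5) := by
      intro v w
      have e := gder F h2 hJ v w (xp x0 2) (xp x0 3)
      rw [pm x0 (by norm_num) (by norm_num)] at e
      have hD2 : v * (w * xp x0 2) - w * (v * xp x0 2) ∈ jpow F J 4 :=
        Submodule.sub_mem _
          (mul_mem' 4 (by norm_num) (mem_jpow_one v) (mul_mem' 3 (by norm_num) (mem_jpow_one w) (m 2 (by norm_num))))
          (mul_mem' 4 (by norm_num) (mem_jpow_one w) (mul_mem' 3 (by norm_num) (mem_jpow_one v) (m 2 (by norm_num))))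
      have hD3 : v * (w * xp x0 3) - w * (v * xp x0 3) ∈ jpow F J 5 :=
        Submodule.sub_mem _
          (mul_mem' 5 (by norm_num) (mem_jpow_one v) (mul_mem' 4 (by norm_num) (mem_jpow_one w) (m 3 (by norm_num))))
          (mul_mem' 5 (by norm_num) (mem_jpow_one w) (mul_mem' 4 (by norm_num) (mem_jpow_one v) (m 3 (by norm_num))))
      rw [mul_comm _ (xp x0 3), hM _ (m 3 (by norm_num)) _ hD2, hQ _ (m 2 (by norm_num)) _ hD3,
        add_zero] at e
      exact sub_eq_zero.mp e
    have j4 : ∀ a b c : J, a * (c * (b * xp x0 4)) + b * (c * (a * xp x0 4)) = 0 := by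
      intro a b c
      have e := gJ4 F h2 hJ a b c (xp x0 4)
      have m2 : ∀ a b : J, a * b ∈ jpow F J 2 := fun a b =>
        mul_mem' 2 (by norm_num) (mem_jpow_one a) (mem_jpow_one b)
      have m5 : ∀ a : J, a * xp x0 4 ∈ jpow F J 5 := fun a =>
        mul_mem' 5 (by norm_num) (mem_jpow_one a) (m 4 (by norm_num))
      rw [hM _ (mul_mem' 3 (by norm_num) (m2 a b) (mem_jpow_one c)) _ (m 4 (by norm_num)),
        hQ _ (m2 a b) _ (m5 c), hQ _ (m2 a c) _ (m5 b), hQ _ (m2 b c) _ (m5 a)] at e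
      have e2 := congrArg Neg.neg e
      rw [neg_zero] at e2
      rw [e2]
      abel
    have k1 : ∀ c : J, x0 * (c * xp x0 5) = 0 := by
      intro c
      have e := j4 x0 x0 c
      rw [← xp_succ x0 (by norm_num), ← two_smul F] at e
      exact (smul_eq_zero.1 e).resolve_left h2
    have k2 : ∀ b c : J, b * (c * xp x0 5) = 0 := by
      intro b c
      have e := j4 x0 b c
      obtain ⟨r, b', hb', hb⟩ := lay 5 (by norm_num) (by norm_num) (by omega) (b * xp x0 4)
        (mul_mem' 5 (by norm_num) (mem_jpow_one b) (m 4 (by norm_num)))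
      rw [← xp_succ x0 (by norm_num), hb, mul_add, mul_add, mul_smul_comm, mul_smul_comm, k1,
        smul_zero, z8 (mul_mem' 8 (by norm_num) (mem_jpow_one x0)
          (mul_mem' 7 (by norm_num) (mem_jpow_one c) hb')), zero_add, zero_add] at e
      exact e
    intro v a ha
    have hT : jpow F J 6 ≤ LinearMap.ker (LinearMap.mulLeft F v) := by
      refine jpow_gen h2 hJ (by norm_num) _ (fun w b hb => ?_) (fun q hq b hb => ?_)
      · rw [LinearMap.mem_ker, LinearMap.mulLeft_apply]
        obtain ⟨r, b', hb', rfl⟩ := lay 5 (by norm_num) (by norm_num) (by omega) b hb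
        rw [mul_add, mul_add, mul_smul_comm, mul_smul_comm, k2, smul_zero, zero_add]
        exact z8 (mul_mem' 8 (by norm_num) (mem_jpow_one v)
          (mul_mem' 7 (by norm_num) (mem_jpow_one w) hb'))
      · rw [LinearMap.mem_ker, LinearMap.mulLeft_apply]
        obtain ⟨r, b', hb', rfl⟩ := lay 4 (by norm_num) (by norm_num) (by omega) b hb
        obtain ⟨s, q', hq', rfl⟩ := lay 2 (by norm_num) (by norm_num) (by omega) q hq
        rw [add_mul (s • xp x0 2), mul_add (s • xp x0 2), smul_mul_smul_comm,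
          pm x0 (by norm_num) (by norm_num), mul_add, mul_add, mul_smul_comm,
          xp_succ x0 (by norm_num : 1 ≤ 5), k2, smul_zero, zero_add,
          z8 (mul_mem' 8 (by norm_num) (mem_jpow_one v)
            (mul_mem' 7 (by norm_num) (Submodule.smul_mem _ s (m 2 (by norm_num))) hb')),
          zero_add]
        exact z8 (mul_mem' 8 (by norm_num) (mem_jpow_one v)
          (mul_mem' 7 (by norm_num) hq' hb))
    exact LinearMap.mem_ker.mp (hT ha)

theorem pow7 (h2 : (2 : F) ≠ 0) (hJ : IsJordan J) {K : Submodule F J} (h : HY F J 7 K)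
    (hs : dlay F J 2 + dlay F J 3 + dlay F J 4 + dlay F J 5 + dlay F J 6 ≤ 6) :
    ∃ x : J, xp x 7 ∉ K := by
  obtain ⟨J', i1, i2, i3, i4, g, e, hfin, hJ', he, htop, hbot, hker, hsurj, hmul, hd⟩ :=
    exists_quo hJ h
  obtain ⟨x', hx'⟩ := pow7_zero h2 hJ' he htop hbot (by
    rw [hd 2 (by norm_num), hd 3 (by norm_num), hd 4 (by norm_num), hd 5 (by norm_num),
      hd 6 (by norm_num)]
    exact hs)
  obtain ⟨x, rfl⟩ := hsurj x'
  refine ⟨x, fun hx => hx' ?_⟩
  rw [← xp_map g hmul, ← LinearMap.mem_ker, hker]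
  exact hx

end JD
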