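import Pool.Agent.H9.JN.C78

set_option autoImplicit false
set_option linter.unusedSectionVars false

/-!
# JN C89: class 8 and the bound `c ≤ 8`
-/

namespace JD

universe u

open Module

variable {F : Type u} [Field F] {J : Type u} [NonUnitalNonAssocCommRing J] [Module F J]
  [IsScalarTower F J J] [SMulCommClass F J J] [Module.Finite F J] [Infinite F]

/-- the sixth layer is nonzero (class at least 6) -/
theorem d6_pos (h2 : (2 : F) ≠ 0) (hJ : IsJordan J) (hn : IsNilpotentAlg F J)
    (h6 : jpow F J 6 ≠ ⊥) (hs : dlay F J 2 + dlay F J 3 + dlay F J 4 + dlay F J 5 ≤ 6) :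
    1 ≤ dlay F J 6 := by
  by_cases h7 : 1 ≤ dlay F J 7
  · obtain ⟨K, hK⟩ := exists_hyper (F := F) (J := J) 7 h7
    exact hK.d6 h2 hJ hs
  · by_contra h
    have e6 : dlay F J 6 = 0 := by omega
    have e7 : dlay F J 7 = 0 := by omega
    exact h6 (stable2 h2 hJ hn (by norm_num) (layer0 e6) (layer0 e7))

theorem pow8_zero (h2 : (2 : F) ≠ 0) (hJ : IsJordan J) {e : J} (he : e ≠ 0)
    (htop : jpow F J 8 = Submodule.span F {e}) (hbot : jpow F J 9 = ⊥)
    (hs : dlay F J 2 + dlay F J 3 + dlay F J 4 + dlay F J 5 + dlay F J 6 + dlay F J 7 ≤ 6) :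
    ∃ x : J, xp x 8 ≠ 0 := by
  by_contra hcon
  push Not at hcon
  have z9 : ∀ {a : J}, a ∈ jpow F J 9 → a = 0 := by
    intro a ha
    rw [hbot] at ha
    exact (Submodule.mem_bot F).1 ha
  have hn : IsNilpotentAlg F J := ⟨9, by norm_num, hbot⟩
  have h6 : jpow F J 6 ≠ ⊥ := by
    intro h
    have : jpow F J 8 ≤ ⊥ := by
      rw [← h]
      exact jpow_anti (by norm_num)
    rw [htop] at this
    exact he ((Submodule.mem_bot F).1 (this (Submodule.mem_span_singleton_self e)))
  have d6 := d6_pos h2 hJ hn h6 (by omega)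
  have pm : ∀ (x : J) {i j : ℕ}, 1 ≤ i → 1 ≤ j → xp x i * xp x j = xp x (i + j) :=
    fun x i j hi hj => xp_mul F h2 hJ x hi hj
  have hsq : ∀ x : J, x * x = xp x 2 := fun x => rfl
  -- the end
  have fin : (∀ v : J, ∀ a ∈ jpow F J 7, v * a = 0) →
      (∀ q ∈ jpow F J 2, ∀ a ∈ jpow F J 6, q * a = 0) → False := by
    intro hV hQ
    have h7 : jpow F J 8 ≤ ⊥ := by
      refine jpow_gen h2 hJ (by norm_num) ⊥ (fun v a ha => ?_) (fun q hq a ha => ?_)
      · rw [hV v a ha]; exact Submodule.zero_mem _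
      · rw [hQ q hq a ha]; exact Submodule.zero_mem _
    rw [htop] at h7
    exact he ((Submodule.mem_bot F).1 (h7 (Submodule.mem_span_singleton_self e)))
  -- some sixth power
  obtain ⟨K, hK⟩ := exists_hyper (F := F) (J := J) 6 d6
  obtain ⟨x0, hx0⟩ := hK.pow6 h2 hJ (by omega)
  obtain ⟨φ, hφ, hφK⟩ := exists_fun K _ hx0
  have gen6 : ∀ x : J, φ (xp x 6) ≠ 0 → xp x 6 ∉ jpow F J 7 := fun x hx h =>
    hx (hφK _ (hK.lo h))
  have gen : ∀ x : J, φ (xp x 6) ≠ 0 → ∀ i, 1 ≤ i → i ≤ 6 → xp x i ∉ jpow F J (i + 1) :=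
    fun x hx i hi hi' => xp_notMem h2 hJ hi hi' (gen6 x hx)
  have d5 := dlay_pos_of x0 (by norm_num) (gen x0 hφ 5 (by norm_num) (by norm_num))
  have d4 := dlay_pos_of x0 (by norm_num) (gen x0 hφ 4 (by norm_num) (by norm_num))
  have d3 := dlay_pos_of x0 (by norm_num) (gen x0 hφ 3 (by norm_num) (by norm_num))
  have d2 := dlay_pos_of x0 (by norm_num) (gen x0 hφ 2 (by norm_num) (by norm_num))
  have m : ∀ i, 1 ≤ i → xp x0 i ∈ jpow F J i := fun i hi => xp_mem x0 hi
  rcases Nat.eq_zero_or_pos (dlay F J 7) with h7 | h7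
  · -- `d7 = 0`
    have e7 := layer0 h7
    rw [show (7 + 1 : ℕ) = 8 from rfl] at e7
    have V7 : ∀ v : J, ∀ a ∈ jpow F J 7, v * a = 0 := by
      intro v a ha
      rw [e7] at ha
      exact z9 (mul_mem' 9 (by norm_num) (mem_jpow_one v) ha)
    refine fin V7 ?_
    rcases Nat.lt_or_ge (dlay F J 6) 2 with h6 | h6
    · intro q hq a ha
      have hT : jpow F J 2 ≤ LinearMap.ker (LinearMap.mulRight F a) := by
        apply jpow_two_le h2
        refine dense_sq φ x0 (by norm_num) hφ _ (fun x hx => ?_)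
        rw [LinearMap.mem_ker, LinearMap.mulRight_apply]
        obtain ⟨r, b, hb, rfl⟩ := layer1 (by omega) _ (xp_mem x (by norm_num))
          (gen x hx 6 (by norm_num) (by norm_num)) a ha
        rw [show (6 + 1 : ℕ) = 7 from rfl, e7] at hb
        rw [mul_add, mul_smul_comm, hsq, pm x (by norm_num) (by norm_num), hcon, smul_zero,
          zero_add]
        exact z9 (mul_mem' 9 (by norm_num) (xp_mem x (by norm_num)) hb)
      exact LinearMap.mem_ker.mp (hT hq)
    · have lay : ∀ i, 1 ≤ i → i ≤ 6 → dlay F J i = 1 → ∀ b ∈ jpow F J i,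
          ∃ r : F, ∃ b' ∈ jpow F J (i + 1), b = r • xp x0 i + b' := by
        intro i hi hi' hd b hb
        exact layer1 hd _ (xp_mem x0 hi) (gen x0 hφ i hi hi') b hb
      have M44 : ∀ p ∈ jpow F J 4, ∀ q ∈ jpow F J 4, p * q = 0 := by
        intro p hp q hq
        obtain ⟨r, p', hp', rfl⟩ := lay 4 (by norm_num) (by norm_num) (by omega) p hp
        obtain ⟨s, q', hq', rfl⟩ := lay 4 (by norm_num) (by norm_num) (by omega) q hq
        rw [add_mul, z9 (mul_mem' 9 (by norm_num) hp' hq), add_zero, mul_add,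
          z9 (mul_mem' 9 (by norm_num) (Submodule.smul_mem _ r (m 4 (by norm_num))) hq'),
          add_zero, smul_mul_smul_comm, pm x0 (by norm_num) (by norm_num), hcon, smul_zero]
      have key : ∀ v : J, xp x0 2 * (v * xp x0 5) = 0 := by
        intro v
        have e := gder F h2 hJ (xp x0 2) v x0 (xp x0 4)
        rw [← xp_succ x0 (by norm_num)] at e
        rw [pm x0 (by norm_num) (by norm_num : 1 ≤ 4 + 1), V7 v _ (m 7 (by norm_num)),
          sub_zero] at e
        rw [show (4 + 1 : ℕ) = 5 from rfl] at e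
        rw [e]
        have hD : xp x0 2 * (v * x0) - v * (xp x0 2 * x0) ∈ jpow F J 4 :=
          Submodule.sub_mem _
            (mul_mem' 4 (by norm_num) (m 2 (by norm_num)) (mul_mem' 2 (by norm_num) (mem_jpow_one v) (mem_jpow_one x0)))
            (mul_mem' 4 (by norm_num) (mem_jpow_one v) (mul_mem' 3 (by norm_num) (m 2 (by norm_num)) (mem_jpow_one x0)))
        have hD3 : xp x0 2 * (v * xp x0 4) - v * (xp x0 2 * xp x0 4) ∈ jpow F J 7 :=
          Submodule.sub_mem _
            (mul_mem' 7 (by norm_num) (m 2 (by norm_num)) (mul_mem' 5 (by norm_num) (mem_jpow_one v) (m 4 (by norm_num))))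
            (mul_mem' 7 (by norm_num) (mem_jpow_one v) (mul_mem' 6 (by norm_num) (m 2 (by norm_num)) (m 4 (by norm_num))))
        rw [M44 _ hD _ (m 4 (by norm_num)), V7 x0 _ hD3, add_zero]
      have key2 : ∀ a ∈ jpow F J 6, xp x0 2 * a = 0 := by
        intro a ha
        have hT : jpow F J 6 ≤ LinearMap.ker (LinearMap.mulLeft F (xp x0 2)) := by
          refine jpow_gen h2 hJ (by norm_num) _ (fun v b hb => ?_) (fun q hq b hb => ?_)
          · rw [LinearMap.mem_ker, LinearMap.mulLeft_apply]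
            obtain ⟨r, b', hb', rfl⟩ := lay 5 (by norm_num) (by norm_num) (by omega) b hb
            have hvb : v * b' ∈ jpow F J 8 := by
              rw [← e7]
              exact mul_mem' 7 (by norm_num) (mem_jpow_one v) hb'
            rw [mul_add, mul_add, mul_smul_comm, mul_smul_comm, key, smul_zero, zero_add]
            exact z9 (mul_mem' 9 (by norm_num) (m 2 (by norm_num)) hvb)
          · rw [LinearMap.mem_ker, LinearMap.mulLeft_apply]
            obtain ⟨r, b', hb', rfl⟩ := lay 4 (by norm_num) (by norm_num) (by omega) b hb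
            obtain ⟨s, q', hq', rfl⟩ := lay 2 (by norm_num) (by norm_num) (by omega) q hq
            have h1 : (s • xp x0 2) * b' ∈ jpow F J 8 := by
              rw [← e7]
              exact mul_mem' 7 (by norm_num) (Submodule.smul_mem _ s (m 2 (by norm_num))) hb'
            have h3 : q' * (r • xp x0 4 + b') ∈ jpow F J 8 := by
              rw [← e7]
              exact mul_mem' 7 (by norm_num) hq' hb
            rw [add_mul (s • xp x0 2), mul_add (s • xp x0 2), smul_mul_smul_comm,
              pm x0 (by norm_num) (by norm_num), mul_add, mul_add, mul_smul_comm,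
              pm x0 (by norm_num) (by norm_num), hcon, smul_zero, zero_add,
              z9 (mul_mem' 9 (by norm_num) (m 2 (by norm_num)) h1), zero_add]
            exact z9 (mul_mem' 9 (by norm_num) (m 2 (by norm_num)) h3)
        exact LinearMap.mem_ker.mp (hT ha)
      intro q hq a ha
      obtain ⟨s, q', hq', rfl⟩ := lay 2 (by norm_num) (by norm_num) (by omega) q hq
      rw [add_mul, smul_mul_assoc, key2 a ha, smul_zero, zero_add]
      exact z9 (mul_mem' 9 (by norm_num) hq' ha)
  · -- all layers are one-dimensional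
    have hY7 : HY F J 7 (jpow F J 8) := ⟨le_rfl, jpow_succ_le 7, by
      have h8 := jpow_succ_le (F := F) (J := J) 7
      have := Submodule.finrank_mono h8
      have hd : dlay F J 7 = 1 := by omega
      unfold dlay at hd
      rw [show (7 + 1 : ℕ) = 8 from rfl] at *
      omega⟩
    obtain ⟨y0, hy0⟩ := pow7 h2 hJ hY7 (by omega)
    obtain ⟨ψ, hψ, hψK⟩ := exists_fun _ _ hy0
    have gen7 : ∀ x : J, ψ (xp x 7) ≠ 0 → xp x 7 ∉ jpow F J (7 + 1) := fun x hx h =>
      hx (hψK _ h)
    have gen' : ∀ x : J, ψ (xp x 7) ≠ 0 → ∀ i, 1 ≤ i → i ≤ 7 → xp x i ∉ jpow F J (i + 1) :=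
      fun x hx i hi hi' => xp_notMem h2 hJ hi hi' (gen7 x hx)
    refine fin ?_ ?_
    · intro v a ha
      refine LinearMap.mem_ker.mp (dense_xp ψ y0 (by norm_num) hψ
        (LinearMap.ker (LinearMap.mulRight F a)) (fun x hx => ?_) v)
      rw [LinearMap.mem_ker, LinearMap.mulRight_apply]
      obtain ⟨r, b, hb, rfl⟩ := layer1 (by omega) _ (xp_mem x (by norm_num))
        (gen' x hx 7 (by norm_num) le_rfl) a ha
      rw [mul_add, mul_smul_comm, ← xp_succ x (by norm_num), hcon, smul_zero, zero_add]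
      exact z9 (mul_mem' 9 (by norm_num) (mem_jpow_one x) hb)
    · intro q hq a ha
      have hT : jpow F J 2 ≤ LinearMap.ker (LinearMap.mulRight F a) := by
        apply jpow_two_le h2
        refine dense_sq ψ y0 (by norm_num) hψ _ (fun x hx => ?_)
        rw [LinearMap.mem_ker, LinearMap.mulRight_apply]
        obtain ⟨r, b, hb, rfl⟩ := layer1 (by omega) _ (xp_mem x (by norm_num))
          (gen' x hx 6 (by norm_num) (by norm_num)) a ha
        rw [mul_add, mul_smul_comm, hsq, pm x (by norm_num) (by norm_num), hcon, smul_zero,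
          zero_add]
        exact z9 (mul_mem' 9 (by norm_num) (xp_mem x (by norm_num)) hb)
      exact LinearMap.mem_ker.mp (hT hq)

theorem pow8 (h2 : (2 : F) ≠ 0) (hJ : IsJordan J) {K : Submodule F J} (h : HY F J 8 K)
    (hs : dlay F J 2 + dlay F J 3 + dlay F J 4 + dlay F J 5 + dlay F J 6 + dlay F J 7 ≤ 6) :
    ∃ x : J, xp x 8 ∉ K := by
  obtain ⟨J', i1, i2, i3, i4, g, e, hfin, hJ', he, htop, hbot, hker, hsurj, hmul, hd⟩ :=
    exists_quo hJ h
  obtain ⟨x', hx'⟩ := pow8_zero h2 hJ' he htop hbot (by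
    rw [hd 2 (by norm_num), hd 3 (by norm_num), hd 4 (by norm_num), hd 5 (by norm_num),
      hd 6 (by norm_num), hd 7 (by norm_num)]
    exact hs)
  obtain ⟨x, rfl⟩ := hsurj x'
  refine ⟨x, fun hx => hx' ?_⟩
  rw [← xp_map g hmul, ← LinearMap.mem_ker, hker]
  exact hx

/-- `dim J = ∑ d_i` -/
theorem finrank_eq_sum (c : ℕ) (hbot : jpow F J (c + 1) = ⊥) :
    finrank F J = ∑ i ∈ Finset.range c, dlay F J (i + 1) := by
  have key : ∀ n, finrank F (jpow F J 1) =
      ∑ i ∈ Finset.range n, dlay F J (i + 1) + finrank F (jpow F J (n + 1)) := by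
    intro n
    induction n with
    | zero => simp
    | succ n ih =>
      rw [Finset.sum_range_succ, ih]
      have := Submodule.finrank_mono (jpow_succ_le (F := F) (J := J) (n + 1))
      unfold dlay
      omega
  have h := key c
  rw [hbot, finrank_bot, add_zero, jpow_one, finrank_top] at h
  exact h

/-- classes at least 9 are impossible -/
theorem class_le_eight (h2 : (2 : F) ≠ 0) (hJ : IsJordan J) {c : ℕ} {e : J} (he : e ≠ 0)
    (htop : jpow F J c = Submodule.span F {e}) (hbot : jpow F J (c + 1) = ⊥)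
    (hs : ∑ i ∈ Finset.Ico 2 c, dlay F J i ≤ 6) : c ≤ 8 := by
  by_contra hc
  have hn : IsNilpotentAlg F J := ⟨c + 1, by omega, hbot⟩
  have hne : ∀ i, i ≤ c → jpow F J i ≠ ⊥ := by
    intro i hi h
    have : jpow F J c ≤ ⊥ := by
      rw [← h]
      exact jpow_anti hi
    rw [htop] at this
    exact he ((Submodule.mem_bot F).1 (this (Submodule.mem_span_singleton_self e)))
  have nz : ∀ i, 1 ≤ i → i ≤ c → ¬ (dlay F J i = 0 ∧ dlay F J (i + 1) = 0) := by
    rintro i hi hic ⟨h, h'⟩
    exact hne i hic (stable2 h2 hJ hn hi (layer0 h) (layer0 h'))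
  have hsum : dlay F J 2 + dlay F J 3 + dlay F J 4 + dlay F J 5 + dlay F J 6 + dlay F J 7 +
      dlay F J 8 + ∑ i ∈ Finset.Ico 9 c, dlay F J i ≤ 6 := by
    have e1 : ∑ i ∈ Finset.Ico 2 c, dlay F J i =
        ∑ i ∈ Finset.Ico 2 9, dlay F J i + ∑ i ∈ Finset.Ico 9 c, dlay F J i :=
      (Finset.sum_Ico_consecutive _ (by norm_num) (by omega)).symm
    have e2 : ∑ i ∈ Finset.Ico 2 9, dlay F J i = dlay F J 2 + dlay F J 3 + dlay F J 4 +
        dlay F J 5 + dlay F J 6 + dlay F J 7 + dlay F J 8 := by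
      simp [Finset.sum_Ico_eq_sum_range, Finset.sum_range_succ]
    rw [e1, e2] at hs
    exact hs
  have d6 := d6_pos h2 hJ hn (hne 6 (by omega)) (by omega)
  obtain ⟨K, hK⟩ := exists_hyper (F := F) (J := J) 6 d6
  obtain ⟨x0, hx0⟩ := hK.pow6 h2 hJ (by omega)
  have gen : ∀ i, 1 ≤ i → i ≤ 6 → xp x0 i ∉ jpow F J (i + 1) :=
    fun i hi hi' => xp_notMem h2 hJ hi hi' (fun h => hx0 (hK.lo h))
  have d5 := dlay_pos_of x0 (by norm_num) (gen 5 (by norm_num) (by norm_num))
  have d4 := dlay_pos_of x0 (by norm_num) (gen 4 (by norm_num) (by norm_num))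
  have d3 := dlay_pos_of x0 (by norm_num) (gen 3 (by norm_num) (by norm_num))
  have d2 := dlay_pos_of x0 (by norm_num) (gen 2 (by norm_num) (by norm_num))
  rcases Nat.eq_zero_or_pos (dlay F J 7) with h7 | h7
  · have h8 : dlay F J 8 = 1 := by
      have h78 : ¬ (dlay F J 7 = 0 ∧ dlay F J 8 = 0) := nz 7 (by norm_num) (by omega)
      omega
    have hY8 : HY F J 8 (jpow F J 9) := ⟨le_rfl, jpow_succ_le 8, by
      have h9 := jpow_succ_le (F := F) (J := J) 8
      have := Submodule.finrank_mono h9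
      unfold dlay at h8
      rw [show (8 + 1 : ℕ) = 9 from rfl] at *
      omega⟩
    obtain ⟨y0, hy0⟩ := pow8 h2 hJ hY8 (by omega)
    apply hy0
    rw [xp_succ y0 (by norm_num)]
    have h : xp y0 7 ∈ jpow F J 8 := by
      have e7 := layer0 h7
      rw [show (7 + 1 : ℕ) = 8 from rfl] at e7
      rw [← e7]
      exact xp_mem y0 (by norm_num)
    exact mul_mem' 9 (by norm_num) (mem_jpow_one y0) h
  · have h8 : dlay F J 8 = 0 := by omega
    have hc9 : c = 9 := by
      by_contra hne9
      have h9 : dlay F J 9 ≤ ∑ i ∈ Finset.Ico 9 c, dlay F J i :=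
        Finset.single_le_sum (f := fun i => dlay F J i) (fun i _ => Nat.zero_le _)
          (Finset.mem_Ico.mpr ⟨le_rfl, by omega⟩)
      have h89 : ¬ (dlay F J 8 = 0 ∧ dlay F J 9 = 0) := nz 8 (by norm_num) (by omega)
      exact h89 ⟨h8, by omega⟩
    subst hc9
    have e8 := layer0 h8
    rw [show (8 + 1 : ℕ) = 9 from rfl] at e8
    have z10 : ∀ {a : J}, a ∈ jpow F J 10 → a = 0 := by
      intro a ha
      have ha' : a ∈ jpow F J (9 + 1) := ha
      rw [hbot] at ha'
      exact (Submodule.mem_bot F).1 ha'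
    have hY7 : HY F J 7 (jpow F J 8) := ⟨le_rfl, jpow_succ_le 7, by
      have h8 := jpow_succ_le (F := F) (J := J) 7
      have := Submodule.finrank_mono h8
      have hd : dlay F J 7 = 1 := by omega
      unfold dlay at hd
      rw [show (7 + 1 : ℕ) = 8 from rfl] at *
      omega⟩
    obtain ⟨y0, hy0⟩ := pow7 h2 hJ hY7 (by omega)
    obtain ⟨ψ, hψ, hψK⟩ := exists_fun _ _ hy0
    have gen7 : ∀ x : J, ψ (xp x 7) ≠ 0 → xp x 7 ∉ jpow F J (7 + 1) := fun x hx h =>
      hx (hψK _ h)
    apply hne 9 le_rfl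
    rw [eq_bot_iff]
    refine jpow_gen h2 hJ (by norm_num) ⊥ (fun v a ha => ?_) (fun q hq a ha => ?_)
    · rw [show (9 - 1 : ℕ) = 8 from rfl, e8] at ha
      rw [z10 (mul_mem' 10 (by norm_num) (mem_jpow_one v) ha)]
      exact Submodule.zero_mem _
    · rw [show (9 - 2 : ℕ) = 7 from rfl] at ha
      have hT : jpow F J 2 ≤ LinearMap.ker (LinearMap.mulRight F a) := by
        apply jpow_two_le h2
        refine dense_sq ψ y0 (by norm_num) hψ _ (fun x hx => ?_)
        rw [LinearMap.mem_ker, LinearMap.mulRight_apply]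
        obtain ⟨r, b, hb, rfl⟩ := layer1 (by omega) _ (xp_mem x (by norm_num)) (gen7 x hx) a ha
        rw [show (7 + 1 : ℕ) = 8 from rfl, e8] at hb
        have h9 : xp x 9 = 0 := by
          rw [xp_succ x (by norm_num)]
          have h : xp x 8 ∈ jpow F J 9 := by
            rw [← e8]
            exact xp_mem x (by norm_num)
          exact z10 (mul_mem' 10 (by norm_num) (mem_jpow_one x) h)
        have pm : xp x 2 * xp x 7 = xp x 9 := xp_mul F h2 hJ x (by norm_num) (by norm_num)
        rw [mul_add, mul_smul_comm, show x * x = xp x 2 from rfl, pm, h9, smul_zero, zero_add]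
        exact z10 (mul_mem' 10 (by norm_num) (xp_mem x (by norm_num)) hb)
      have hqa : q * a = 0 := LinearMap.mem_ker.mp (hT hq)
      rw [hqa]
      exact Submodule.zero_mem _

end JD
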