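import Pool.Agent.H9.JH.H3A
import Pool.Agent.H9.JH.H3B
import Pool.Agent.H9.JH.H3C
import Pool.Agent.H9.JH.H3E

set_option autoImplicit false

/-!
# JN H3G: the theorem on `dim D 3 ≤ 1` (class 6) for any number of letters

`H3g`: if `dim D 3 ≤ 1` and `dim D 1 ≥ 2` then `dim D 2 ≥ 6`. The proof is that of `H3D` (three letters); the determinant
argument is applied to three letters `a, b, c` with `a² Γ(b², c²) ≠ 0`.
-/

namespace JD

universe u

variable {F : Type u} [Field F] {A : Type u} [NonUnitalNonAssocCommRing A] [Module F A]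
  [IsScalarTower F A A] [SMulCommClass F A A] {D : ℕ → Submodule F A}

theorem H3G_core (hG : GJ F A 6 D) (Γ : A →ₗ[F] A →ₗ[F] A)
    (hΓ : ∀ q ∈ D 2, ∀ q' ∈ D 2, Γ q q' ∈ D 4)
    (hcomm : ∀ q ∈ D 2, ∀ q' ∈ D 2, Γ q q' = Γ q' q)
    (hsym : ∀ p ∈ D 2, ∀ q ∈ D 2, ∀ q' ∈ D 2, p * Γ q q' = q * Γ p q')
    (hV : ∀ v ∈ D 1, ∀ w ∈ D 1, ∀ q ∈ D 2, ∀ q' ∈ D 2, v * (w * Γ q q') = (v * w) * Γ q q')
    (hv : ∀ v ∈ D 1, ∀ q ∈ D 2, v * Γ (v * v) q = 0)
    (e1 e2 e3 : A) (m1 : e1 ∈ D 1) (m2 : e2 ∈ D 1) (m3 : e3 ∈ D 1)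
    (ht : (e1 * e1) * Γ (e2 * e2) (e3 * e3) ≠ 0) :
    6 ≤ Module.finrank F (D 2) ∧ 6 ≤ Module.finrank F (D 4) := by
  have := hG.fin
  have two := hG.two
  have mm : ∀ v ∈ D 1, ∀ w ∈ D 1, v * w ∈ D 2 := fun v hv' w hw =>
    hG.mul_mem 1 1 le_rfl le_rfl v hv' w hw
  obtain ⟨u, -, -, φ, -, hφ⟩ := exists_coord hG.top
  have m6 : ∀ p ∈ D 2, ∀ q ∈ D 2, ∀ r ∈ D 2, p * Γ q r ∈ D 6 := fun p hp q hq r hr =>
    hG.mul_mem 2 4 (by norm_num) (by norm_num) p hp _ (hΓ q hq r hr)
  have z6 : ∀ p ∈ D 2, ∀ q ∈ D 2, ∀ r ∈ D 2, φ (p * Γ q r) = 0 → p * Γ q r = 0 := by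
    intro p hp q hq r hr h
    rw [hφ _ (m6 p hp q hq r hr), h, zero_smul]
  -- the rules
  have R1 : ∀ v ∈ D 1, ∀ y ∈ D 1, ∀ q ∈ D 2, (v * y) * Γ (v * v) q = 0 := by
    intro v hv' y hy q hq
    rw [mul_comm v y, ← hV y hy v hv' _ (mm v hv' v hv') q hq, hv v hv' q hq, mul_zero]
  have R2 : ∀ v ∈ D 1, ∀ w ∈ D 1, ∀ y ∈ D 1, ∀ q ∈ D 2,
      2 * φ ((v * w) * Γ (v * y) q) + φ ((v * v) * Γ (w * y) q) = 0 := by
    intro v hv' w hw y hy q hq
    have a1 := congrArg φ (R1 _ ((D 1).add_mem hv' hw) y hy q hq)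
    have a2 := congrArg φ (R1 _ ((D 1).sub_mem hv' hw) y hy q hq)
    have b1 := congrArg φ (R1 v hv' y hy q hq)
    have b2 := congrArg φ (R1 w hw y hy q hq)
    simp only [add_mul, mul_add, sub_mul, mul_sub, map_add, map_sub, LinearMap.add_apply,
      LinearMap.sub_apply, map_zero, mul_comm w v] at a1 a2 b1 b2
    have c1 : φ (v * y * Γ (v * w) q) = φ ((v * w) * Γ (v * y) q) := by
      rw [hsym _ (mm v hv' y hy) _ (mm v hv' w hw) q hq]
    have c2 : φ (w * y * Γ (v * v) q) = φ ((v * v) * Γ (w * y) q) := by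
      rw [hsym _ (mm w hw y hy) _ (mm v hv' v hv') q hq]
    rw [← c1, ← c2]
    apply mul_left_cancel₀ two
    linear_combination a1 - a2 - 2 * b2
  -- the six products
  let s : Fin 6 → A := ![e1 * e1, e2 * e2, e3 * e3, e2 * e3, e1 * e3, e1 * e2]
  have hs : ∀ i, s i ∈ D 2 := by
    intro i
    fin_cases i
    · exact mm _ m1 _ m1
    · exact mm _ m2 _ m2
    · exact mm _ m3 _ m3
    · exact mm _ m2 _ m3
    · exact mm _ m1 _ m3
    · exact mm _ m1 _ m2
  let f : Fin 6 → Fin 6 → Fin 6 → F := fun i j k => φ (s i * Γ (s j) (s k))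
  have key := H3E_val two f
    (fun i j k => by
      change φ (s i * Γ (s j) (s k)) = φ (s j * Γ (s i) (s k))
      rw [hsym _ (hs i) _ (hs j) _ (hs k)])
    (fun i j k => by
      change φ (s i * Γ (s j) (s k)) = φ (s i * Γ (s k) (s j))
      rw [hcomm _ (hs j) _ (hs k)])
    (fun k => by
      change φ ((e1 * e1) * Γ (e1 * e1) (s k)) = 0
      rw [R1 e1 m1 e1 m1 _ (hs k), map_zero])
    (fun k => by
      change φ ((e1 * e1) * Γ (e1 * e3) (s k)) = 0
      rw [hsym _ (mm _ m1 _ m1) _ (mm _ m1 _ m3) _ (hs k), R1 e1 m1 e3 m3 _ (hs k), map_zero])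
    (fun k => by
      change φ ((e1 * e1) * Γ (e1 * e2) (s k)) = 0
      rw [hsym _ (mm _ m1 _ m1) _ (mm _ m1 _ m2) _ (hs k), R1 e1 m1 e2 m2 _ (hs k), map_zero])
    (fun k => by
      change φ ((e2 * e2) * Γ (e2 * e2) (s k)) = 0
      rw [R1 e2 m2 e2 m2 _ (hs k), map_zero])
    (fun k => by
      change φ ((e2 * e2) * Γ (e2 * e3) (s k)) = 0
      rw [hsym _ (mm _ m2 _ m2) _ (mm _ m2 _ m3) _ (hs k), R1 e2 m2 e3 m3 _ (hs k), map_zero])
    (fun k => by
      change φ ((e2 * e2) * Γ (e1 * e2) (s k)) = 0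
      rw [hsym _ (mm _ m2 _ m2) _ (mm _ m1 _ m2) _ (hs k), mul_comm e1 e2,
        R1 e2 m2 e1 m1 _ (hs k), map_zero])
    (fun k => by
      change φ ((e3 * e3) * Γ (e3 * e3) (s k)) = 0
      rw [R1 e3 m3 e3 m3 _ (hs k), map_zero])
    (fun k => by
      change φ ((e3 * e3) * Γ (e2 * e3) (s k)) = 0
      rw [hsym _ (mm _ m3 _ m3) _ (mm _ m2 _ m3) _ (hs k), mul_comm e2 e3,
        R1 e3 m3 e2 m2 _ (hs k), map_zero])
    (fun k => by
      change φ ((e3 * e3) * Γ (e1 * e3) (s k)) = 0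
      rw [hsym _ (mm _ m3 _ m3) _ (mm _ m1 _ m3) _ (hs k), mul_comm e1 e3,
        R1 e3 m3 e1 m1 _ (hs k), map_zero])
    (fun k => by
      have := R2 e1 m1 e2 m2 e2 m2 _ (hs k)
      exact this)
    (fun k => by
      have := R2 e1 m1 e3 m3 e2 m2 _ (hs k)
      rw [mul_comm e3 e2] at this
      exact this)
    (fun k => by
      have := R2 e1 m1 e3 m3 e3 m3 _ (hs k)
      exact this)
    (fun k => by
      have := R2 e2 m2 e3 m3 e1 m1 _ (hs k)
      rw [mul_comm e3 e1, mul_comm e2 e1] at this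
      exact this)
    (fun k => by
      have := R2 e2 m2 e3 m3 e3 m3 _ (hs k)
      exact this)
    (fun k => by
      have := R2 e3 m3 e2 m2 e1 m1 _ (hs k)
      rw [mul_comm e3 e2, mul_comm e3 e1, mul_comm e2 e1] at this
      exact this)
  obtain ⟨-, k0, k1, k2, k3, k4, k5, k6⟩ := key
  · have ht' : f 3 4 5 ≠ 0 := by
      intro h
      apply ht
      exact z6 _ (hs 0) _ (hs 1) _ (hs 2) (k0 h 0 1 2)
    have h4 : (4 : F) * f 3 4 5 ≠ 0 := by
      apply mul_ne_zero _ ht'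
      have : (4 : F) = 2 * 2 := by norm_num
      rw [this]
      exact mul_ne_zero two two
    let r : Fin 6 → A := ![Γ (s 1) (s 2), Γ (s 0) (s 2), Γ (s 0) (s 1), Γ (s 4) (s 5),
      Γ (s 3) (s 5), Γ (s 3) (s 4)]
    let c : Fin 6 → F := ![4 * f 3 4 5, 4 * f 3 4 5, 4 * f 3 4 5, f 3 4 5, f 3 4 5, f 3 4 5]
    have hr : ∀ i, r i ∈ D 4 := by
      intro i
      fin_cases i
      · exact hΓ _ (hs 1) _ (hs 2)
      · exact hΓ _ (hs 0) _ (hs 2)
      · exact hΓ _ (hs 0) _ (hs 1)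
      · exact hΓ _ (hs 4) _ (hs 5)
      · exact hΓ _ (hs 3) _ (hs 5)
      · exact hΓ _ (hs 3) _ (hs 4)
    have hc : ∀ j, c j ≠ 0 := by
      intro j
      fin_cases j
      · exact h4
      · exact h4
      · exact h4
      · exact ht'
      · exact ht'
      · exact ht'
    have hsr : ∀ i j, φ (s i * r j) = if i = j then c j else 0 := by
      intro i j
      fin_cases j
      · exact k1 i
      · exact k2 i
      · exact k3 i
      · exact k4 i
      · exact k5 i
      · exact k6 i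
    have l2 := H3E_li s hs (fun j => φ ∘ₗ LinearMap.mulRight F (r j)) c hc
      (fun j i => by simpa using hsr i j)
    have l4 := H3E_li r hr (fun j => φ ∘ₗ LinearMap.mulLeft F (s j)) c hc
      (fun j i => by
        have := hsr j i
        simp only [LinearMap.comp_apply, LinearMap.mulLeft_apply]
        rw [this]
        by_cases hij : i = j
        · subst hij; simp
        · rw [if_neg (fun h => hij h.symm), if_neg hij])
    have f2 := l2.fintype_card_le_finrank
    have f4 := l4.fintype_card_le_finrank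
    rw [Fintype.card_fin] at f2 f4
    exact ⟨f2, f4⟩


theorem H3G_det (hG : GJ F A 6 D) (Γ : A →ₗ[F] A →ₗ[F] A)
    (hΓ : ∀ q ∈ D 2, ∀ q' ∈ D 2, Γ q q' ∈ D 4)
    (hcomm : ∀ q ∈ D 2, ∀ q' ∈ D 2, Γ q q' = Γ q' q)
    (hsym : ∀ p ∈ D 2, ∀ q ∈ D 2, ∀ q' ∈ D 2, p * Γ q q' = q * Γ p q')
    (hV : ∀ v ∈ D 1, ∀ w ∈ D 1, ∀ q ∈ D 2, ∀ q' ∈ D 2, v * (w * Γ q q') = (v * w) * Γ q q')
    (hv : ∀ v ∈ D 1, ∀ q ∈ D 2, v * Γ (v * v) q = 0)
    (hne : ¬ ∀ q ∈ D 2, ∀ q' ∈ D 2, Γ q q' = 0) :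
    6 ≤ Module.finrank F (D 2) ∧ 6 ≤ Module.finrank F (D 4) := by
  by_contra hcon
  apply hne
  have h0 : ∀ a ∈ D 1, ∀ b ∈ D 1, ∀ c ∈ D 1, (a * a) * Γ (b * b) (c * c) = 0 := by
    intro a ha b hb c hc
    by_contra ht
    exact hcon (H3G_core hG Γ hΓ hcomm hsym hV hv a b c ha hb hc ht)
  have mm : ∀ v ∈ D 1, ∀ w ∈ D 1, v * w ∈ D 2 := fun v hv' w hw =>
    hG.mul_mem 1 1 le_rfl le_rfl v hv' w hw
  have h1 : ∀ p ∈ D 2, ∀ b ∈ D 1, ∀ c ∈ D 1, p * Γ (b * b) (c * c) = 0 := by
    intro p hp b hb c hc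
    have hT : D 2 ≤ LinearMap.ker ((LinearMap.mul F A).flip (Γ (b * b) (c * c))) := by
      apply hG.sq
      intro a ha
      rw [LinearMap.mem_ker]
      exact h0 a ha b hb c hc
    exact LinearMap.mem_ker.mp (hT hp)
  have h2 : ∀ p ∈ D 2, ∀ q ∈ D 2, ∀ c ∈ D 1, p * Γ q (c * c) = 0 := by
    intro p hp q hq c hc
    have hT : D 2 ≤ LinearMap.ker ((LinearMap.mul F A p) ∘ₗ (Γ.flip (c * c))) := by
      apply hG.sq
      intro b hb
      rw [LinearMap.mem_ker]
      exact h1 p hp b hb c hc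
    exact LinearMap.mem_ker.mp (hT hq)
  have h3 : ∀ p ∈ D 2, ∀ q ∈ D 2, ∀ r ∈ D 2, p * Γ q r = 0 := by
    intro p hp q hq r hr
    have hT : D 2 ≤ LinearMap.ker ((LinearMap.mul F A p) ∘ₗ (Γ q)) := by
      apply hG.sq
      intro c hc
      rw [LinearMap.mem_ker]
      exact h2 p hp q hq c hc
    exact LinearMap.mem_ker.mp (hT hr)
  intro q hq r hr
  refine hG.nd 4 (by norm_num) (by norm_num) _ (hΓ q hq r hr) ?_ ?_
  · intro v hv'
    refine hG.nd 5 (by norm_num) (by norm_num) _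
      (hG.mul_mem 1 4 (by norm_num) (by norm_num) v hv' _ (hΓ q hq r hr)) ?_ ?_
    · intro w hw
      rw [hV w hw v hv' q hq r hr]
      exact h3 _ (mm w hw v hv') q hq r hr
    · intro p hp
      exact hG.above 7 (by norm_num) _ (hG.mul_mem 2 5 (by norm_num) (by norm_num) p hp _
        (hG.mul_mem 1 4 (by norm_num) (by norm_num) v hv' _ (hΓ q hq r hr)))
  · intro p hp
    exact h3 p hp q hq r hr

private theorem H3G_zero (hG : GJ F A 6 D)
    (h3 : ∀ a ∈ D 3, a = 0) :
    6 ≤ Module.finrank F (D 2) ∧ 6 ≤ Module.finrank F (D 4) := by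
  have hvq : ∀ v ∈ D 1, ∀ q ∈ D 2, v * q = 0 := fun v hv q hq =>
    h3 _ (hG.mul_mem 1 2 le_rfl (by norm_num) v hv q hq)
  have hqv : ∀ v ∈ D 1, ∀ q ∈ D 2, q * v = 0 := fun v hv q hq => by
    rw [mul_comm]; exact hvq v hv q hq
  refine H3G_det hG (LinearMap.mul F A) ?_ ?_ ?_ ?_ ?_ ?_
  · intro q hq q' hq'
    exact hG.mul_mem 2 2 (by norm_num) (by norm_num) q hq q' hq'
  · intro q _ q' _
    exact mul_comm q q'
  · intro p hp q hq q' hq'
    show p * (q * q') = q * (p * q')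
    have hT : D 2 ≤ LinearMap.ker ((LinearMap.mul F A).flip (q * q') -
        (LinearMap.mul F A q) ∘ₗ ((LinearMap.mul F A).flip q')) := by
      apply hG.gen2
      intro v hv w hw
      rw [LinearMap.mem_ker]
      show (v * w) * (q * q') - q * ((v * w) * q') = 0
      have h := gJ3 F hG.two hG.jordan v w q q'
      rw [hvq w hw q hq, hqv v hv q hq] at h
      simp only [zero_mul, mul_zero, add_zero] at h
      rw [h, sub_self]
    have h := hT hp
    rw [LinearMap.mem_ker] at h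
    exact sub_eq_zero.mp h
  · intro v hv w hw q hq q' hq'
    show v * (w * (q * q')) = (v * w) * (q * q')
    have h := gJ3 F hG.two hG.jordan v q q' w
    rw [hvq v hv q hq, hqv v hv q' hq'] at h
    simp only [zero_mul, mul_zero, add_zero, zero_add] at h
    rw [mul_comm w (q * q'), ← h, mul_comm (v * w)]
  · intro v hv q hq
    show v * ((v * v) * q) = 0
    rw [← gJ1 hG.jordan v q, hvq v hv q hq, mul_zero]
  · intro h
    have h4 : D 4 ≤ ⊥ := by
      refine hG.gen 4 (by norm_num) ⊥ ?_ ?_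
      · intro v _ a ha
        rw [h3 a ha, mul_zero]
        exact Submodule.zero_mem _
      · intro q hq q' hq'
        have : q * q' = 0 := h q hq q' hq'
        rw [this]
        exact Submodule.zero_mem _
    have h5 : D 5 ≤ ⊥ := by
      refine hG.gen 5 (by norm_num) ⊥ ?_ ?_
      · intro v _ a ha
        have : a = 0 := (Submodule.mem_bot F).mp (h4 ha)
        rw [this, mul_zero]
        exact Submodule.zero_mem _
      · intro q hq a ha
        rw [h3 a ha, mul_zero]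
        exact Submodule.zero_mem _
    have h6 : D 6 ≤ ⊥ := by
      refine hG.gen 6 (by norm_num) ⊥ ?_ ?_
      · intro v _ a ha
        have : a = 0 := (Submodule.mem_bot F).mp (h5 ha)
        rw [this, mul_zero]
        exact Submodule.zero_mem _
      · intro q hq a ha
        have : a = 0 := (Submodule.mem_bot F).mp (h4 ha)
        rw [this, mul_zero]
        exact Submodule.zero_mem _
    have ht := hG.top
    rw [le_bot_iff.mp h6, finrank_bot] at ht
    exact zero_ne_one ht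

omit [IsScalarTower F A A] [SMulCommClass F A A] in
private theorem H3G_two {x y : A} (h2 : (2 : F) ≠ 0) (h : (2 : F) • x = (2 : F) • y) : x = y := by
  have := congrArg (fun t => (2 : F)⁻¹ • t) h
  simpa [smul_smul, inv_mul_cancel₀ h2] using this

private theorem H3G_main (hG : GJ F A 6 D)
    (h1 : 2 ≤ Module.finrank F (D 1))
    (a : A) (κ : A →ₗ[F] F)
    (h3 : ∀ h ∈ D 3, h = κ h • a) (g : A) (hg : g ∈ D 4) (η : A →ₗ[F] F)
    (hη : ∀ v ∈ D 1, v * a = η v • g) (e : A) (he : e ∈ D 1) (hηe : η e = 1)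
    (hc : ∀ h ∈ D 1, ∀ x ∈ D 1, ∀ y ∈ D 1, κ (h * (x * y)) = η h * η x * η y) :
    6 ≤ Module.finrank F (D 2) ∧ 6 ≤ Module.finrank F (D 4) := by
  have := hG.fin
  have h2 := hG.two
  have hJ := hG.jordan
  obtain ⟨ε, hε⟩ : ∃ ε : A →ₗ[F] F, ∀ q, ε q = κ (e * q) :=
    ⟨κ ∘ₗ (LinearMap.mul F A e), fun q => rfl⟩
  -- (f1)
  have f1 : ∀ x ∈ D 1, ∀ y ∈ D 1, ε (x * y) = η x * η y := by
    intro x hx y hy
    rw [hε, hc e he x hx y hy, hηe, one_mul]
  -- (f2)
  have f2 : ∀ v ∈ D 1, ∀ q ∈ D 2, v * q = (η v * ε q) • a := by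
    intro v hv q hq
    have h := h3 (v * q) (hG.mul_mem 1 2 le_rfl (by norm_num) v hv q hq)
    have hT : D 2 ≤ LinearMap.ker (κ ∘ₗ (LinearMap.mul F A v) - η v • ε) := by
      apply hG.gen2
      intro x hx y hy
      rw [LinearMap.mem_ker]
      show κ (v * (x * y)) - η v * ε (x * y) = 0
      rw [hc v hv x hx y hy, f1 x hx y hy]
      ring
    have h4 := hT hq
    rw [LinearMap.mem_ker] at h4
    have h5 : κ (v * q) = η v * ε q := sub_eq_zero.mp h4
    rw [h5] at h
    exact h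
  have f2' : ∀ v ∈ D 1, ∀ q ∈ D 2, q * v = (η v * ε q) • a := by
    intro v hv q hq
    rw [mul_comm]; exact f2 v hv q hq
  have hη' : ∀ v ∈ D 1, a * v = η v • g := by
    intro v hv
    rw [mul_comm]; exact hη v hv
  have hee : e * e ∈ D 2 := hG.mul_mem 1 1 le_rfl le_rfl e he e he
  have hεee : ε (e * e) = 1 := by rw [f1 e he e he, hηe, one_mul]
  -- (5a)
  have f5a : ∀ x ∈ D 1, ∀ y ∈ D 1, ∀ h ∈ D 1, ∀ q ∈ D 2,
      (η h * ε q) • ((x * y) * a) + (η y * ε q) • ((x * h) * a) + (η x * ε q) • ((y * h) * a) =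
      (η h * η x * η y) • (q * a) + (η y * ε q * η h) • (x * g) + (η x * ε q * η h) • (y * g) := by
    intro x hx y hy h hh q hq
    have k := gJ3 F h2 hJ x y q h
    have hxy : x * y ∈ D 2 := hG.mul_mem 1 1 le_rfl le_rfl x hx y hy
    rw [f2' h hh q hq, f2 y hy q hq, f2' x hx q hq, f2' h hh (x * y) hxy, f1 x hx y hy] at k
    simp only [smul_mul_assoc, mul_smul_comm] at k
    rw [hη' h hh, mul_comm a (x * h), mul_comm a (y * h)] at k
    simp only [mul_smul_comm, smul_smul] at k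
    linear_combination (norm := module) k
  -- (f4)
  have f40 : (e * e) * a = e * g := by
    have k := f5a e he e he e he (e * e) hee
    rw [hηe, hεee] at k
    apply H3G_two h2
    linear_combination (norm := module) k
  have f4 : ∀ q ∈ D 2, q * a = ε q • (e * g) := by
    intro q hq
    have k := f5a e he e he e he q hq
    rw [hηe, f40] at k
    linear_combination (norm := module) -k
  -- (f5)
  have f5 : ∀ v ∈ D 1, v * g = η v • (e * g) := by
    intro v hv
    have k := f5a v hv e he e he (e * e) hee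
    rw [f4 _ (hG.mul_mem 1 1 le_rfl le_rfl v hv e he), f1 v hv e he, f40, hηe, hεee] at k
    linear_combination (norm := module) -k
  -- degree 6
  have f6 : (e * e) * g = e * (e * g) := by
    have k := gJ1 hJ e a
    rw [hη e he, f40, hηe, one_smul] at k
    exact k
  have f7a : ∀ x ∈ D 1, ∀ y ∈ D 1, ∀ z ∈ D 1,
      (η x * η y * η z) • (a * a) = η z • ((x * y) * g) + η y • ((x * z) * g) + η x • ((y * z) * g)
        - (η y * η z) • (x * (e * g)) - (η x * η z) • (y * (e * g)) := by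
    intro x hx y hy z hz
    have k := gJ4 F h2 hJ x y z a
    have hxy : x * y ∈ D 2 := hG.mul_mem 1 1 le_rfl le_rfl x hx y hy
    rw [f2' z hz (x * y) hxy, f1 x hx y hy, hη z hz, hη y hy, hη x hx] at k
    simp only [smul_mul_assoc, mul_smul_comm] at k
    rw [f5 z hz] at k
    simp only [mul_smul_comm, smul_smul] at k
    linear_combination (norm := module) k
  have f70 : e * (e * g) = a * a := by
    have k := f7a e he e he e he
    rw [hηe, f6] at k
    linear_combination (norm := module) -k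
  have f71 : ∀ z ∈ D 1, (e * z) * g = η z • (a * a) := by
    intro z hz
    have k := f7a e he e he z hz
    rw [hηe, f6, f70] at k
    apply H3G_two h2
    linear_combination (norm := module) -k
  have f72 : ∀ x ∈ D 1, ∀ z ∈ D 1, (x * z) * g = η z • (x * (e * g)) := by
    intro x hx z hz
    have k := f7a x hx e he z hz
    rw [hηe, mul_comm x e, f71 x hx, f71 z hz, f70] at k
    linear_combination (norm := module) -k
  have f7 : ∀ z ∈ D 1, z * (e * g) = η z • (a * a) := by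
    intro z hz
    have k := f72 z hz e he
    rw [hηe, one_smul, mul_comm z e, f71 z hz] at k
    exact k.symm
  have f8 : ∀ q ∈ D 2, q * g = ε q • (a * a) := by
    intro q hq
    have hT : D 2 ≤ LinearMap.ker ((LinearMap.mul F A).flip g - ε.smulRight (a * a)) := by
      apply hG.gen2
      intro x hx y hy
      rw [LinearMap.mem_ker]
      show (x * y) * g - ε (x * y) • (a * a) = 0
      rw [f72 x hx y hy, f7 x hx, f1 x hx y hy, smul_smul, mul_comm (η y), sub_self]
    have h := hT hq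
    rw [LinearMap.mem_ker] at h
    exact sub_eq_zero.mp h
  have f4' : ∀ q ∈ D 2, a * q = ε q • (e * g) := by
    intro q hq
    rw [mul_comm]; exact f4 q hq
  -- products of `D 2` and `D 4`
  have f9 : ∀ p ∈ D 2, ∀ q ∈ D 2, ∀ q' ∈ D 2, p * (q * q') = q * (p * q') := by
    intro p hp q hq q' hq'
    have hT : D 2 ≤ LinearMap.ker ((LinearMap.mul F A).flip (q * q') -
        (LinearMap.mul F A q) ∘ₗ ((LinearMap.mul F A).flip q')) := by
      apply hG.gen2
      intro v hv w hw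
      rw [LinearMap.mem_ker]
      show (v * w) * (q * q') - q * ((v * w) * q') = 0
      have k := gJ3 F h2 hJ v w q q'
      rw [f2 w hw q hq, f2 v hv q' hq', f2' v hv q hq, f2 w hw q' hq'] at k
      simp only [smul_mul_assoc, mul_smul_comm] at k
      rw [f4' q' hq'] at k
      simp only [mul_smul_comm] at k
      rw [f7 v hv, f7 w hw] at k
      simp only [smul_smul] at k
      linear_combination (norm := module) k
    have h := hT hp
    rw [LinearMap.mem_ker] at h
    exact sub_eq_zero.mp h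
  have f10 : ∀ v ∈ D 1, ∀ w ∈ D 1, ∀ q ∈ D 2, ∀ q' ∈ D 2,
      v * (w * (q * q')) = (v * w) * (q * q') := by
    intro v hv w hw q hq q' hq'
    have k := gJ3 F h2 hJ v q q' w
    rw [f2 v hv q hq, f2' w hw q' hq', f2' v hv q' hq', f2' w hw q hq] at k
    simp only [smul_mul_assoc, mul_smul_comm] at k
    rw [hη' w hw] at k
    simp only [mul_smul_comm] at k
    rw [f8 q hq, f8 q' hq', mul_comm (q * q') w, mul_comm (q * q') (v * w)] at k
    simp only [smul_smul] at k
    linear_combination (norm := module) -k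
  let Γ : A →ₗ[F] A →ₗ[F] A := LinearMap.mk₂ F (fun q q' => q * q' - (ε q * ε q') • g)
    (by intro x y z; rw [add_mul, map_add]; module)
    (by intro r x y; rw [smul_mul_assoc, map_smul, smul_eq_mul]; module)
    (by intro x y z; rw [mul_add, map_add]; module)
    (by intro r x y; rw [mul_smul_comm, map_smul, smul_eq_mul]; module)
  have hΓ : ∀ q q', Γ q q' = q * q' - (ε q * ε q') • g := fun _ _ => rfl
  refine H3G_det hG Γ ?_ ?_ ?_ ?_ ?_ ?_
  · intro q hq q' hq'
    rw [hΓ]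
    exact Submodule.sub_mem _ (hG.mul_mem 2 2 (by norm_num) (by norm_num) q hq q' hq')
      (Submodule.smul_mem _ _ hg)
  · intro q _ q' _
    rw [hΓ, hΓ, mul_comm q q', mul_comm (ε q)]
  · intro p hp q hq q' hq'
    rw [hΓ, hΓ, mul_sub, mul_sub, mul_smul_comm, mul_smul_comm, f8 p hp, f8 q hq,
      f9 p hp q hq q' hq']
    module
  · intro v hv w hw q hq q' hq'
    have hvw : v * w ∈ D 2 := hG.mul_mem 1 1 le_rfl le_rfl v hv w hw
    rw [hΓ, mul_sub, mul_sub, mul_sub, mul_smul_comm, mul_smul_comm, mul_smul_comm, f8 _ hvw,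
      f10 v hv w hw q hq q' hq', f5 w hw, mul_smul_comm, f7 v hv, f1 v hv w hw]
    module
  · intro v hv q hq
    have hvv : v * v ∈ D 2 := hG.mul_mem 1 1 le_rfl le_rfl v hv v hv
    rw [hΓ, mul_sub, ← gJ1 hJ v q, f2 v hv q hq, mul_smul_comm, mul_smul_comm, f4 _ hvv, f5 v hv,
      f1 v hv v hv]
    module
  · intro h0
    obtain ⟨w, hw, hw0, hηw⟩ : ∃ w ∈ D 1, w ≠ 0 ∧ η w = 0 := by
      have hr := LinearMap.finrank_range_add_finrank_ker (η.domRestrict (D 1))
      have hr1 : Module.finrank F (LinearMap.range (η.domRestrict (D 1))) ≤ 1 := by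
        have := Submodule.finrank_le (LinearMap.range (η.domRestrict (D 1)))
        rwa [Module.finrank_self] at this
      have hr2 : 0 < Module.finrank F (LinearMap.ker (η.domRestrict (D 1))) := by omega
      rw [Module.finrank_pos_iff] at hr2
      obtain ⟨⟨⟨w, hw⟩, hwk⟩, hne⟩ := exists_ne (0 : LinearMap.ker (η.domRestrict (D 1)))
      refine ⟨w, hw, ?_, ?_⟩
      · rintro rfl
        apply hne
        rfl
      · rw [LinearMap.mem_ker] at hwk
        exact hwk
    apply hw0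
    apply hG.nd 1 le_rfl (by norm_num) w hw
    · intro v hv
      have hwv : w * v ∈ D 2 := hG.mul_mem 1 1 le_rfl le_rfl w hw v hv
      have hε0 : ε (w * v) = 0 := by rw [f1 w hw v hv, hηw, zero_mul]
      rw [mul_comm]
      apply hG.nd 2 (by norm_num) (by norm_num) _ hwv
      · intro z hz
        rw [f2 z hz _ hwv, hε0, mul_zero, zero_smul]
      · intro q hq
        have h := h0 q hq _ hwv
        rw [hΓ, hε0, mul_zero, zero_smul, sub_zero] at h
        exact h
    · intro q hq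
      rw [f2' w hw q hq, hηw, zero_mul, zero_smul]

theorem H3g (hG : GJ F A 6 D) (h1 : 2 ≤ Module.finrank F (D 1))
    (h3 : Module.finrank F (D 3) ≤ 1) :
    6 ≤ Module.finrank F (D 2) ∧ 6 ≤ Module.finrank F (D 4) := by
  have := hG.fin
  rcases Nat.lt_or_ge (Module.finrank F (D 3)) 1 with h | h
  · apply H3G_zero hG
    have h0 : Module.finrank F (D 3) = 0 := by omega
    rw [Submodule.finrank_eq_zero] at h0
    intro a ha
    rw [h0, Submodule.mem_bot] at ha
    exact ha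
  · have h0 : Module.finrank F (D 3) = 1 := by omega
    obtain ⟨a, ha, ha0, κ, hκ, hκ'⟩ := exists_coord h0
    rcases H3A_rank hG a κ ha hκ hκ' with h4 | ⟨g, hg, hg0, η, hη, e, he, hηe⟩
    · exact (H3A_ne hG a κ ha hκ hκ' h4).elim
    · obtain ⟨c0, hc0, hc⟩ := H3C hG (by norm_num) a κ ha hκ hκ' g hg hg0 η hη e he hηe
      refine H3G_main hG h1 (c0 • a) (c0⁻¹ • κ) ?_ (c0 • g)
        (Submodule.smul_mem _ _ hg) η ?_ e he hηe ?_
      · intro h5 hh
        rw [LinearMap.smul_apply, smul_eq_mul, smul_smul, mul_comm (c0⁻¹), mul_assoc,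
          inv_mul_cancel₀ hc0, mul_one]
        exact hκ' h5 hh
      · intro v hv
        rw [mul_smul_comm, hη v hv, smul_smul, smul_smul, mul_comm]
      · intro h5 hh x hx y hy
        rw [LinearMap.smul_apply, smul_eq_mul, hc h5 hh x hx y hy]
        field_simp

end JD
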