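import Pool.Agent.H9.JH.PenN
import Pool.Agent.H9.JH.PenA

set_option autoImplicit false

/-!
# JN Sev6: class 7, small layers: `D 6 ≠ 0`

`GJ7_D6`: `GJ F A 7 D` with `d2 + d3 + d4 + d5 ≤ 6` implies `D 6 ≠ ⊥`.

PROOF. Let `D 6 = 0`. (F2) `x²(x g) = 0`. (F3) `D 3 D 4 = 0` (`gJ4`, `gJ3`). (F4) `p(q h) = q(p h)` on `D 3`.
(F5) `q'(q''(a q))` is symmetric in `q', q''` and antisymmetric in `q, q'`, so `0`. (F6) `D 2 D 3 = 0`.
(F8) `p(c(q'q'')) + q''(c(pq')) + q'(c(pq'')) = 0`. (F9) `c(d h) = d(c h)` for `h ∈ D 3`.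
`d5 ≤ 1`: (F2) gives `D 2 D 5 = 0`. `d5 ≥ 2`: `D 5` embeds in `(D 2)*`, so `d5 = 2` and `d2 + d3 + d4 ≤ 4`; if `d2 = 2` the pencil lemma
gives `d4 ≤ 1`; so `D 4 = F g`, `D 5 = V g`; (F9) gives `D 3 = 0`; (F8) gives `D 2 D 2 = 0`; so `D 4 = 0`: contradiction.
-/

namespace JD

universe u

variable {F : Type u} [Field F] {A : Type u} [NonUnitalNonAssocCommRing A] [Module F A]
  [IsScalarTower F A A] [SMulCommClass F A A] {D : ℕ → Submodule F A}

open Module

/-- the rules -/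
private structure S6 (F : Type u) [Field F] {A : Type u} [NonUnitalNonAssocCommRing A] [Module F A]
    [IsScalarTower F A A] [SMulCommClass F A A] (D : ℕ → Submodule F A) : Prop where
  hG : GJ F A 7 D
  z15 : ∀ v ∈ D 1, ∀ h ∈ D 5, v * h = 0
  z24 : ∀ q ∈ D 2, ∀ g ∈ D 4, q * g = 0
  z34 : ∀ h ∈ D 3, ∀ g ∈ D 4, h * g = 0
  z23 : ∀ q ∈ D 2, ∀ h ∈ D 3, q * h = 0
  f2 : ∀ x ∈ D 1, ∀ g ∈ D 4, (x * x) * (x * g) = 0
  f8 : ∀ c ∈ D 1, ∀ p ∈ D 2, ∀ q ∈ D 2, ∀ q' ∈ D 2,
    p * (c * (q * q')) + q' * (c * (p * q)) + q * (c * (p * q')) = 0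
  f9 : ∀ c ∈ D 1, ∀ d ∈ D 1, ∀ h ∈ D 3, c * (d * h) = d * (c * h)

private theorem Sev6_rules (hG : GJ F A 7 D) (h6 : D 6 = ⊥) : S6 F D := by
  have h2 := hG.two
  have hJ := hG.jordan
  have z6 : ∀ a ∈ D 6, a = 0 := by
    intro a ha
    rw [h6] at ha
    exact (Submodule.mem_bot F).1 ha
  have mm : ∀ {i j : ℕ} (k : ℕ) {a b : A}, 1 ≤ i → 1 ≤ j → i + j = k → a ∈ D i → b ∈ D j →
      a * b ∈ D k := by
    intro i j k a b hi hj hk ha hb
    rw [← hk]
    exact hG.mul_mem i j hi hj a ha b hb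
  have z15 : ∀ v ∈ D 1, ∀ h ∈ D 5, v * h = 0 := fun v hv h hh =>
    z6 _ (mm 6 (by norm_num) (by norm_num) rfl hv hh)
  have z24 : ∀ q ∈ D 2, ∀ g ∈ D 4, q * g = 0 := fun v hv h hh =>
    z6 _ (mm 6 (by norm_num) (by norm_num) rfl hv hh)
  have z33 : ∀ q ∈ D 3, ∀ g ∈ D 3, q * g = 0 := fun v hv h hh =>
    z6 _ (mm 6 (by norm_num) (by norm_num) rfl hv hh)
  have m11 : ∀ {a b : A}, a ∈ D 1 → b ∈ D 1 → a * b ∈ D 2 := fun ha hb =>
    mm 2 (by norm_num) (by norm_num) rfl ha hb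
  have m12 : ∀ {a b : A}, a ∈ D 1 → b ∈ D 2 → a * b ∈ D 3 := fun ha hb =>
    mm 3 (by norm_num) (by norm_num) rfl ha hb
  have m21 : ∀ {a b : A}, a ∈ D 2 → b ∈ D 1 → a * b ∈ D 3 := fun ha hb =>
    mm 3 (by norm_num) (by norm_num) rfl ha hb
  have m13 : ∀ {a b : A}, a ∈ D 1 → b ∈ D 3 → a * b ∈ D 4 := fun ha hb =>
    mm 4 (by norm_num) (by norm_num) rfl ha hb
  have m22 : ∀ {a b : A}, a ∈ D 2 → b ∈ D 2 → a * b ∈ D 4 := fun ha hb =>
    mm 4 (by norm_num) (by norm_num) rfl ha hb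
  have m14 : ∀ {a b : A}, a ∈ D 1 → b ∈ D 4 → a * b ∈ D 5 := fun ha hb =>
    mm 5 (by norm_num) (by norm_num) rfl ha hb
  have m23 : ∀ {a b : A}, a ∈ D 2 → b ∈ D 3 → a * b ∈ D 5 := fun ha hb =>
    mm 5 (by norm_num) (by norm_num) rfl ha hb
  have f2 : ∀ x ∈ D 1, ∀ g ∈ D 4, (x * x) * (x * g) = 0 := by
    intro x hx g hg
    rw [gJ1 hJ x g, z24 _ (m11 hx hx) g hg, mul_zero]
  have f3 : ∀ a ∈ D 1, ∀ b ∈ D 1, ∀ d ∈ D 1, ∀ g ∈ D 4, (d * (a * b)) * g = 0 := by
    intro a ha b hb d hd g hg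
    have e1 := gJ4 F h2 hJ a b d g
    have e2 := gJ3 F h2 hJ a b d g
    rw [z24 _ (m11 ha hb) g hg, z24 _ (m11 hb hd) g hg, z24 _ (m11 hd ha) g hg] at e2
    rw [z15 d hd _ (m14 hb hg), z15 d hd _ (m14 ha hg)] at e1
    simp only [mul_zero, add_zero, sub_zero] at e1 e2
    rw [mul_comm d (a * b), e1]
    rw [mul_comm d a] at e2
    rw [← e2]
    abel
  have z34 : ∀ h ∈ D 3, ∀ g ∈ D 4, h * g = 0 := by
    intro h hh g hg
    have hq : ∀ d ∈ D 1, ∀ q ∈ D 2, (d * q) * g = 0 := by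
      intro d hd q hq
      have hT : D 2 ≤ LinearMap.ker ((LinearMap.mul F A).flip g ∘ₗ (LinearMap.mul F A d)) := by
        apply hG.gen2
        intro a ha b hb
        rw [LinearMap.mem_ker]
        exact f3 a ha b hb d hd g hg
      exact LinearMap.mem_ker.mp (hT hq)
    have hT : D 3 ≤ LinearMap.ker ((LinearMap.mul F A).flip g) := by
      refine hG.gen 3 le_rfl _ ?_ ?_
      · intro d hd q hq'
        rw [LinearMap.mem_ker]
        exact hq d hd q hq'
      · intro q hq' d hd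
        have hd' : d ∈ D 1 := hd
        rw [LinearMap.mem_ker]
        show (q * d) * g = 0
        rw [mul_comm q d]
        exact hq d hd' q hq'
    exact LinearMap.mem_ker.mp (hT hh)
  have f4 : ∀ p ∈ D 2, ∀ q ∈ D 2, ∀ h ∈ D 3, p * (q * h) = q * (p * h) := by
    intro p hp q hq h hh
    have hT : D 2 ≤ LinearMap.ker ((LinearMap.mul F A).flip (q * h) -
        (LinearMap.mul F A q) ∘ₗ ((LinearMap.mul F A).flip h)) := by
      apply hG.gen2
      intro a ha b hb
      rw [LinearMap.mem_ker]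
      show (a * b) * (q * h) - q * ((a * b) * h) = 0
      have e := gJ3 F h2 hJ a b q h
      rw [z34 _ (m12 hb hq) _ (m13 ha hh), z34 _ (m21 hq ha) _ (m13 hb hh),
        z33 _ (m12 hb hq) h hh, z33 _ (m21 hq ha) h hh] at e
      simp only [mul_zero, add_zero] at e
      rw [e, sub_self]
    have e := hT hp
    rw [LinearMap.mem_ker] at e
    exact sub_eq_zero.mp e
  have f5 : ∀ a ∈ D 1, ∀ q ∈ D 2, ∀ q' ∈ D 2, ∀ q'' ∈ D 2,
      q' * (q'' * (a * q)) + q * (q'' * (a * q')) = 0 := by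
    intro a ha q hq q' hq' q'' hq''
    have e := gJ3 F h2 hJ a q q' q''
    rw [z34 _ (m12 ha hq) _ (m22 hq' hq''), mul_comm (q * q') (a * q''),
      z34 _ (m12 ha hq'') _ (m22 hq hq'), z34 _ (m21 hq' ha) _ (m22 hq hq''),
      mul_comm (q * q') q'', z24 q'' hq'' _ (m22 hq hq')] at e
    simp only [mul_zero, add_zero] at e
    rw [mul_comm q'' (a * q), mul_comm q'' (a * q'), mul_comm a q', ← e]
  have f5' : ∀ a ∈ D 1, ∀ q ∈ D 2, ∀ q' ∈ D 2, ∀ q'' ∈ D 2, q' * (q'' * (a * q)) = 0 := by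
    intro a ha q hq q' hq' q'' hq''
    have e1 := f5 a ha q hq q' hq' q'' hq''
    have e2 := f5 a ha q'' hq'' q' hq' q hq
    have e3 := f5 a ha q hq q'' hq'' q' hq'
    have c1 := f4 q' hq' q'' hq'' (a * q) (m12 ha hq)
    have c2 := f4 q hq q'' hq'' (a * q') (m12 ha hq')
    have c3 := f4 q' hq' q hq (a * q'') (m12 ha hq'')
    -- e1 : f(q;q',q'') + f(q';q,q'') = 0 etc.
    have e : (2 : F) • (q' * (q'' * (a * q))) = 0 := by
      rw [two_smul]
      rw [c1] at e1 ⊢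
      rw [c2] at e1
      rw [c3] at e2
      -- e1 : q''(q'(aq)) + q''(q(aq')) = 0
      -- e2 : q(q'(aq'')) + q''(q(aq')) = 0
      -- e3 : q''(q'(aq)) + q(q'(aq'')) = 0
      linear_combination (norm := abel) e1 - e2 + e3
    exact (smul_eq_zero.1 e).resolve_left h2
  have z23 : ∀ q ∈ D 2, ∀ h ∈ D 3, q * h = 0 := by
    have hh2 : ∀ q' ∈ D 2, ∀ q ∈ D 2, ∀ h ∈ D 3, q' * (q * h) = 0 := by
      intro q' hq' q hq h hh
      have hT : D 3 ≤ LinearMap.ker ((LinearMap.mul F A q') ∘ₗ (LinearMap.mul F A q)) := by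
        refine hG.gen 3 le_rfl _ ?_ ?_
        · intro d hd p hp
          rw [LinearMap.mem_ker]
          exact f5' d hd p hp q' hq' q hq
        · intro p hp d hd
          have hd' : d ∈ D 1 := hd
          rw [LinearMap.mem_ker]
          show q' * (q * (p * d)) = 0
          rw [mul_comm p d]
          exact f5' d hd' p hp q' hq' q hq
      exact LinearMap.mem_ker.mp (hT hh)
    intro q hq h hh
    exact hG.nd 5 (by norm_num) (by norm_num) _ (m23 hq hh)
      (fun v hv => z15 v hv _ (m23 hq hh)) (fun q' hq' => hh2 q' hq' q hq h hh)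
  refine ⟨hG, z15, z24, z34, z23, f2, ?_, ?_⟩
  · intro c hc p hp q hq q' hq'
    have e := gder F h2 hJ p c q q'
    rw [z24 p hp _ (m22 hq hq'), z23 p hp _ (m12 hc hq), z23 p hp _ (m12 hc hq'), mul_zero,
      sub_zero, zero_sub, zero_sub, neg_mul, mul_neg, mul_comm (c * (p * q)) q'] at e
    rw [e]
    abel
  · intro c hc d hd h hh
    have m1 : c * (d * h) ∈ D 5 := m14 hc (m13 hd hh)
    have m2 : d * (c * h) ∈ D 5 := m14 hd (m13 hc hh)
    have e : c * (d * h) - d * (c * h) = 0 := by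
      refine hG.nd 5 (by norm_num) (by norm_num) _ (Submodule.sub_mem _ m1 m2)
        (fun v hv => z15 v hv _ (Submodule.sub_mem _ m1 m2)) ?_
      intro p hp
      have e := gder F h2 hJ c d p h
      have m3 : c * (d * p) - d * (c * p) ∈ D 4 :=
        Submodule.sub_mem _ (m13 hc (m12 hd hp)) (m13 hd (m12 hc hp))
      rw [z23 p hp h hh, mul_comm _ h, z34 h hh _ m3] at e
      simp only [mul_zero, sub_zero, zero_add] at e
      exact e.symm
    exact sub_eq_zero.mp e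

/-- `D 5` is spanned by the products `v g` -/
private theorem Sev6_D5 (hS : S6 F D) (T : Submodule F A)
    (hT : ∀ v ∈ D 1, ∀ g ∈ D 4, v * g ∈ T) : D 5 ≤ T := by
  refine hS.hG.gen 5 (by norm_num) T (fun v hv g hg => hT v hv g hg) ?_
  intro q hq h hh
  rw [hS.z23 q hq h hh]
  exact T.zero_mem

/-- `D 2 D 5 ≠ 0` -/
private theorem Sev6_25 (hS : S6 F D) (h6 : D 6 = ⊥) (h : ∀ q ∈ D 2, ∀ f ∈ D 5, q * f = 0) :
    False := by
  have h7 : D 7 ≤ ⊥ := by
    refine hS.hG.gen 7 (by norm_num) ⊥ ?_ ?_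
    · intro v _ a ha
      have ha' : a ∈ D 6 := ha
      rw [h6, Submodule.mem_bot] at ha'
      rw [ha', mul_zero]
      exact Submodule.zero_mem _
    · intro q hq f hf
      rw [h q hq f hf]
      exact Submodule.zero_mem _
  have ht := hS.hG.top
  rw [le_bot_iff.mp h7, finrank_bot] at ht
  exact zero_ne_one ht

private def Sev6_seq {W : Type*} (a b c : W) : ℕ → W
  | 0 => a
  | 1 => b
  | _ => c

/-- `dim D 5 ≥ 2` -/
private theorem Sev6_d5 (hS : S6 F D) (h6 : D 6 = ⊥) : 2 ≤ finrank F (D 5) := by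
  have hfin := hS.hG.fin
  have hinf := hS.hG.inf
  by_contra hlt
  obtain ⟨⟨f, hf⟩, hf'⟩ := finrank_le_one_iff.mp (show finrank F (D 5) ≤ 1 by omega)
  have hco : ∀ a ∈ D 5, ∃ r : F, a = r • f := by
    intro a ha
    obtain ⟨r, hr⟩ := hf' ⟨a, ha⟩
    exact ⟨r, (congrArg Subtype.val hr).symm⟩
  by_cases hvg : ∀ v ∈ D 1, ∀ g ∈ D 4, v * g = 0
  · apply Sev6_25 hS h6
    intro q _ a ha
    have h5 : D 5 ≤ ⊥ := Sev6_D5 hS ⊥ fun v hv g hg => by
      rw [hvg v hv g hg]
      exact Submodule.zero_mem _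
    rw [(Submodule.mem_bot F).mp (h5 ha), mul_zero]
  push Not at hvg
  obtain ⟨v, hv, g, hg, hvg⟩ := hvg
  have hf0 : f ≠ 0 := by
    rintro rfl
    obtain ⟨r, hr⟩ := hco _ (hS.hG.mul_mem 1 4 (by norm_num) (by norm_num) v hv g hg)
    apply hvg
    rw [smul_zero] at hr
    exact hr
  obtain ⟨φ, hφ⟩ : ∃ φ : A →ₗ[F] F, φ (v * g) ≠ 0 := by
    by_contra hcon
    push Not at hcon
    exact hvg ((Module.forall_dual_apply_eq_zero_iff F _).mp hcon)
  have hsq : ∀ x ∈ D 1, φ (x * g) ≠ 0 → (x * x) * f = 0 := by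
    intro x hx h
    obtain ⟨r, hr⟩ := hco _ (hS.hG.mul_mem 1 4 (by norm_num) (by norm_num) x hx g hg)
    have e := hS.f2 x hx g hg
    rw [hr, mul_smul_comm] at e
    refine (smul_eq_zero.1 e).resolve_left ?_
    rintro rfl
    apply h
    rw [hr, zero_smul, map_zero]
  have hall : ∀ x ∈ D 1, (x * x) * f = 0 := by
    intro x hx
    have hP : (Polynomial.C (φ (x * g)) + Polynomial.C (φ (v * g)) * Polynomial.X) ≠ 0 := by
      intro h0
      have := congrArg (fun R => Polynomial.coeff R 1) h0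
      simp at this
      exact hφ this
    have key := pvan (Polynomial.C (φ (x * g)) + Polynomial.C (φ (v * g)) * Polynomial.X) hP 3
      (Sev6_seq ((x * x) * f) ((2 : F) • ((x * v) * f)) ((v * v) * f)) (by
        intro t ht
        have e : φ ((x + t • v) * g) ≠ 0 := by
          rw [add_mul, smul_mul_assoc, map_add, map_smul, smul_eq_mul]
          rw [Polynomial.eval_add, Polynomial.eval_C, Polynomial.eval_mul, Polynomial.eval_C,
            Polynomial.eval_X] at ht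
          rwa [mul_comm t]
        have e2 := hsq _ ((D 1).add_mem hx ((D 1).smul_mem t hv)) e
        rw [Finset.sum_range_succ, Finset.sum_range_succ, Finset.sum_range_one]
        simp only [pow_zero, one_smul, pow_one, Sev6_seq]
        have e3 : (x + t • v) * (x + t • v) = x * x + t • ((2 : F) • (x * v)) + t ^ 2 • (v * v) := by
          rw [add_mul, mul_add, mul_add, smul_mul_smul_comm, mul_smul_comm, smul_mul_assoc,
            mul_comm v x]
          module
        rw [e3, add_mul, add_mul, smul_mul_assoc, smul_mul_assoc, smul_mul_assoc] at e2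
        exact e2) 0 (by norm_num)
    exact key
  apply Sev6_25 hS h6
  intro q hq a ha
  obtain ⟨r, rfl⟩ := hco a ha
  have hT : D 2 ≤ LinearMap.ker ((LinearMap.mul F A).flip f) := by
    apply hS.hG.sq
    intro x hx
    rw [LinearMap.mem_ker]
    exact hall x hx
  have e : q * f = 0 := LinearMap.mem_ker.mp (hT hq)
  rw [mul_smul_comm, e, smul_zero]

/-- `dim D 5 ≤ dim D 2` -/
private theorem Sev6_le (hS : S6 F D) : finrank F (D 5) ≤ finrank F (D 2) := by
  have hfin := hS.hG.fin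
  obtain ⟨u, -, -, κ, -, hκ⟩ := exists_coord hS.hG.top
  let Φ : D 5 →ₗ[F] Module.Dual F (D 2) :=
    LinearMap.mk₂ F (fun (f : D 5) (q : D 2) => κ ((q : A) * (f : A)))
      (by intro x y z; simp [mul_add]) (by intro r x y; simp [mul_smul_comm])
      (by intro x y z; simp [add_mul]) (by intro r x y; simp [smul_mul_assoc])
  have hΦ : Function.Injective Φ := by
    rw [injective_iff_map_eq_zero]
    rintro ⟨f, hf⟩ h
    have : f = 0 := by
      refine hS.hG.nd 5 (by norm_num) (by norm_num) f hf (fun v hv => hS.z15 v hv f hf) ?_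
      intro q hq
      have e := LinearMap.congr_fun h ⟨q, hq⟩
      have e' : κ (q * f) = 0 := e
      rw [hκ _ (hS.hG.mul_mem 2 5 (by norm_num) (by norm_num) q hq f hf), e', zero_smul]
    exact Subtype.ext this
  have := LinearMap.finrank_le_finrank_of_injective hΦ
  rwa [Subspace.dual_finrank_eq] at this

/-- the end of the proof: `D 4 = F g` -/
private theorem Sev6_end (hS : S6 F D) (h5 : 2 ≤ finrank F (D 5))
    (h4 : finrank F (D 4) ≤ 1) : False := by
  have hG := hS.hG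
  have hfin := hG.fin
  obtain ⟨⟨g, hg⟩, hg'⟩ := finrank_le_one_iff.mp h4
  have hco : ∀ a ∈ D 4, ∃ r : F, a = r • g := by
    intro a ha
    obtain ⟨r, hr⟩ := hg' ⟨a, ha⟩
    exact ⟨r, (congrArg Subtype.val hr).symm⟩
  -- `D 5 = V g`
  have h5g : D 5 ≤ (D 1).map (LinearMap.mulRight F g) := by
    apply Sev6_D5 hS
    intro v hv a ha
    obtain ⟨r, rfl⟩ := hco a ha
    exact ⟨r • v, (D 1).smul_mem r hv, by simp [mul_smul_comm]⟩
  have h5g' : ∀ f ∈ D 5, ∃ v ∈ D 1, f = v * g := by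
    intro f hf
    obtain ⟨v, hv, e⟩ := h5g hf
    exact ⟨v, hv, e.symm⟩
  have hg0 : g ≠ 0 := by
    rintro rfl
    have : D 5 ≤ ⊥ := by
      intro f hf
      obtain ⟨v, _, e⟩ := h5g' f hf
      rw [e, mul_zero]
      exact Submodule.zero_mem _
    rw [le_bot_iff.mp this, finrank_bot] at h5
    omega
  -- `D 3 = 0`
  have h3 : ∀ h ∈ D 3, h = 0 := by
    intro h hh
    refine hG.nd 3 (by norm_num) (by norm_num) h hh ?_ (fun q hq => hS.z23 q hq h hh)
    intro d hd
    by_contra hne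
    obtain ⟨r, hr⟩ := hco _ (hG.mul_mem 1 3 (by norm_num) (by norm_num) d hd h hh)
    have hr0 : r ≠ 0 := by
      rintro rfl
      rw [zero_smul] at hr
      exact hne hr
    -- all `c g` are multiples of `d g`
    have h51 : D 5 ≤ Submodule.span F {d * g} := by
      apply Sev6_D5 hS
      intro c hc a ha
      obtain ⟨s, rfl⟩ := hco a ha
      obtain ⟨t, ht⟩ := hco _ (hG.mul_mem 1 3 (by norm_num) (by norm_num) c hc h hh)
      have e := hS.f9 c hc d hd h hh
      rw [hr, ht, mul_smul_comm, mul_smul_comm] at e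
      rw [mul_smul_comm]
      have e2 : c * g = (r⁻¹ * t) • (d * g) := by
        rw [mul_smul, ← e, smul_smul, inv_mul_cancel₀ hr0, one_smul]
      rw [e2]
      exact Submodule.smul_mem _ _ (Submodule.smul_mem _ _ (Submodule.mem_span_singleton_self _))
    have := Submodule.finrank_mono h51
    have h1 : finrank F (Submodule.span F ({d * g} : Set A)) ≤ 1 := by
      refine (finrank_span_le_card _).trans ?_
      simp
    omega
  -- `D 2 D 2 = 0`
  obtain ⟨u, -, -, κ, -, hκ⟩ := exists_coord hG.top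
  have m25 : ∀ {q f : A}, q ∈ D 2 → f ∈ D 5 → q * f ∈ D 7 := fun hq hf =>
    hG.mul_mem 2 5 (by norm_num) (by norm_num) _ hq _ hf
  have h22 : ∀ p ∈ D 2, ∀ q ∈ D 2, p * q = 0 := by
    intro p hp q hq
    obtain ⟨c, hc, hcg, hqc⟩ : ∃ c ∈ D 1, c * g ≠ 0 ∧ q * (c * g) = 0 := by
      let ψ : D 5 →ₗ[F] F := (κ ∘ₗ LinearMap.mulLeft F q).domRestrict (D 5)
      have hr := LinearMap.finrank_range_add_finrank_ker ψ
      have hr1 : finrank F (LinearMap.range ψ) ≤ 1 := by
        have := Submodule.finrank_le (LinearMap.range ψ)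
        rwa [finrank_self] at this
      have hr2 : 0 < finrank F (LinearMap.ker ψ) := by omega
      rw [finrank_pos_iff] at hr2
      obtain ⟨⟨⟨f, hf⟩, hfk⟩, hne⟩ := exists_ne (0 : LinearMap.ker ψ)
      obtain ⟨c, hc, e⟩ := h5g' f hf
      refine ⟨c, hc, ?_, ?_⟩
      · rw [← e]
        rintro rfl
        apply hne
        rfl
      · rw [← e]
        rw [LinearMap.mem_ker] at hfk
        have hfk' : κ (q * f) = 0 := hfk
        rw [hκ _ (m25 hq hf), hfk', zero_smul]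
    have hc5 : c * g ∈ D 5 := hG.mul_mem 1 4 (by norm_num) (by norm_num) c hc g hg
    obtain ⟨p0, hp0, hp0c⟩ : ∃ p0 ∈ D 2, p0 * (c * g) ≠ 0 := by
      by_contra hcon
      push Not at hcon
      exact hcg (hG.nd 5 (by norm_num) (by norm_num) _ hc5 (fun v hv => hS.z15 v hv _ hc5) hcon)
    have key : ∀ p ∈ D 2, p * (c * (p * q)) = 0 := by
      intro p hp
      have e := hS.f8 c hc p hp p hp q hq
      obtain ⟨r, hr⟩ := hco _ (hG.mul_mem 2 2 (by norm_num) (by norm_num) p hp p hp)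
      have e2 : q * (c * (p * p)) = 0 := by
        rw [hr, mul_smul_comm, mul_smul_comm, hqc, smul_zero]
      rw [e2, add_zero, ← two_smul F] at e
      exact (smul_eq_zero.1 e).resolve_left hG.two
    obtain ⟨r, hr⟩ := hco _ (hG.mul_mem 2 2 (by norm_num) (by norm_num) p hp q hq)
    obtain ⟨r0, hr0⟩ := hco _ (hG.mul_mem 2 2 (by norm_num) (by norm_num) p0 hp0 q hq)
    have e0 := key p0 hp0
    rw [hr0, mul_smul_comm, mul_smul_comm] at e0
    have hr00 : r0 = 0 := (smul_eq_zero.1 e0).resolve_right hp0c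
    rw [hr00, zero_smul] at hr0
    have e1 := key p hp
    have e2 := key (p + p0) ((D 2).add_mem hp hp0)
    rw [add_mul p p0 q, hr0, add_zero, add_mul, e1, zero_add, hr, mul_smul_comm, mul_smul_comm] at e2
    have hr' : r = 0 := (smul_eq_zero.1 e2).resolve_right hp0c
    rw [hr, hr', zero_smul]
  have h40 : D 4 ≤ ⊥ := by
    refine hG.gen 4 (by norm_num) ⊥ ?_ ?_
    · intro v _ h hh
      have hh' : h ∈ D 3 := hh
      rw [h3 h hh', mul_zero]
      exact Submodule.zero_mem _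
    · intro p hp q hq
      have hq' : q ∈ D 2 := hq
      rw [h22 p hp q hq']
      exact Submodule.zero_mem _
  exact hg0 ((Submodule.mem_bot F).mp (h40 hg))

theorem GJ7_D6 (hG : GJ F A 7 D)
    (hs : finrank F (D 2) + finrank F (D 3) + finrank F (D 4) + finrank F (D 5) ≤ 6) :
    D 6 ≠ ⊥ := by
  intro h6
  have hfin := hG.fin
  have hS := Sev6_rules hG h6
  have h5 := Sev6_d5 hS h6
  have h52 := Sev6_le hS
  by_cases h4 : finrank F (D 4) ≤ 1
  · exact Sev6_end hS h5 h4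
  have h2 : finrank F (D 2) = 2 := by omega
  rcases pencil hG h2 with hc | ⟨s1, s2, l, m1, m2, Δ, hP⟩
  · apply Sev6_25 hS h6
    intro q hq f hf
    have hT : D 5 ≤ LinearMap.ker (LinearMap.mulLeft F q) := by
      apply Sev6_D5 hS
      intro v hv g hg
      rw [LinearMap.mem_ker, LinearMap.mulLeft_apply, ← hc v hv q hq 4 (by norm_num) g hg,
        hS.z24 q hq g hg, mul_zero]
    exact LinearMap.mem_ker.mp (hT hf)
  · obtain ⟨u, -, -, κ, -, hκ⟩ := exists_coord hG.top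
    apply h4
    let ψ : D 4 →ₗ[F] F := (κ ∘ₗ Δ).domRestrict (D 4)
    have hψ : Function.Injective ψ := by
      rw [injective_iff_map_eq_zero]
      rintro ⟨g, hg⟩ h
      have h' : κ (Δ g) = 0 := h
      have hΔ : Δ g = 0 := by
        rw [hκ _ (hP.deg 4 (by norm_num) g hg), h', zero_smul]
      have hg0 : g = 0 := by
        refine hG.nd 4 (by norm_num) (by norm_num) g hg ?_ (fun q hq => hS.z24 q hq g hg)
        intro w hw
        have m5 : w * g ∈ D 5 := hG.mul_mem 1 4 (by norm_num) (by norm_num) w hw g hg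
        refine hG.nd 5 (by norm_num) (by norm_num) _ m5 (fun v hv => hS.z15 v hv _ m5) ?_
        intro q hq
        have e1 := hP.d1 w hw g
        have e2 := hP.d2 w hw g
        rw [hS.z24 _ hP.s1_mem g hg, hΔ, mul_zero, sub_zero, smul_zero] at e1
        rw [hS.z24 _ hP.s2_mem g hg, hΔ, mul_zero, sub_zero, smul_zero, neg_zero] at e2
        obtain ⟨a, b, rfl⟩ := hP.span q hq
        rw [add_mul, smul_mul_assoc, smul_mul_assoc, e1, e2, smul_zero, smul_zero, add_zero]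
      exact Subtype.ext hg0
    have := LinearMap.finrank_le_finrank_of_injective hψ
    rwa [finrank_self] at this

end JD
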