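import Pool.Agent.H9.JN.H3G
import Pool.Agent.H9.JH.H2B
import Pool.Agent.H9.JH.T1
import Pool.Agent.H9.JH.Comm

set_option autoImplicit false

/-!
# JN Six: class 6, small layers: some `x ^ 6 ≠ 0`

`GJ6_pow`: `GJ F A 6 D` with `d2 + d3 + d4 + d5 ≤ 6`: there is `x ∈ D 1` with `x ^ 6 ≠ 0`
(`x ^ 6 = x (x (x (x (x x))))`), for any number of letters.
-/

namespace JD

universe u

variable {F : Type u} [Field F] {A : Type u} [NonUnitalNonAssocCommRing A] [Module F A]
  [IsScalarTower F A A] [SMulCommClass F A A] {D : ℕ → Submodule F A}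

open Module

/-- at most one letter -/
private theorem Six_one (hG : GJ F A 6 D) (x : A) (hx : ∀ v ∈ D 1, ∃ r : F, v = r • x) :
    x * (x * (x * (x * (x * x)))) ≠ 0 := by
  intro h0
  have e4 : (x * x) * (x * x) = x * (x * (x * x)) := by
    rw [gJ1 hG.jordan, mul_comm (x * x) x]
  have e5 : (x * x) * (x * (x * x)) = x * (x * (x * (x * x))) := by
    rw [gJ1 hG.jordan, e4]
  have e6 : (x * x) * (x * (x * (x * x))) = x * (x * (x * (x * (x * x)))) := by
    rw [gJ1 hG.jordan, e5]
  have m2 : ∀ q ∈ D 2, ∃ r : F, q = r • (x * x) := by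
    intro q hq
    have : D 2 ≤ Submodule.span F {x * x} := by
      apply hG.gen2
      intro v hv w hw
      obtain ⟨r, rfl⟩ := hx v hv
      obtain ⟨r', rfl⟩ := hx w hw
      rw [smul_mul_smul_comm]
      exact Submodule.smul_mem _ _ (Submodule.mem_span_singleton_self _)
    obtain ⟨r, hr⟩ := Submodule.mem_span_singleton.mp (this hq)
    exact ⟨r, hr.symm⟩
  have step : ∀ n, 3 ≤ n → ∀ a b : A, (∀ q ∈ D (n - 1), ∃ r : F, q = r • a) →
      (∀ q ∈ D (n - 2), ∃ r : F, q = r • b) → (x * x) * b = x * a →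
      ∀ q ∈ D n, ∃ r : F, q = r • (x * a) := by
    intro n hn a b ha hb hab q hq
    have : D n ≤ Submodule.span F {x * a} := by
      refine hG.gen n hn _ ?_ ?_
      · intro v hv h hh
        obtain ⟨r, rfl⟩ := hx v hv
        obtain ⟨r', rfl⟩ := ha h hh
        rw [smul_mul_smul_comm]
        exact Submodule.smul_mem _ _ (Submodule.mem_span_singleton_self _)
      · intro p hp h hh
        obtain ⟨r, rfl⟩ := m2 p hp
        obtain ⟨r', rfl⟩ := hb h hh
        rw [smul_mul_smul_comm, hab]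
        exact Submodule.smul_mem _ _ (Submodule.mem_span_singleton_self _)
    obtain ⟨r, hr⟩ := Submodule.mem_span_singleton.mp (this hq)
    exact ⟨r, hr.symm⟩
  have m3 := step 3 le_rfl (x * x) x m2 (fun v hv => hx v hv) (mul_comm _ _)
  have m4 := step 4 (by norm_num) _ _ m3 m2 e4
  have m5 := step 5 (by norm_num) _ _ m4 m3 e5
  have m6 := step 6 (by norm_num) _ _ m5 m4 e6
  have h6 : D 6 = ⊥ := by
    rw [eq_bot_iff]
    intro q hq
    obtain ⟨r, hr⟩ := m6 q hq
    rw [hr, h0, smul_zero]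
    exact Submodule.zero_mem _
  have ht := hG.top
  rw [h6, finrank_bot] at ht
  exact zero_ne_one ht

/-- one-dimensional `D 2` -/
private theorem Six_d2 (hG : GJ F A 6 D) (h : finrank F (D 2) = 1) :
    ∃ x ∈ D 1, x * (x * (x * (x * (x * x)))) ≠ 0 := by
  have hfin := hG.fin
  obtain ⟨hc, -, -, -, -⟩ := H1 hG h
  obtain ⟨s, hs, hs0, φ, hφs, hφ⟩ := exists_coord h
  have hD2 : D 2 ≠ ⊥ := by
    intro h0
    rw [h0, Submodule.mem_bot] at hs
    exact hs0 hs
  obtain ⟨x, hx, hx0⟩ := hG.exists_sq_ne hD2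
  have mm : ∀ v ∈ D 1, ∀ w ∈ D 1, v * w = φ (v * w) • s := fun v hv w hw =>
    hφ _ (hG.mul_mem 1 1 le_rfl le_rfl v hv w hw)
  have hxx := mm x hx x hx
  have hβ : φ (x * x) ≠ 0 := by
    intro h0
    apply hx0
    rw [hxx, h0, zero_smul]
  -- the rules
  have r3 : ∀ v ∈ D 1, ∀ w ∈ D 1, v * (w * s) = φ (v * w) • (s * s) := by
    intro v hv w hw
    rw [mul_comm w s, hc v hv s hs w, mm v hv w hw, mul_smul_comm]
    simp [hφs]
  have r4 : ∀ v ∈ D 1, v * (s * s) = s * (v * s) := fun v hv => hc v hv s hs s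
  have r5 : ∀ v ∈ D 1, ∀ w ∈ D 1, v * (w * (s * s)) = φ (v * w) • (s * (s * s)) := by
    intro v hv w hw
    rw [r4 w hw, hc v hv s hs, r3 v hv w hw, mul_smul_comm]
  refine ⟨x, hx, ?_⟩
  have e6 : x * (x * (x * (x * (x * x)))) = (φ (x * x) ^ 3) • (s * (s * s)) := by
    have a : x * (x * (x * x)) = (φ (x * x) ^ 2) • (s * s) := by
      have : x * (x * (x * x)) = x * (x * (φ (x * x) • s)) := by rw [← hxx]
      rw [this, mul_smul_comm, mul_smul_comm, r3 x hx x hx, smul_smul]
      ring_nf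
    rw [a, mul_smul_comm, mul_smul_comm, r5 x hx x hx, smul_smul]
    ring_nf
  rw [e6]
  intro h0
  have hs3 : s * (s * s) = 0 := (smul_eq_zero.mp h0).resolve_left (pow_ne_zero 3 hβ)
  have m3 : ∀ T : Submodule F A, (∀ v ∈ D 1, v * s ∈ T) → D 3 ≤ T := by
    intro T hT
    refine hG.gen 3 le_rfl T ?_ ?_
    · intro v hv q hq
      have hq' : q ∈ D 2 := hq
      rw [hφ q hq', mul_smul_comm]
      exact T.smul_mem _ (hT v hv)
    · intro q hq v hv
      have hv' : v ∈ D 1 := hv
      rw [hφ q hq, smul_mul_assoc, mul_comm s v]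
      exact T.smul_mem _ (hT v hv')
  have m4 : D 4 ≤ Submodule.span F {s * s} := by
    refine hG.gen 4 (by norm_num) _ ?_ ?_
    · intro v hv h hh
      have hT : D 3 ≤ (Submodule.span F {s * s}).comap (LinearMap.mulLeft F v) := by
        apply m3
        intro w hw
        rw [Submodule.mem_comap, LinearMap.mulLeft_apply, r3 v hv w hw]
        exact Submodule.smul_mem _ _ (Submodule.mem_span_singleton_self _)
      exact hT hh
    · intro q hq h hh
      have hh' : h ∈ D 2 := hh
      rw [hφ q hq, hφ h hh', smul_mul_smul_comm]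
      exact Submodule.smul_mem _ _ (Submodule.mem_span_singleton_self _)
  have m4' : ∀ g ∈ D 4, ∃ r : F, g = r • (s * s) := by
    intro g hg
    obtain ⟨r, hr⟩ := Submodule.mem_span_singleton.mp (m4 hg)
    exact ⟨r, hr.symm⟩
  have m5 : ∀ T : Submodule F A, (∀ v ∈ D 1, v * (s * s) ∈ T) → D 5 ≤ T := by
    intro T hT
    refine hG.gen 5 (by norm_num) T ?_ ?_
    · intro v hv g hg
      obtain ⟨r, rfl⟩ := m4' g hg
      rw [mul_smul_comm]
      exact T.smul_mem _ (hT v hv)
    · intro q hq h hh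
      have hTT : D 3 ≤ T.comap (LinearMap.mulLeft F q) := by
        apply m3
        intro w hw
        rw [Submodule.mem_comap, LinearMap.mulLeft_apply, hφ q hq, smul_mul_assoc, ← r4 w hw]
        exact T.smul_mem _ (hT w hw)
      exact hTT hh
  have m6 : D 6 ≤ ⊥ := by
    refine hG.gen 6 (by norm_num) ⊥ ?_ ?_
    · intro v hv h hh
      have hT : D 5 ≤ (⊥ : Submodule F A).comap (LinearMap.mulLeft F v) := by
        apply m5
        intro w hw
        rw [Submodule.mem_comap, LinearMap.mulLeft_apply, r5 v hv w hw, hs3, smul_zero]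
        exact Submodule.zero_mem _
      exact hT hh
    · intro q hq g hg
      obtain ⟨r, rfl⟩ := m4' g hg
      rw [hφ q hq, smul_mul_smul_comm, hs3, smul_zero]
      exact Submodule.zero_mem _
  have ht := hG.top
  rw [le_bot_iff.mp m6, finrank_bot] at ht
  exact zero_ne_one ht

theorem GJ6_pow (hG : GJ F A 6 D)
    (hs : finrank F (D 2) + finrank F (D 3) + finrank F (D 4) + finrank F (D 5) ≤ 6) :
    ∃ x ∈ D 1, x * (x * (x * (x * (x * x)))) ≠ 0 := by
  have hfin := hG.fin
  by_cases h1 : 2 ≤ finrank F (D 1)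
  · by_cases h2 : finrank F (D 2) = 1
    · exact Six_d2 hG h2
    exfalso
    have h4 : finrank F (D 4) ≠ 0 := by
      intro h
      exact D4_ne hG (Submodule.finrank_eq_zero.mp h)
    have h3 : 2 ≤ finrank F (D 3) := by
      by_contra hlt
      obtain ⟨h5, h6⟩ := H3g hG h1 (by omega)
      omega
    have h5 : finrank F (D 5) ≠ 0 := by
      intro h
      obtain ⟨h6, h7⟩ := H2b hG (Submodule.finrank_eq_zero.mp h)
      omega
    have h2' : finrank F (D 2) ≠ 0 := by
      intro h
      have hb := Submodule.finrank_eq_zero.mp h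
      have h6 : D 3 ≤ ⊥ := by
        refine hG.gen 3 le_rfl ⊥ ?_ ?_
        · intro v _ q hq
          have hq' : q ∈ D 2 := hq
          rw [hb, Submodule.mem_bot] at hq'
          rw [hq', mul_zero]
          exact Submodule.zero_mem _
        · intro q hq v _
          rw [hb, Submodule.mem_bot] at hq
          rw [hq, zero_mul]
          exact Submodule.zero_mem _
      have h7 : finrank F (D 3) = 0 := by
        rw [le_bot_iff.mp h6]
        exact finrank_bot F A
      omega
    have := LT hG (by omega) (by omega)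
    omega
  · obtain ⟨⟨x, hx⟩, hx'⟩ := finrank_le_one_iff.mp (show finrank F (D 1) ≤ 1 by omega)
    refine ⟨x, hx, Six_one hG x ?_⟩
    intro v hv
    obtain ⟨r, hr⟩ := hx' ⟨v, hv⟩
    exact ⟨r, (congrArg Subtype.val hr).symm⟩

end JD
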