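import Pool.Agent.H8.JD.MinCrit
import Pool.Agent.H9.JH.GrQuot
import Pool.Agent.H9.JN.PowX
import Pool.Agent.H9.JN.Six
import Pool.Agent.H9.JN.Sev6

set_option autoImplicit false
set_option linter.unusedSectionVars false

/-!
# JN QuoP: quotients `J / K` with `J^(m+1) ≤ K`, `K` a hyperplane of `J^m`

`exists_quo`: the quotient. `HY.pow6`: `x^6 ∉ K`. `HY.d6`: `d_6 ≥ 1` if `d_7 ≥ 1`.
-/

namespace JD

universe u

open Module

variable {F : Type u} [Field F] {J : Type u} [NonUnitalNonAssocCommRing J] [Module F J]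
  [IsScalarTower F J J] [SMulCommClass F J J]

/-- `K` is a hyperplane of `J^m` containing `J^(m+1)` -/
structure HY (F : Type u) [Field F] (J : Type u) [NonUnitalNonAssocCommRing J] [Module F J]
    [IsScalarTower F J J] [SMulCommClass F J J] (m : ℕ) (K : Submodule F J) : Prop where
  lo : jpow F J (m + 1) ≤ K
  hi : K ≤ jpow F J m
  cod : finrank F (jpow F J m) = finrank F K + 1

theorem finrank_map_add {V W : Type u} [AddCommGroup V] [Module F V] [AddCommGroup W] [Module F W]
    [Module.Finite F V] (g : V →ₗ[F] W) (T : Submodule F V) (h : LinearMap.ker g ≤ T) :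
    finrank F (T.map g) + finrank F (LinearMap.ker g) = finrank F T := by
  have h1 := LinearMap.finrank_range_add_finrank_ker (g.domRestrict T)
  have h2 : LinearMap.range (g.domRestrict T) = T.map g := by
    rw [LinearMap.domRestrict, LinearMap.range_comp, Submodule.range_subtype]
  have h3 : LinearMap.ker (g.domRestrict T) = (LinearMap.ker g).comap T.subtype := by
    rw [LinearMap.domRestrict, LinearMap.ker_comp]
  rw [h2, h3, (Submodule.comapSubtypeEquivOfLe h).finrank_eq] at h1
  exact h1

theorem exists_hyper [Module.Finite F J] (m : ℕ) (h : 1 ≤ dlay F J m) :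
    ∃ K, HY F J m K := by
  have hlt : finrank F (jpow F J (m + 1)) < finrank F (jpow F J m) := by
    unfold dlay at h
    omega
  obtain ⟨K, h1, h2, h3⟩ : ∃ K : Submodule F J, jpow F J (m + 1) ≤ K ∧ K ≤ jpow F J m ∧
      finrank F (jpow F J m) = finrank F K + 1 := by
    -- take a maximal proper one
    let P : ℕ → Prop := fun n => ∃ K : Submodule F J, jpow F J (m + 1) ≤ K ∧ K ≤ jpow F J m ∧
      finrank F K = n
    have key : ∀ n, n < finrank F (jpow F J m) → P n → P (n + 1) := by
      rintro n hn ⟨K, k1, k2, k3⟩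
      have hne : ¬ jpow F J m ≤ K := by
        intro h
        have := Submodule.finrank_mono h
        omega
      obtain ⟨a, ha, haK⟩ := Set.not_subset.mp hne
      refine ⟨K ⊔ Submodule.span F {a}, k1.trans le_sup_left,
        sup_le k2 (by rwa [Submodule.span_singleton_le_iff_mem]), ?_⟩
      have hlt : K < K ⊔ Submodule.span F {a} := by
        refine lt_of_le_of_ne le_sup_left fun h => haK ?_
        rw [h]
        exact Submodule.mem_sup_right (Submodule.mem_span_singleton_self a)
      have f1 := Submodule.finrank_lt_finrank_of_lt hlt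
      have f2 := Submodule.finrank_add_le_finrank_add_finrank K (Submodule.span F {a})
      have f3 : finrank F (Submodule.span F ({a} : Set J)) ≤ 1 := by
        refine (finrank_span_le_card _).trans ?_
        simp
      omega
    have h0 : P (finrank F (jpow F J (m + 1))) := ⟨_, le_rfl, jpow_succ_le m, rfl⟩
    have hall : ∀ k, finrank F (jpow F J (m + 1)) + k < finrank F (jpow F J m) →
        P (finrank F (jpow F J (m + 1)) + k) := by
      intro k
      induction k with
      | zero => intro _; exact h0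
      | succ k ih =>
        intro hk
        have := key (finrank F (jpow F J (m + 1)) + k) (by omega) (ih (by omega))
        rwa [Nat.add_assoc] at this
    obtain ⟨n, hn⟩ : ∃ n, finrank F (jpow F J m) = finrank F (jpow F J (m + 1)) + n + 1 :=
      ⟨finrank F (jpow F J m) - finrank F (jpow F J (m + 1)) - 1, by omega⟩
    obtain ⟨K, k1, k2, k3⟩ := hall n (by omega)
    exact ⟨K, k1, k2, by rw [k3, hn]⟩
  exact ⟨K, h1, h2, h3⟩

theorem exists_quo [Module.Finite F J] (hJ : IsJordan J) {m : ℕ}
    {K : Submodule F J} (h : HY F J m K) :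
    ∃ (J' : Type u) (_ : NonUnitalNonAssocCommRing J') (_ : Module F J')
      (_ : IsScalarTower F J' J') (_ : SMulCommClass F J' J') (g : J →ₗ[F] J') (e : J'),
      Module.Finite F J' ∧ IsJordan J' ∧ e ≠ 0 ∧ jpow F J' m = Submodule.span F {e} ∧
      jpow F J' (m + 1) = ⊥ ∧ LinearMap.ker g = K ∧ Function.Surjective g ∧
      (∀ a b, g (a * b) = g a * g b) ∧
      (∀ i, i < m → dlay F J' i = dlay F J i) := by
  have hI : IsIdeal F J K := by
    intro a b hb
    apply h.lo
    rw [add_comm m 1]
    exact mul_mem_jpow (by rw [jpow_one]; exact Submodule.mem_top) (h.hi hb)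
  let _ : NonUnitalNonAssocCommRing (J ⧸ K) := MinCrit_ring K hI
  have t1 : IsScalarTower F (J ⧸ K) (J ⧸ K) := ⟨fun r a b => by
    change MinCrit_mul K hI (r • a) b = r • MinCrit_mul K hI a b
    rw [map_smul]; rfl⟩
  have t2 : SMulCommClass F (J ⧸ K) (J ⧸ K) := ⟨fun r a b => by
    change r • MinCrit_mul K hI a b = MinCrit_mul K hI a (r • b)
    rw [map_smul]⟩
  have hmul : ∀ a b : J, K.mkQ (a * b) = K.mkQ a * K.mkQ b := fun a b => rfl
  have hmap := fun n => jpow_map K.mkQ hmul (Submodule.mkQ_surjective K) n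
  have hker : LinearMap.ker K.mkQ = K := Submodule.ker_mkQ K
  have hle : ∀ i, i ≤ m → K ≤ jpow F J i := fun i hi => h.hi.trans (jpow_anti hi)
  have hfr : ∀ i, i ≤ m → finrank F (jpow F (J ⧸ K) i) + finrank F K = finrank F (jpow F J i) := by
    intro i hi
    rw [← hmap i]
    have := finrank_map_add K.mkQ (jpow F J i) (by rw [hker]; exact hle i hi)
    rwa [hker] at this
  have h1 : finrank F (jpow F (J ⧸ K) m) = 1 := by
    have := hfr m le_rfl
    have := h.cod
    omega
  obtain ⟨⟨e, he⟩, he0, hes⟩ := finrank_eq_one_iff'.mp h1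
  refine ⟨J ⧸ K, MinCrit_ring K hI, inferInstance, t1, t2, K.mkQ, e, inferInstance, ?_, ?_, ?_, ?_,
    hker, Submodule.mkQ_surjective K, hmul, ?_⟩
  · intro x y
    induction x using Submodule.Quotient.induction_on with
    | _ x =>
    induction y using Submodule.Quotient.induction_on with
    | _ y =>
    exact congrArg K.mkQ (hJ x y)
  · exact fun h => he0 (Subtype.ext h)
  · apply le_antisymm
    · intro a ha
      obtain ⟨r, hr⟩ := hes ⟨a, ha⟩
      have : r • e = a := congrArg Subtype.val hr
      rw [← this]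
      exact Submodule.smul_mem _ _ (Submodule.mem_span_singleton_self e)
    · rw [Submodule.span_singleton_le_iff_mem]
      exact he
  · rw [← hmap (m + 1), eq_bot_iff, Submodule.map_le_iff_le_comap]
    intro a ha
    rw [Submodule.mem_comap, Submodule.mem_bot, Submodule.mkQ_apply,
      Submodule.Quotient.mk_eq_zero]
    exact h.lo ha
  · intro i hi
    have e1 := hfr i (by omega)
    have e2 := hfr (i + 1) (by omega)
    unfold dlay
    omega

/-- the cocyclic graded quotient of `J / K` -/
theorem HY.gj [Module.Finite F J] [Infinite F] (h2 : (2 : F) ≠ 0) (hJ : IsJordan J) {m : ℕ}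
    (hm : 1 ≤ m) {K : Submodule F J} (h : HY F J m K) :
    ∃ (A : Type u) (_ : NonUnitalNonAssocCommRing A) (_ : Module F A) (_ : IsScalarTower F A A)
      (_ : SMulCommClass F A A) (D : ℕ → Submodule F A),
      GJ F A m D ∧ (∀ i, 1 ≤ i → i < m → finrank F (D i) ≤ dlay F J i) ∧
      (∀ y ∈ D 1, ∀ k, 1 ≤ k → ∃ x : J, (xp y m ≠ 0 → xp x m ∉ K)) := by
  obtain ⟨J', i1, i2, i3, i4, g, e, hfin, hJ', he, htop, hbot, hker, hsurj, hmul, hd⟩ :=
    exists_quo hJ h
  obtain ⟨A, j1, j2, j3, j4, D, π, hG, -, hmap, hπ, -, hkill, htk, hdim, -⟩ :=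
    exists_GJ F J' h2 hJ' m hm e he htop hbot
  refine ⟨A, j1, j2, j3, j4, D, hG, ?_, ?_⟩
  · intro i hi him
    rw [← hd i him]
    have := hdim i hi
    unfold dlay
    omega
  · intro y hy k hk
    rw [← hmap 1 le_rfl] at hy
    obtain ⟨x', -, rfl⟩ := hy
    obtain ⟨x, rfl⟩ := hsurj x'
    refine ⟨x, fun hne hx => hne ?_⟩
    have key : ∀ n, 1 ≤ n → xp (π 1 (g x)) n = π n (xp (g x) n) := by
      intro n hn
      induction n, hn using Nat.le_induction with
      | base => rfl
      | succ n hn ih =>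
        rw [xp_succ _ hn, xp_succ _ hn, ih, add_comm n 1,
          hπ 1 n le_rfl hn _ (by rw [jpow_one]; exact Submodule.mem_top) _ (xp_mem _ hn)]
    rw [key m hm, ← xp_map g hmul]
    have : g (xp x m) = 0 := by
      rw [← LinearMap.mem_ker, hker]
      exact hx
    rw [this, map_zero]

/-- some sixth power is outside the hyperplane -/
theorem HY.pow6 [Module.Finite F J] [Infinite F] (h2 : (2 : F) ≠ 0) (hJ : IsJordan J)
    {K : Submodule F J} (h : HY F J 6 K)
    (hs : dlay F J 2 + dlay F J 3 + dlay F J 4 + dlay F J 5 ≤ 6) : ∃ x : J, xp x 6 ∉ K := by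
  obtain ⟨A, j1, j2, j3, j4, D, hG, hd, hx⟩ := h.gj h2 hJ (by norm_num)
  have d2 := hd 2 (by norm_num) (by norm_num)
  have d3 := hd 3 (by norm_num) (by norm_num)
  have d4 := hd 4 (by norm_num) (by norm_num)
  have d5 := hd 5 (by norm_num) (by norm_num)
  obtain ⟨y, hy, hy6⟩ := GJ6_pow hG (by omega)
  obtain ⟨x, hx'⟩ := hx y hy 1 le_rfl
  exact ⟨x, hx' hy6⟩

/-- the sixth layer is nonzero if the seventh is -/
theorem HY.d6 [Module.Finite F J] [Infinite F] (h2 : (2 : F) ≠ 0) (hJ : IsJordan J)
    {K : Submodule F J} (h : HY F J 7 K)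
    (hs : dlay F J 2 + dlay F J 3 + dlay F J 4 + dlay F J 5 ≤ 6) : 1 ≤ dlay F J 6 := by
  obtain ⟨A, j1, j2, j3, j4, D, hG, hd, hx⟩ := h.gj h2 hJ (by norm_num)
  have d2 := hd 2 (by norm_num) (by norm_num)
  have d3 := hd 3 (by norm_num) (by norm_num)
  have d4 := hd 4 (by norm_num) (by norm_num)
  have d5 := hd 5 (by norm_num) (by norm_num)
  have d6 := hd 6 (by norm_num) (by norm_num)
  have hfin := hG.fin
  have h6 := GJ7_D6 hG (by omega)
  have : finrank F (D 6) ≠ 0 := fun h0 => h6 (Submodule.finrank_eq_zero.mp h0)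
  omega

end JD
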